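import Pool.Agent.H36.SF.Sys

/-!
The case `a = b`: if `s_1 ≠ s_2` then `D s_1 s_2 ≤ (s_1 - 1)(s_2 - 1)`.

Put `e = 1 - D`, `P = a_1 a_2`, `X = a_1 + a_2`, `u = a_3`, `Σ = ∑ s_l a_l²`, `c = D Σ`,
`y_1 = 2P - 3 + 2 a_1 u`, `y_2 = 2P - 3 + 2 a_2 u` (both `≥ 1`), `w = 2P - 3 + 2uX`, `z = e c`.
`e s_1 a_1² = P - 1 + a_1 u`, `e s_2 a_2² = P - 1 + a_2 u`, `e s_3 u² = uX - 1`, so `e Σ = w`,
`z = D w = (1 - e) w`. `(s_1 - 1) y_1 = c = (s_2 - 1) y_2`, so `a_1 ≠ a_2` and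
`a_1² (e y_1 + z) = y_1 (P - 1 + a_1 u)`, `a_2² (e y_2 + z) = y_2 (P - 1 + a_2 u)`   (E1), (E2).
Let `M = (P - 1) X + u P`. Elimination (divide by `a_1 - a_2 ≠ 0`):
(iii) `2 u P² z = y_1 y_2 M`;   (psi) `(3 - 2P) M = 2 u P (P - 1 + e P)`.
Also `y_1 y_2 = (2P - 3) w + 4 u² P`. Insert in `z = (1 - e) w` and divide by `2 u P`:
(vii) `2 u M = (2P - 1) w`, i.e. (viii) `2 u P (X - u) = (2P - 1)(3 - 2P)`.
Then (vi) `(P-1) X² + u X - (P-1)(2P-1) - P u² - e P (2P-1) = 0` (from (psi), (viii); multiply by `2u`),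
and from (vi), (psi): (iv) `M w = 2u [(P-1+a_1 u)(P-1+a_2 u) + e P (P-1)]`.
With (iii): `z w P² = y_1 y_2 [(P-1+a_1 u)(P-1+a_2 u) + e P (P-1)]`, and `z w = D w² = e² c²/D`,
`(P-1+a_i u) y_i = a_i² (e y_i + z) = e a_i² (y_i + c)`, i.e.
`e c² = D [e (y_1 + c)(y_2 + c) + (1 - 1/P) y_1 y_2]`, divide by `y_1 y_2`, `s_i = 1 + c/y_i`:
(v) `e (s_1 - 1)(s_2 - 1) = D (e s_1 s_2 + (1 - 1/P)) ≥ D e s_1 s_2`.
-/

namespace Pool.H36.SF

namespace Sys3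

variable {a1 a2 a3 s1 s2 s3 D : ℝ}

/-- (psi) -/
theorem sym_psi (h : Sys3 a1 a2 a3 a1 a2 a3 s1 s2 s3 D) (hne : s1 ≠ s2) :
    (3 - 2 * (a1 * a2)) * ((a1 * a2 - 1) * (a1 + a2) + a3 * (a1 * a2)) =
      2 * a3 * (a1 * a2) * ((a1 * a2 - 1) + (1 - D) * (a1 * a2)) := by
  have hD1 := h.D_lt_one
  have ha1 := h.ha1
  have ha2 := h.ha2
  have ha3 := h.ha3
  have he : (1 - D) ≠ 0 := by linarith
  have hP : (a1 * a2) ≠ 0 := by positivity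
  have p1 : (1 - D) * (s1 * a1 ^ 2) = a1 * a2 - 1 + a1 * a3 := by linear_combination -h.A1
  have p2 : (1 - D) * (s2 * a2 ^ 2) = a1 * a2 - 1 + a2 * a3 := by linear_combination -h.A2
  have q1 : (a1 * a2) ^ 2 * ((1 - D) * (s1 - s2)) =
      (a2 - a1) * ((a1 * a2 - 1) * (a1 + a2) + a3 * (a1 * a2)) := by
    linear_combination a2 ^ 2 * p1 - a1 ^ 2 * p2
  have q2 : (a1 * a2) * ((1 - D) * (s1 * a1 - s2 * a2)) = (a1 * a2 - 1) * (a2 - a1) := by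
    linear_combination a2 * p1 - a1 * p2
  have q3 : (s1 - s2) * (3 - 2 * (a1 * a2)) = 2 * a3 * ((s1 * a1 - s2 * a2) + (a2 - a1)) := by
    linear_combination (-1) * h.T1 + h.T2
  have hne' : a2 - a1 ≠ 0 := by
    intro h0
    rw [h0, zero_mul] at q1
    have h1 : s1 - s2 ≠ 0 := sub_ne_zero.2 hne
    exact (mul_ne_zero (pow_ne_zero 2 hP) (mul_ne_zero he h1)) q1
  refine mul_left_cancel₀ hne' ?_
  linear_combination (-(3 - 2 * (a1 * a2))) * q1 + 2 * a3 * (a1 * a2) * q2 +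
    (a1 * a2) ^ 2 * (1 - D) * q3

/-- (iii), with `z = (1 - D) c = D w` -/
private theorem sym_iii (h : Sys3 a1 a2 a3 a1 a2 a3 s1 s2 s3 D) (hne : s1 ≠ s2) :
    2 * a3 * (a1 * a2) ^ 2 * (D * (2 * (a1 * a2) - 3 + 2 * a3 * (a1 + a2))) =
      (2 * (a1 * a2) - 3 + 2 * a1 * a3) * (2 * (a1 * a2) - 3 + 2 * a2 * a3) *
        ((a1 * a2 - 1) * (a1 + a2) + a3 * (a1 * a2)) := by
  have hD1 := h.D_lt_one
  have ha1 := h.ha1
  have ha2 := h.ha2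
  have ha3 := h.ha3
  have he : (1 - D) ≠ 0 := by linarith
  have hP : (a1 * a2) ≠ 0 := by positivity
  have p1 : (1 - D) * (s1 * a1 ^ 2) = a1 * a2 - 1 + a1 * a3 := by linear_combination -h.A1
  have p2 : (1 - D) * (s2 * a2 ^ 2) = a1 * a2 - 1 + a2 * a3 := by linear_combination -h.A2
  have q1 : (a1 * a2) ^ 2 * ((1 - D) * (s1 - s2)) =
      (a2 - a1) * ((a1 * a2 - 1) * (a1 + a2) + a3 * (a1 * a2)) := by
    linear_combination a2 ^ 2 * p1 - a1 ^ 2 * p2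
  have hne' : a2 - a1 ≠ 0 := by
    intro h0
    rw [h0, zero_mul] at q1
    have h1 : s1 - s2 ≠ 0 := sub_ne_zero.2 hne
    exact (mul_ne_zero (pow_ne_zero 2 hP) (mul_ne_zero he h1)) q1
  obtain ⟨c, hcd⟩ : ∃ c, c = D * (s1 * (a1 * a1) + s2 * (a2 * a2) + s3 * (a3 * a3)) := ⟨_, rfl⟩
  obtain ⟨y1, hy1d⟩ : ∃ y1, y1 = 2 * (a1 * a2) - 3 + 2 * a1 * a3 := ⟨_, rfl⟩
  obtain ⟨y2, hy2d⟩ : ∃ y2, y2 = 2 * (a1 * a2) - 3 + 2 * a2 * a3 := ⟨_, rfl⟩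
  have t1 : (s1 - 1) * y1 = c := by
    rw [hy1d, hcd]
    linear_combination h.T1
  have t2 : (s2 - 1) * y2 = c := by
    rw [hy2d, hcd]
    linear_combination h.T2
  have hec : (1 - D) * c = D * (2 * (a1 * a2) - 3 + 2 * a3 * (a1 + a2)) := by
    rw [hcd]
    linear_combination (-D) * (h.A1 + h.A2 + h.A3)
  have hyy : y2 - y1 = 2 * a3 * (a2 - a1) := by
    rw [hy1d, hy2d]
    ring
  rw [← hec, ← hy1d, ← hy2d]
  refine mul_left_cancel₀ hne' ?_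
  -- (s1 - s2) y1 y2 = c (y2 - y1)
  have t3 : (s1 - s2) * (y1 * y2) = c * (y2 - y1) := by
    linear_combination y2 * t1 - y1 * t2
  have t4 : (a1 * a2) ^ 2 * (1 - D) * (c * (y2 - y1)) =
      y1 * y2 * ((a2 - a1) * ((a1 * a2 - 1) * (a1 + a2) + a3 * (a1 * a2))) := by
    rw [← t3]
    linear_combination (y1 * y2) * q1
  rw [hyy] at t4
  linear_combination t4

/-- (vii) -/
private theorem sym_vii (h : Sys3 a1 a2 a3 a1 a2 a3 s1 s2 s3 D) (hne : s1 ≠ s2) :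
    (2 * (a1 * a2) - 1) * (2 * (a1 * a2) - 3 + 2 * a3 * (a1 + a2)) =
      2 * a3 * ((a1 * a2 - 1) * (a1 + a2) + a3 * (a1 * a2)) := by
  have ha1 := h.ha1
  have ha2 := h.ha2
  have ha3 := h.ha3
  have hPu : 2 * a3 * (a1 * a2) ≠ 0 := by positivity
  have hpsi := h.sym_psi hne
  have hiii := h.sym_iii hne
  have hyy : (2 * (a1 * a2) - 3 + 2 * a1 * a3) * (2 * (a1 * a2) - 3 + 2 * a2 * a3) =
      (2 * (a1 * a2) - 3) * (2 * (a1 * a2) - 3 + 2 * a3 * (a1 + a2)) +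
        4 * a3 ^ 2 * (a1 * a2) := by ring
  rw [hyy] at hiii
  obtain ⟨P, hPd⟩ : ∃ P, P = a1 * a2 := ⟨_, rfl⟩
  obtain ⟨X, hXd⟩ : ∃ X, X = a1 + a2 := ⟨_, rfl⟩
  obtain ⟨M, hMd⟩ : ∃ M, M = (P - 1) * X + a3 * P := ⟨_, rfl⟩
  obtain ⟨w, hwd⟩ : ∃ w, w = 2 * P - 3 + 2 * a3 * X := ⟨_, rfl⟩
  rw [← hPd, ← hXd] at hpsi hiii ⊢
  rw [← hPd] at hPu
  rw [← hMd, ← hwd] at hiii ⊢
  rw [← hMd] at hpsi
  refine mul_left_cancel₀ hPu ?_
  linear_combination hiii - w * hpsi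

/-- (viii) -/
theorem sym_viii (h : Sys3 a1 a2 a3 a1 a2 a3 s1 s2 s3 D) (hne : s1 ≠ s2) :
    2 * a3 * (a1 * a2) * (a1 + a2 - a3) = (2 * (a1 * a2) - 1) * (3 - 2 * (a1 * a2)) := by
  have hD1 := h.D_lt_one
  have ha1 := h.ha1
  have ha2 := h.ha2
  have ha3 := h.ha3
  have hP : 0 < (a1 * a2) := by positivity
  have hPu : 2 * a3 * (a1 * a2) ≠ 0 := by positivity
  have hpsi := h.sym_psi hne
  have hvii := h.sym_vii hne
  linear_combination hvii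

/-- (v) -/
theorem sym_v (h : Sys3 a1 a2 a3 a1 a2 a3 s1 s2 s3 D) (hne : s1 ≠ s2) :
    (a1 * a2) * ((1 - D) * ((s1 - 1) * (s2 - 1))) =
      D * ((1 - D) * (s1 * s2) * (a1 * a2) + (a1 * a2 - 1)) := by
  have hD1 := h.D_lt_one
  have hD0 := h.hD
  have ha1 := h.ha1
  have ha2 := h.ha2
  have ha3 := h.ha3
  have hP : 0 < (a1 * a2) := by positivity
  have hPu : 2 * a3 * (a1 * a2) ≠ 0 := by positivity
  have hu : 2 * a3 ≠ 0 := by positivity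
  have hpsi := h.sym_psi hne
  have hvii := h.sym_vii hne
  have hviii := h.sym_viii hne
  have hiii := h.sym_iii hne
  obtain ⟨P, hPd⟩ : ∃ P, P = a1 * a2 := ⟨_, rfl⟩
  obtain ⟨X, hXd⟩ : ∃ X, X = a1 + a2 := ⟨_, rfl⟩
  obtain ⟨e, hed⟩ : ∃ e, e = 1 - D := ⟨_, rfl⟩
  obtain ⟨M, hMd⟩ : ∃ M, M = (P - 1) * X + a3 * P := ⟨_, rfl⟩
  obtain ⟨w, hwd⟩ : ∃ w, w = 2 * P - 3 + 2 * a3 * X := ⟨_, rfl⟩
  obtain ⟨y1, hy1d⟩ : ∃ y1, y1 = 2 * P - 3 + 2 * a1 * a3 := ⟨_, rfl⟩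
  obtain ⟨y2, hy2d⟩ : ∃ y2, y2 = 2 * P - 3 + 2 * a2 * a3 := ⟨_, rfl⟩
  obtain ⟨c, hcd⟩ : ∃ c, c = D * (s1 * (a1 * a1) + s2 * (a2 * a2) + s3 * (a3 * a3)) := ⟨_, rfl⟩
  have hy1 : 1 ≤ y1 := by
    rw [hy1d, hPd]
    nlinarith
  have hy2 : 1 ≤ y2 := by
    rw [hy2d, hPd]
    nlinarith
  have hP1 : 1 ≤ P := by
    rw [hPd]
    nlinarith
  have t1 : (s1 - 1) * y1 = c := by
    rw [hy1d, hPd, hcd]
    linear_combination h.T1
  have t2 : (s2 - 1) * y2 = c := by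
    rw [hy2d, hPd, hcd]
    linear_combination h.T2
  have hec : e * c = D * w := by
    rw [hed, hcd, hwd, hPd, hXd]
    linear_combination (-D) * (h.A1 + h.A2 + h.A3)
  have p1 : e * (s1 * a1 ^ 2) = P - 1 + a1 * a3 := by
    rw [hed, hPd]
    linear_combination -h.A1
  have p2 : e * (s2 * a2 ^ 2) = P - 1 + a2 * a3 := by
    rw [hed, hPd]
    linear_combination -h.A2
  rw [← hPd, ← hXd, ← hed] at hpsi
  rw [← hMd] at hpsi
  rw [← hPd, ← hXd] at hvii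
  rw [← hMd, ← hwd] at hvii
  rw [← hPd, ← hXd] at hviii
  rw [← hPd, ← hXd] at hiii
  rw [← hMd, ← hy1d, ← hy2d, ← hwd] at hiii
  rw [← hPd] at hPu
  have h2P : (2 * P - 1) ≠ 0 := by linarith
  -- (vi)
  have hvi : M * (X - a3) = (2 * P - 1) * (P - 1 + e * P) := by
    refine mul_left_cancel₀ hPu ?_
    linear_combination M * hviii + (2 * P - 1) * hpsi
  -- (iv)
  have hiv0 : M ^ 2 = (2 * P - 1) * ((P - 1 + a1 * a3) * (P - 1 + a2 * a3) + e * P * (P - 1)) := by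
    have e1 : (P - 1 + a1 * a3) * (P - 1 + a2 * a3) = (P - 1) ^ 2 + (P - 1) * a3 * X +
        a3 ^ 2 * P := by
      rw [hXd, hPd]
      ring
    rw [e1]
    linear_combination (P - 1) * hvi + M * hMd + (2 * P - 1) * a3 * hMd
  have hiv : M * w = 2 * a3 * ((P - 1 + a1 * a3) * (P - 1 + a2 * a3) + e * P * (P - 1)) := by
    refine mul_left_cancel₀ h2P ?_
    linear_combination M * hvii + 2 * a3 * hiv0
  -- final
  have he0 : e ≠ 0 := by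
    rw [hed]
    linarith
  have hPne : P ≠ 0 := by linarith
  have s1y : s1 * y1 = y1 + c := by linear_combination t1
  have s2y : s2 * y2 = y2 + c := by linear_combination t2
  have k1 : P ^ 2 * D * w ^ 2 = y1 * y2 * ((P - 1 + a1 * a3) * (P - 1 + a2 * a3) +
      e * P * (P - 1)) := by
    refine mul_left_cancel₀ hu ?_
    linear_combination w * hiii + y1 * y2 * hiv
  have k2 : y1 * (P - 1 + a1 * a3) = e * a1 ^ 2 * (y1 + c) := by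
    rw [← p1, ← s1y]
    ring
  have k3 : y2 * (P - 1 + a2 * a3) = e * a2 ^ 2 * (y2 + c) := by
    rw [← p2, ← s2y]
    ring
  have k4 : (y1 * (P - 1 + a1 * a3)) * (y2 * (P - 1 + a2 * a3)) =
      e ^ 2 * P ^ 2 * ((y1 + c) * (y2 + c)) := by
    rw [k2, k3, hPd]
    ring
  have hfin : P * e * c ^ 2 = D * (e * P * ((y1 + c) * (y2 + c)) + y1 * y2 * (P - 1)) := by
    refine mul_left_cancel₀ (mul_ne_zero he0 hPne) ?_
    have k5 : P ^ 2 * (e * c) ^ 2 = D * (P ^ 2 * D * w ^ 2) := by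
      rw [hec]
      ring
    linear_combination k5 + D * k1 + D * k4
  have hyne : y1 * y2 ≠ 0 := by positivity
  rw [← hPd, ← hed]
  refine mul_left_cancel₀ hyne ?_
  have k6 : y1 * y2 * (P * (e * ((s1 - 1) * (s2 - 1)))) = P * e * c ^ 2 := by
    have k7 : ((s1 - 1) * y1) * ((s2 - 1) * y2) = c * c := by rw [t1, t2]
    linear_combination P * e * k7
  have k8 : y1 * y2 * (D * (e * (s1 * s2) * P + (P - 1))) =
      D * (e * P * ((y1 + c) * (y2 + c)) + y1 * y2 * (P - 1)) := by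
    have k9 : (s1 * y1) * (s2 * y2) = (y1 + c) * (y2 + c) := by rw [s1y, s2y]
    linear_combination D * e * P * k9
  rw [k6, k8]
  exact hfin

theorem sym_le (h : Sys3 a1 a2 a3 a1 a2 a3 s1 s2 s3 D) (hne : s1 ≠ s2) :
    D * (s1 * s2) ≤ (s1 - 1) * (s2 - 1) := by
  have h1 := h.sym_v hne
  have h2 := h.D_lt_one
  have h3 := h.hD
  have hP : 1 ≤ a1 * a2 := by nlinarith [h.ha1, h.ha2]
  have e : (a1 * a2 * (1 - D)) * ((s1 - 1) * (s2 - 1) - D * (s1 * s2)) = D * (a1 * a2 - 1) := by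
    linear_combination h1
  have e1 : 0 ≤ D * (a1 * a2 - 1) := mul_nonneg h3.le (by linarith)
  rw [← e] at e1
  have e2 : 0 < a1 * a2 * (1 - D) := mul_pos (by linarith) (by linarith)
  have := nonneg_of_mul_nonneg_right e1 e2
  linarith

/-- `t_3 ≤ t_1 t_2`, in terms of `m_i = t_i² = (s_i - 1)/s_i`. -/
theorem sym_m (h : Sys3 a1 a2 a3 a1 a2 a3 s1 s2 s3 D) (hne : s1 ≠ s2) : s3 < s1 ∧ s3 < s2 := by
  have hle := h.sym_le hne
  have h1 := h.hs1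
  have h2 := h.hs2
  have h3 := h.hs3
  have hD := h.hD
  have hDD := h.hDD
  have k1 : (s3 - 1) * (s1 * s2) ≤ (s1 - 1) * (s2 - 1) * s3 := by
    have e0 : 0 ≤ D * (s1 * s2) := by positivity
    have e1 : (D * (s1 * s2)) * (D * (s1 * s2)) ≤ ((s1 - 1) * (s2 - 1)) * ((s1 - 1) * (s2 - 1)) :=
      mul_le_mul hle hle e0 (e0.trans hle)
    have e2 : 0 < (s1 - 1) * (s2 - 1) := mul_pos (by linarith) (by linarith)
    have e3 : ((s1 - 1) * (s2 - 1)) * ((s3 - 1) * (s1 * s2)) ≤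
        ((s1 - 1) * (s2 - 1)) * ((s1 - 1) * (s2 - 1) * s3) := by
      have e4 : ((s1 - 1) * (s2 - 1)) * ((s3 - 1) * (s1 * s2)) =
          (D * (s1 * s2)) * (D * (s1 * s2)) * s3 := by
        linear_combination (-(s1 * s2)) * hDD
      rw [e4]
      have e5 := mul_le_mul_of_nonneg_right e1 (by linarith : 0 ≤ s3)
      linarith
    exact le_of_mul_le_mul_left e3 e2
  constructor
  · by_contra hle'
    push Not at hle'
    have e1 : (s1 - 1) * s3 ≤ (s3 - 1) * s1 := by nlinarith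
    have e2 : (s1 - 1) * s3 * s2 ≤ (s3 - 1) * s1 * s2 :=
      mul_le_mul_of_nonneg_right e1 (by linarith)
    have e3 : 0 < (s1 - 1) * s3 := mul_pos (by linarith) (by linarith)
    nlinarith
  · by_contra hle'
    push Not at hle'
    have e1 : (s2 - 1) * s3 ≤ (s3 - 1) * s2 := by nlinarith
    have e2 : (s2 - 1) * s3 * s1 ≤ (s3 - 1) * s2 * s1 :=
      mul_le_mul_of_nonneg_right e1 (by linarith)
    have e3 : 0 < (s2 - 1) * s3 := mul_pos (by linarith) (by linarith)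
    nlinarith

/-- In the symmetric case all `s_i` agree. -/
theorem sym_all (h : Sys3 a1 a2 a3 a1 a2 a3 s1 s2 s3 D) : s1 = s2 := by
  by_contra hne
  obtain ⟨h1, h2⟩ := h.sym_m hne
  obtain ⟨h3, h4⟩ := h.p23.sym_m h1.ne'
  linarith

end Sys3

end Pool.H36.SF
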