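import Pool.Agent.H36.SF.Pair
import Pool.Agent.H36.SF.SymA

/-!
All `s_i` agree, then all `a_i` and all `b_i` agree.
-/

namespace Pool.H36.SF

namespace Sys3

variable {a1 a2 a3 b1 b2 b3 s1 s2 s3 D : ℝ}

/-- If `D ≥ 1/2` then `a = b`. -/
theorem sym_of_half (h : Sys3 a1 a2 a3 b1 b2 b3 s1 s2 s3 D) (hD : 1 / 2 ≤ D) :
    a1 = b1 ∧ a2 = b2 ∧ a3 = b3 := by
  refine ⟨?_, ?_, ?_⟩
  · by_contra hne
    have := h.D_lt_half hne
    linarith
  · by_contra hne
    have := h.p12.D_lt_half hne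
    linarith
  · by_contra hne
    have := h.p23.p12.D_lt_half hne
    linarith

theorem pair_false (h : Sys3 a1 a2 a3 b1 b2 b3 s1 s2 s3 D) (h12 : s2 ≤ s1) (h23 : s3 ≤ s2) :
    s1 = s3 := by
  by_contra hne
  have hD := h.pair h12 h23 (lt_of_le_of_ne (h23.trans h12) (Ne.symm hne))
  obtain ⟨e1, e2, e3⟩ := h.sym_of_half hD
  subst e1 e2 e3
  exact hne (h.p23.sym_all)

theorem s_eq (h : Sys3 a1 a2 a3 b1 b2 b3 s1 s2 s3 D) : s1 = s2 ∧ s2 = s3 := by
  rcases le_total s1 s2 with h12 | h12 <;> rcases le_total s2 s3 with h23 | h23 <;>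
    rcases le_total s1 s3 with h13 | h13
  · have := h.p12.p23.p12.pair_false h23 h12
    constructor <;> linarith
  · have := h.p12.p23.p12.pair_false h23 h12
    constructor <;> linarith
  · have := h.p12.p23.pair_false h23 h13
    constructor <;> linarith
  · have := h.p12.pair_false h12 h13
    constructor <;> linarith
  · have := h.p23.p12.pair_false h13 h12
    constructor <;> linarith
  · have := h.p23.pair_false h13 h23
    constructor <;> linarith
  · have := h.pair_false h12 h23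
    constructor <;> linarith
  · have := h.pair_false h12 h23
    constructor <;> linarith

theorem ab_eq (h : Sys3 a1 a2 a3 b1 b2 b3 s1 s2 s3 D) :
    a1 = a2 ∧ a2 = a3 ∧ b1 = b2 ∧ b2 = b3 := by
  obtain ⟨e1, e2⟩ := h.s_eq
  obtain ⟨h1, h2⟩ := h.mono (by linarith)
  obtain ⟨h3, h4⟩ := h.p23.mono (by linarith)
  obtain ⟨h5, h6⟩ := h.p12.mono (by linarith)
  obtain ⟨h7, h8⟩ := h.p12.p23.mono (by linarith)
  obtain ⟨h9, h10⟩ := h.p23.p12.mono (by linarith)
  obtain ⟨h11, h12⟩ := h.p12.p23.p12.mono (by linarith)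
  refine ⟨?_, ?_, ?_, ?_⟩ <;> linarith

end Sys3

end Pool.H36.SF
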