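import Pool.Agent.H36.SF.Mk2

/-!
The structure matrix of a basis: `α = det P • (Pᵀ P)⁻¹` (`P * α = det P • (Pᵀ)⁻¹ = (adj P)ᵀ`,
`det α = det P`, `adj α = det α • α⁻¹ = Pᵀ P`).
-/

namespace Pool.H36.SF

open Matrix Pool.H36.ST

/-- The structure matrix of a basis. -/
theorem exists_alpha (P : M3) (hP : 0 < P.det) :
    ∃ α : M3, αᵀ = α ∧ α.PosDef ∧ P * α = (P.adjugate)ᵀ ∧ Pᵀ * P = α.adjugate := by
  have hPu : IsUnit P := (Matrix.isUnit_iff_isUnit_det P).2 (isUnit_iff_ne_zero.2 hP.ne')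
  have hBdet : (Pᵀ * P).det = P.det ^ 2 := by
    rw [Matrix.det_mul, Matrix.det_transpose]
    ring
  have hBu : IsUnit (Pᵀ * P).det := by
    rw [hBdet]
    exact isUnit_iff_ne_zero.2 (pow_ne_zero 2 hP.ne')
  have hB : (Pᵀ * P).PosDef := by
    have h1 := Matrix.PosDef.conjTranspose_mul_self P (Matrix.mulVec_injective_of_isUnit hPu)
    rwa [Matrix.conjTranspose_eq_transpose_of_trivial] at h1
  have hBs : (Pᵀ * P)ᵀ = Pᵀ * P := by
    rw [Matrix.transpose_mul, Matrix.transpose_transpose]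
  have hinv : (Pᵀ * P) * (Pᵀ * P)⁻¹ = 1 := Matrix.mul_nonsing_inv _ hBu
  have hdetα : (P.det • (Pᵀ * P)⁻¹).det = P.det := by
    rw [Matrix.det_smul, Matrix.det_nonsing_inv, Ring.inverse_eq_inv', hBdet]
    have := hP.ne'
    simp only [Fintype.card_fin]
    field_simp
  refine ⟨P.det • (Pᵀ * P)⁻¹, ?_, ?_, ?_, ?_⟩
  · rw [Matrix.transpose_smul, Matrix.transpose_nonsing_inv, hBs]
  · exact hB.inv.smul hP
  · rw [Matrix.mul_smul]
    have h1 : (P.adjugate)ᵀ = (P.adjugate)ᵀ * (Pᵀ * P * (Pᵀ * P)⁻¹) := by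
      rw [hinv, Matrix.mul_one]
    rw [h1, ← Matrix.mul_assoc, ← Matrix.mul_assoc, ← Matrix.transpose_mul, Matrix.mul_adjugate,
      Matrix.transpose_smul, Matrix.transpose_one, Matrix.smul_mul, Matrix.one_mul,
      Matrix.smul_mul]
  · have h1 : (P.det • (Pᵀ * P)⁻¹).adjugate * (P.det • (Pᵀ * P)⁻¹) =
        (Pᵀ * P) * (P.det • (Pᵀ * P)⁻¹) := by
      rw [Matrix.adjugate_mul, hdetα, Matrix.mul_smul, hinv]
    have h2 : IsUnit (P.det • (Pᵀ * P)⁻¹).det := by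
      rw [hdetα]
      exact isUnit_iff_ne_zero.2 hP.ne'
    have h3 := congrArg (fun A => A * (P.det • (Pᵀ * P)⁻¹)⁻¹) h1
    simp only [Matrix.mul_assoc] at h3
    rw [Matrix.mul_nonsing_inv _ h2, Matrix.mul_one, Matrix.mul_one] at h3
    exact h3.symm

end Pool.H36.SF
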