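import Pool.Agent.H36.SF.Mk2

/-!
The Gram matrices of a bilinear form in the coordinates `mk2`: `A_ij = G (mk2 ε_i 0) (mk2 ε_j 0)`,
`B_ij = G (mk2 0 ε_i) (mk2 0 ε_j)`, `C_ij = G (mk2 ε_i 0) (mk2 0 ε_j)`.
-/

namespace Pool.H36.SF

open Matrix Pool.H36.ST

/-- The form of a bilinear form in the coordinates `mk2`. -/
theorem exists_blocks (G : LinearMap.BilinForm ℝ (Compl 3 1)) (hs : ∀ X Y, G X Y = G Y X)
    (hp : ∀ X, X ≠ 0 → 0 < G X X) :
    ∃ A B C : M3, A.PosDef ∧ B.PosDef ∧ ∀ x y x' y' : V3, G (mk2 x y) (mk2 x' y') =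
      x ⬝ᵥ (A *ᵥ x') + y ⬝ᵥ (B *ᵥ y') + x ⬝ᵥ (C *ᵥ y') + x' ⬝ᵥ (C *ᵥ y) := by
  obtain ⟨e, he⟩ : ∃ e : Fin 3 → Compl 3 1, ∀ i, e i = mk2 (Pi.single i 1) 0 := ⟨_, fun _ => rfl⟩
  obtain ⟨f, hf⟩ : ∃ f : Fin 3 → Compl 3 1, ∀ i, f i = mk2 0 (Pi.single i 1) := ⟨_, fun _ => rfl⟩
  have h0 : mk2 0 0 = 0 := by
    have := mk2_smul 0 (0 : V3) 0
    simpa using this
  have hx : ∀ (c : ℝ) (i : Fin 3), mk2 (Pi.single i c) 0 = c • e i := by
    intro c i
    rw [he, ← mk2_smul]
    congr 1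
    · ext j
      by_cases hj : j = i
      · subst hj
        simp
      · simp [Pi.single_eq_of_ne hj]
    · simp
  have hy : ∀ (c : ℝ) (i : Fin 3), mk2 0 (Pi.single i c) = c • f i := by
    intro c i
    rw [hf, ← mk2_smul]
    congr 1
    · simp
    · ext j
      by_cases hj : j = i
      · subst hj
        simp
      · simp [Pi.single_eq_of_ne hj]
  have hexp : ∀ x y : V3, mk2 x y = (x 0 • e 0 + x 1 • e 1 + x 2 • e 2)
      + (y 0 • f 0 + y 1 • f 1 + y 2 • f 2) := by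
    intro x y
    rw [← hx, ← hx, ← hx, ← hy, ← hy, ← hy, ← mk2_add, ← mk2_add, ← mk2_add, ← mk2_add, ← mk2_add]
    congr 1
    · ext i
      fin_cases i <;> simp
    · ext i
      fin_cases i <;> simp
  have hform : ∀ x y x' y' : V3, G (mk2 x y) (mk2 x' y') =
      x ⬝ᵥ ((Matrix.of fun i j => G (e i) (e j)) *ᵥ x')
        + y ⬝ᵥ ((Matrix.of fun i j => G (f i) (f j)) *ᵥ y')
        + x ⬝ᵥ ((Matrix.of fun i j => G (e i) (f j)) *ᵥ y')
        + x' ⬝ᵥ ((Matrix.of fun i j => G (e i) (f j)) *ᵥ y) := by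
    intro x y x' y'
    rw [hexp x y, hexp x' y']
    simp only [map_add, map_smul, LinearMap.add_apply, LinearMap.smul_apply, smul_eq_mul,
      dotProduct, Matrix.mulVec, Fin.sum_univ_three, Matrix.of_apply, hs (f _) (e _)]
    ring
  refine ⟨_, _, _, ?_, ?_, hform⟩
  · refine Matrix.PosDef.of_dotProduct_mulVec_pos ?_ ?_
    · ext i j
      simp [Matrix.conjTranspose_apply, hs (e j) (e i)]
    · intro x hx0
      have h1 := hform x 0 x 0
      simp only [zero_dotProduct, Matrix.mulVec_zero, dotProduct_zero, add_zero] at h1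
      have h2 : mk2 x 0 ≠ 0 := by
        intro h
        rw [← h0] at h
        exact hx0 (mk2_inj h).1
      have h3 := hp _ h2
      rw [h1] at h3
      simpa using h3
  · refine Matrix.PosDef.of_dotProduct_mulVec_pos ?_ ?_
    · ext i j
      simp [Matrix.conjTranspose_apply, hs (f j) (f i)]
    · intro x hx0
      have h1 := hform 0 x 0 x
      simp only [zero_dotProduct, Matrix.mulVec_zero, dotProduct_zero, add_zero, zero_add] at h1
      have h2 : mk2 0 x ≠ 0 := by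
        intro h
        rw [← h0] at h
        exact hx0 (mk2_inj h).2
      have h3 := hp _ h2
      rw [h1] at h3
      simpa using h3

end Pool.H36.SF
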