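import Pool.Agent.H36.SF.Diag2

/-!
Classification in a frame.
-/

namespace Pool.H36.SF

open Matrix Pool.H36.ST

variable {α β : M3} {s t : V3}

theorem diagonal_const (r : ℝ) {a : V3} {q : ℝ} (h : ∀ i, a i = q) :
    r • diagonal a = (r * q) • (1 : M3) := by
  ext i j
  by_cases hij : i = j
  · subst hij
    simp [h]
  · simp [hij]

theorem classify (h : Dat α β s t) (hsg : (∀ i, 0 ≤ t i) ∨ (∀ i, t i ≤ 0)) {c : ℝ}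
    (hc : ∀ X, Rc α β s t X X = c * Gt s t X X) (hc' : ∀ X, Rc β α s t X X = c * Gt s t X X) :
    ∃ r : ℝ, 0 < r ∧
      (((∀ i, s i = 1 ∧ t i = 0) ∧ α = r • 1 ∧ β = r • 1) ∨
      ((∀ i, s i = 4 / 3 ∧ t i = 1 / 2) ∧ α = r • 1 ∧ β = r • 1) ∨
      ((∀ i, s i = 2 ∧ 0 < t i ∧ 2 * t i ^ 2 = 1) ∧
        ((α = r • 1 ∧ β = (r * Real.sqrt 2) • 1) ∨ (α = (r * Real.sqrt 2) • 1 ∧ β = r • 1)))) := by
  obtain ⟨r, a, b, hr, hα, hβ, hd⟩ := exists_diag h hc hc'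
  rcases solve_diag hd hsg with ⟨h1, h2, h3⟩ | ⟨h1, q, hq, h2, h3⟩ | ⟨h1, ⟨h2, h3⟩ | ⟨h2, h3⟩⟩
  · refine ⟨r, hr, Or.inl ⟨h1, ?_, ?_⟩⟩
    · rw [hα, diagonal_const r h2, mul_one]
    · rw [hβ, diagonal_const r h3, mul_one]
  · refine ⟨r * q, mul_pos hr hq, Or.inr (Or.inl ⟨h1, ?_, ?_⟩)⟩
    · rw [hα, diagonal_const r h2]
    · rw [hβ, diagonal_const r h3]
  · refine ⟨r, hr, Or.inr (Or.inr ⟨h1, Or.inl ⟨?_, ?_⟩⟩)⟩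
    · rw [hα, diagonal_const r h2, mul_one]
    · rw [hβ, diagonal_const r h3]
  · refine ⟨r, hr, Or.inr (Or.inr ⟨h1, Or.inr ⟨?_, ?_⟩⟩)⟩
    · rw [hα, diagonal_const r h2]
    · rw [hβ, diagonal_const r h3, mul_one]

end Pool.H36.SF
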