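import Pool.Agent.H36.SF.Mk2

/-!
Conjugation by orthogonal `4 × 4` matrices.

`bracket_val`: `bracket X Y = proj (XY - YX)` and the lower right `1 × 1` block of the skew matrix
`XY - YX` is zero. For the formulas in coordinates see `mk`, `hat` in H36/ST/Coord and `jensen_mk` in
H36/ST/Main (may be imported or copied): `jensenValue y (mk u z) (mk v w) = y (u ⬝ v) + ∑ z_i ⬝ w_i`;
`pf (mk u z) (mk v w) = - (u ⬝ w 0 + z 0 ⬝ v)`.
-/

namespace Pool.H36.SF

open Matrix Pool.H36.ST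

variable {h : Matrix (Idx 3 1) (Idx 3 1) ℝ}

theorem conj4_one (X : Compl 3 1) : conj4 1 X = X := by
  apply Subtype.ext
  simp [conj4]

theorem conj4_mul (h₁ h₂ : Matrix (Idx 3 1) (Idx 3 1) ℝ) (X : Compl 3 1) :
    conj4 (h₁ * h₂) X = conj4 h₁ (conj4 h₂ X) := by
  apply Subtype.ext
  simp [conj4, Matrix.transpose_mul, Matrix.mul_assoc]

theorem conj4_add (X Y : Compl 3 1) : conj4 h (X + Y) = conj4 h X + conj4 h Y := by
  apply Subtype.ext
  simp [conj4, Matrix.mul_add, Matrix.add_mul]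

theorem conj4_smul (c : ℝ) (X : Compl 3 1) : conj4 h (c • X) = c • conj4 h X := by
  apply Subtype.ext
  simp [conj4]

/-- For `m = 1` the projection does nothing. -/
theorem bracket_val (X Y : Compl 3 1) : (bracket X Y).1 = X.1 * Y.1 - Y.1 * X.1 := by
  have hs : (X.1 * Y.1 - Y.1 * X.1)ᵀ = -(X.1 * Y.1 - Y.1 * X.1) := by
    rw [Matrix.transpose_sub, Matrix.transpose_mul, Matrix.transpose_mul, X.2.1, Y.2.1]
    simp
  ext a b
  rcases a with a | a <;> rcases b with b | b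
  · rfl
  · rfl
  · rfl
  · have hab : a = b := Subsingleton.elim _ _
    subst hab
    have h2 := congrFun (congrFun hs (Sum.inr a)) (Sum.inr a)
    simp only [Matrix.transpose_apply, Matrix.neg_apply] at h2
    have h3 : (bracket X Y).1 (Sum.inr a) (Sum.inr a) = 0 := rfl
    rw [h3]
    linarith

theorem bracket_conj4 (hh : h * hᵀ = 1) (X Y : Compl 3 1) :
    bracket (conj4 h X) (conj4 h Y) = conj4 h (bracket X Y) := by
  have hh' : hᵀ * h = 1 := mul_eq_one_comm.mp hh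
  have key : ∀ A B : Matrix (Idx 3 1) (Idx 3 1) ℝ, (h * A * hᵀ) * (h * B * hᵀ) = h * (A * B) * hᵀ := by
    intro A B
    calc (h * A * hᵀ) * (h * B * hᵀ) = h * A * (hᵀ * h) * B * hᵀ := by
          simp only [Matrix.mul_assoc]
      _ = h * (A * B) * hᵀ := by
          rw [hh', Matrix.mul_one]
          simp only [Matrix.mul_assoc]
  apply Subtype.ext
  rw [bracket_val]
  show (h * X.1 * hᵀ) * (h * Y.1 * hᵀ) - (h * Y.1 * hᵀ) * (h * X.1 * hᵀ) =
    h * (bracket X Y).1 * hᵀ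
  rw [bracket_val, key, key, Matrix.mul_sub, Matrix.sub_mul]

theorem killing_conj4 (hh : h * hᵀ = 1) (X : Compl 3 1) : killing (conj4 h X) = killing X := by
  have hh' : hᵀ * h = 1 := mul_eq_one_comm.mp hh
  unfold killing
  congr 1
  show ((h * X.1 * hᵀ) * (h * X.1 * hᵀ)).trace = (X.1 * X.1).trace
  have key : (h * X.1 * hᵀ) * (h * X.1 * hᵀ) = h * (X.1 * X.1 * hᵀ) := by
    calc (h * X.1 * hᵀ) * (h * X.1 * hᵀ) = h * X.1 * (hᵀ * h) * X.1 * hᵀ := by
          simp only [Matrix.mul_assoc]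
      _ = h * (X.1 * X.1 * hᵀ) := by
          rw [hh', Matrix.mul_one]
          simp only [Matrix.mul_assoc]
  rw [key, Matrix.trace_mul_comm, Matrix.mul_assoc, hh', Matrix.mul_one]

/-- A reflection exchanges the two ideals (`h = diag(1, 1, 1, -1)`). -/
theorem exists_swap : ∃ h : Matrix (Idx 3 1) (Idx 3 1) ℝ, h * hᵀ = 1 ∧
    ∀ x y, conj4 h (mk2 x y) = mk2 y x := by
  refine ⟨Matrix.fromBlocks 1 0 0 (-1), ?_, ?_⟩
  · rw [Matrix.fromBlocks_transpose, Matrix.fromBlocks_multiply]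
    simp
  · intro x y
    apply Subtype.ext
    show Matrix.fromBlocks 1 0 0 (-1) * (mk2 x y).1 * (Matrix.fromBlocks 1 0 0 (-1))ᵀ = (mk2 y x).1
    unfold mk2 mk
    simp only
    rw [Matrix.fromBlocks_transpose, Matrix.fromBlocks_multiply, Matrix.fromBlocks_multiply]
    congr 1
    · simp [add_comm]
    · ext a i
      simp
      ring
    · ext i a
      simp
      ring
    · simp

theorem jensen_mk' (y : ℝ) (u v : Fin 3 → ℝ) (z w : Fin 1 → Fin 3 → ℝ) :
    jensenValue y (mk u z) (mk v w) = y * (u ⬝ᵥ v) + ∑ i, z i ⬝ᵥ w i := by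
  rw [jensenValue]
  have h1 : ∑ a : Fin 3, ∑ i : Fin 1, (mk u z).1 (Sum.inl a) (Sum.inr i)
      * (mk v w).1 (Sum.inl a) (Sum.inr i) = ∑ i, z i ⬝ᵥ w i := by
    rw [Finset.sum_comm]
    rfl
  rw [h1]
  congr 2
  simp [mk, hat, Fin.sum_univ_three, dotProduct]
  ring

/-- `J_1` in the coordinates `mk2`. -/
theorem jensen1_mk2 (x y x' y' : V3) :
    jensenValue 1 (mk2 x y) (mk2 x' y') = 1 / 2 * (x ⬝ᵥ x' + y ⬝ᵥ y') := by
  unfold mk2
  rw [jensen_mk']
  simp [dotProduct, Fin.sum_univ_three]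
  ring

/-- `J_{1/3}` in the coordinates `mk2`. -/
theorem jensen3_mk2 (x y x' y' : V3) :
    jensenValue (1 / 3) (mk2 x y) (mk2 x' y') =
      1 / 3 * (x ⬝ᵥ x' + y ⬝ᵥ y') - 1 / 6 * (x ⬝ᵥ y' + x' ⬝ᵥ y) := by
  unfold mk2
  rw [jensen_mk']
  simp [dotProduct, Fin.sum_univ_three]
  ring

/-- The third inner product in the coordinates `mk2`. -/
theorem third_mk2 (x y x' y' : V3) :
    third (mk2 x y) (mk2 x' y') = x ⬝ᵥ x' + 2 * (y ⬝ᵥ y') - (x ⬝ᵥ y' + x' ⬝ᵥ y) := by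
  unfold third
  rw [jensen1_mk2]
  simp [pf, up, last, mk2, mk, hat, dotProduct, Fin.sum_univ_three]
  ring

end Pool.H36.SF
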