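import Pool.Agent.H36.SF.Frame

/-!
The Ricci curvature in a frame.

`ricci_frame`: unfold `ricci`, `Rc`, rewrite with `h.br`, `h.gg`, `h.kf`.
`bas_ortho`: cases (`s_i (1 - t_i²) = 1`, `√s_i² = s_i`).
`exists_basis`: as `exists_obasis` in H36/ST/OBasis: linear independence from `bas_ortho` and `h.gg`,
spanning from `(x, y) = ∑ x_i h_i + ∑ √s_i (y_i - t_i x_i) v_i`, `h.add`, `h.smul`, `h.surj`.
-/

namespace Pool.H36.SF

open Matrix Pool.H36.ST

variable {G : LinearMap.BilinForm ℝ (Compl 3 1)} {ι : V3 × V3 → Compl 3 1} {α β : M3} {s t : V3}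

theorem ricci_frame (h : IsFrame G ι α β s t) (X : V3 × V3) :
    ricci G (fun a => ι (bas s t a)) (ι X) = Rc α β s t X X := by
  unfold ricci Rc
  simp only [h.br, h.gg, h.kf, sq]

/-- `bas` is `Gt`-orthonormal. -/
theorem bas_ortho (hst : ∀ i, s i * (1 - t i ^ 2) = 1) (hs : ∀ i, 1 ≤ s i) (a b : Fin 3 ⊕ Fin 3) :
    Gt s t (bas s t a) (bas s t b) = if a = b then 1 else 0 := by
  have hq : ∀ i, s i * ((Real.sqrt (s i))⁻¹ * (Real.sqrt (s i))⁻¹) = 1 := by
    intro i
    have h0 : 0 < s i := lt_of_lt_of_le one_pos (hs i)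
    rw [← mul_inv, Real.mul_self_sqrt h0.le]
    exact mul_inv_cancel₀ h0.ne'
  have h0 := hst 0
  have h1 := hst 1
  have h2 := hst 2
  have q0 := hq 0
  have q1 := hq 1
  have q2 := hq 2
  rcases a with i | i <;> rcases b with j | j
  · fin_cases i <;> fin_cases j <;> simp [bas, Gt, Fin.sum_univ_three, Pi.single_apply]
    · linear_combination h0
    · linear_combination h1
    · linear_combination h2
  · fin_cases i <;> fin_cases j <;> simp [bas, Gt, Fin.sum_univ_three, Pi.single_apply]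
  · fin_cases i <;> fin_cases j <;> simp [bas, Gt, Fin.sum_univ_three, Pi.single_apply]
    · exact Or.inr (by ring)
    · exact Or.inr (by ring)
    · exact Or.inr (by ring)
  · fin_cases i <;> fin_cases j <;> simp [bas, Gt, Fin.sum_univ_three, Pi.single_apply]
    · linear_combination q0
    · linear_combination q1
    · linear_combination q2

theorem exists_basis (h : IsFrame G ι α β s t) (hst : ∀ i, s i * (1 - t i ^ 2) = 1)
    (hs : ∀ i, 1 ≤ s i) :
    ∃ f : Module.Basis (Fin 3 ⊕ Fin 3) ℝ (Compl 3 1), (∀ a, f a = ι (bas s t a)) ∧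
      ∀ a b, G (f a) (f b) = if a = b then 1 else 0 := by
  have ho : ∀ a b, G (ι (bas s t a)) (ι (bas s t b)) = if a = b then 1 else 0 := by
    intro a b
    rw [h.gg, bas_ortho hst hs]
  have hli : LinearIndependent ℝ (fun a => ι (bas s t a)) := by
    rw [Fintype.linearIndependent_iff]
    intro c hc j
    have h1 : G (∑ i, c i • ι (bas s t i)) (ι (bas s t j)) = 0 := by
      rw [hc]
      simp
    rw [map_sum, LinearMap.sum_apply] at h1
    simp only [map_smul, LinearMap.smul_apply, ho, smul_eq_mul, mul_ite, mul_one, mul_zero,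
      Finset.sum_ite_eq', Finset.mem_univ, if_true] at h1
    exact h1
  let L : (V3 × V3) →ₗ[ℝ] Compl 3 1 :=
    { toFun := ι
      map_add' := h.add
      map_smul' := h.smul }
  have hL : ∀ X, L X = ι X := fun X => rfl
  have hsp : ⊤ ≤ Submodule.span ℝ (Set.range (fun a => ι (bas s t a))) := by
    intro Z _
    obtain ⟨X, rfl⟩ := h.surj Z
    have hX : X = ∑ i, X.1 i • bas s t (Sum.inl i) +
        ∑ i, (Real.sqrt (s i) * (X.2 i - t i * X.1 i)) • bas s t (Sum.inr i) := by
      have hr : ∀ i, Real.sqrt (s i) ≠ 0 := fun i =>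
        (Real.sqrt_pos.2 (lt_of_lt_of_le one_pos (hs i))).ne'
      have hr0 := hr 0
      have hr1 := hr 1
      have hr2 := hr 2
      refine Prod.ext ?_ ?_
      · funext j
        fin_cases j <;> simp [bas, Fin.sum_univ_three, Pi.single_apply]
      · funext j
        fin_cases j <;> simp [bas, Fin.sum_univ_three, Pi.single_apply] <;> field_simp <;> ring
    rw [← hL, hX, map_add, map_sum, map_sum]
    refine Submodule.add_mem _ (Submodule.sum_mem _ fun i _ => ?_)
      (Submodule.sum_mem _ fun i _ => ?_)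
    · rw [map_smul]
      exact Submodule.smul_mem _ _ (Submodule.subset_span ⟨Sum.inl i, rfl⟩)
    · rw [map_smul]
      exact Submodule.smul_mem _ _ (Submodule.subset_span ⟨Sum.inr i, rfl⟩)
  refine ⟨Module.Basis.mk hli hsp, fun a => by simp, fun a b => ?_⟩
  simp only [Module.Basis.mk_apply]
  exact ho a b

theorem einstein_frame (h : IsFrame G ι α β s t) (hsym : ∀ X Y, G X Y = G Y X)
    (hst : ∀ i, s i * (1 - t i ^ 2) = 1) (hs : ∀ i, 1 ≤ s i) {c : ℝ} {d : ℕ}
    (e : Module.Basis (Fin d) ℝ (Compl 3 1)) (he : ∀ i j, G (e i) (e j) = if i = j then 1 else 0)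
    (hr : ∀ X, ricci G e X = c * G X X) (X : V3 × V3) :
    Rc α β s t X X = c * Gt s t X X := by
  obtain ⟨f, hf, ho⟩ := exists_basis h hst hs
  have hfe : (fun a => f a) = fun a => ι (bas s t a) := funext hf
  rw [← ricci_frame h X, ← hfe, ← ricci_indep G hsym e f he ho, hr, h.gg]

theorem isEinstein_of_frame (h : IsFrame G ι α β s t)
    (hst : ∀ i, s i * (1 - t i ^ 2) = 1) (hs : ∀ i, 1 ≤ s i) {c : ℝ}
    (hc : ∀ X, Rc α β s t X X = c * Gt s t X X) : IsEinstein G := by
  obtain ⟨f, hf, ho⟩ := exists_basis h hst hs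
  refine ⟨c, 6, f.reindex finSumFinEquiv, ?_, ?_⟩
  · intro i j
    rw [Module.Basis.reindex_apply, Module.Basis.reindex_apply, ho]
    simp only [EmbeddingLike.apply_eq_iff_eq]
  · intro X
    obtain ⟨Y, rfl⟩ := h.surj X
    rw [h.gg, ← hc, ← ricci_frame h Y]
    have hfe : ∀ i : Fin 6, f.reindex finSumFinEquiv i = ι (bas s t (finSumFinEquiv.symm i)) := by
      intro i
      rw [Module.Basis.reindex_apply, hf]
    unfold ricci
    simp only [hfe]
    rw [finSumFinEquiv.symm.sum_comp (fun a => G (bracket (ι Y) (ι (bas s t a)))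
      (bracket (ι Y) (ι (bas s t a))))]
    have h2 : ∑ i : Fin 6, ∑ j : Fin 6, (G (bracket (ι (bas s t (finSumFinEquiv.symm i)))
        (ι (bas s t (finSumFinEquiv.symm j)))) (ι Y)) ^ 2 =
        ∑ a, ∑ b, (G (bracket (ι (bas s t a)) (ι (bas s t b))) (ι Y)) ^ 2 := by
      rw [finSumFinEquiv.symm.sum_comp (fun a => ∑ j : Fin 6, (G (bracket (ι (bas s t a))
        (ι (bas s t (finSumFinEquiv.symm j)))) (ι Y)) ^ 2)]
      exact Finset.sum_congr rfl (fun a _ => finSumFinEquiv.symm.sum_comp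
        (fun b => (G (bracket (ι (bas s t a)) (ι (bas s t b))) (ι Y)) ^ 2))
    rw [h2]

end Pool.H36.SF
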