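import Pool.Agent.H36.SF.RicScalar
import Pool.Agent.H36.SF.RicFrame
import Pool.Agent.H36.SF.Conj
import Pool.Agent.H36.ST.Bridge

/-!
Converse: the three inner products are Einstein.

For `G = x J ∘ Ad(h)` use the frame `ι X = conj4 hᵀ (iota P R X)`, `P = ρ₁ • 1`, `R = ρ₂ • 1`,
`α = ρ₁ • 1`, `β = ρ₂ • 1`:
`J_1`: `ρ₁ = ρ₂ = √(2/x)`, `s = 1`, `t = 0`; `J_{1/3}`: `ρ₁ = ρ₂ = 2/√x`, `s = 4/3`, `t = 1/2`;
`third`: `ρ₁ = √2 r`, `ρ₂ = r`, `r = 1/√x`, `s = 2`, `t = √2/2`.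
-/

namespace Pool.H36.SF

open Matrix Pool.H36.ST

private theorem cv_transpose {h : Matrix (Idx 3 1) (Idx 3 1) ℝ} (hh : h * hᵀ = 1) :
    hᵀ * h = 1 := mul_eq_one_comm.1 hh

private theorem cv_back {h : Matrix (Idx 3 1) (Idx 3 1) ℝ} (hh : h * hᵀ = 1) (X : Compl 3 1) :
    conj4 hᵀ (conj4 h X) = X := by
  rw [← conj4_mul, cv_transpose hh, conj4_one]

private theorem cv_forth {h : Matrix (Idx 3 1) (Idx 3 1) ℝ} (hh : h * hᵀ = 1) (X : Compl 3 1) :
    conj4 h (conj4 hᵀ X) = X := by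
  rw [← conj4_mul, hh, conj4_one]

/-- The frame of a pulled back inner product. -/
theorem isFrame_pull {G : LinearMap.BilinForm ℝ (Compl 3 1)} {J : Compl 3 1 → Compl 3 1 → ℝ}
    {x : ℝ} {h : Matrix (Idx 3 1) (Idx 3 1) ℝ} (hh : h * hᵀ = 1)
    (hG : ∀ X Y, G X Y = x * J (conj4 h X) (conj4 h Y)) {ρ₁ ρ₂ : ℝ} (h1 : 0 < ρ₁) (h2 : 0 < ρ₂)
    {s t : ℝ} (hJ : ∀ X Y : V3 × V3, x * J (mk2 (ρ₁ • X.1) (ρ₂ • X.2)) (mk2 (ρ₁ • Y.1) (ρ₂ • Y.2)) =
      Gt (fun _ => s) (fun _ => t) X Y) :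
    IsFrame G (fun X => conj4 hᵀ (mk2 (ρ₁ • X.1) (ρ₂ • X.2))) (ρ₁ • 1) (ρ₂ • 1)
      (fun _ => s) (fun _ => t) := by
  have hh' : hᵀ * hᵀᵀ = 1 := by
    rw [Matrix.transpose_transpose]
    exact cv_transpose hh
  refine ⟨?_, ?_, ?_, ?_, ?_, ?_⟩
  · intro X Y
    rw [← conj4_add, ← mk2_add, Prod.fst_add, Prod.snd_add, smul_add, smul_add]
  · intro c X
    rw [← conj4_smul, ← mk2_smul, Prod.smul_fst, Prod.smul_snd, smul_comm ρ₁ c, smul_comm ρ₂ c]
  · intro Z
    obtain ⟨x, y, hxy⟩ := exists_mk2 (conj4 h Z)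
    refine ⟨(ρ₁⁻¹ • x, ρ₂⁻¹ • y), ?_⟩
    show Z = conj4 hᵀ (mk2 (ρ₁ • ρ₁⁻¹ • x) (ρ₂ • ρ₂⁻¹ • y))
    rw [smul_smul, smul_smul, mul_inv_cancel₀ h1.ne', mul_inv_cancel₀ h2.ne', one_smul, one_smul,
      ← hxy, cv_back hh]
  · intro X Y
    show bracket (conj4 hᵀ _) (conj4 hᵀ _) = conj4 hᵀ (mk2 (ρ₁ • (Br _ _ X Y).1) (ρ₂ • (Br _ _ X Y).2))
    rw [bracket_conj4 hh', bracket_mk2]
    congr 2
    · simp only [Br, Matrix.smul_mulVec, Matrix.one_mulVec, map_smul, LinearMap.smul_apply]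
    · simp only [Br, Matrix.smul_mulVec, Matrix.one_mulVec, map_smul, LinearMap.smul_apply]
  · intro X
    show killing (conj4 hᵀ _) = _
    rw [killing_conj4 hh', killing_mk2, Kf, Matrix.adjugate_smul, Matrix.adjugate_smul,
      Matrix.adjugate_one]
    simp only [Fintype.card_fin, Matrix.smul_mulVec, Matrix.one_mulVec, smul_dotProduct,
      dotProduct_smul, smul_eq_mul]
    ring
  · intro X Y
    show G (conj4 hᵀ _) (conj4 hᵀ _) = _
    rw [hG, cv_forth hh, cv_forth hh, hJ]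

theorem einstein_pull {G : LinearMap.BilinForm ℝ (Compl 3 1)} {x : ℝ}
    {h : Matrix (Idx 3 1) (Idx 3 1) ℝ} (hx : 0 < x) (hh : h * hᵀ = 1)
    (hp : IsPull x h (jensenValue 1) (fun X Y => G X Y) ∨
        IsPull x h (jensenValue (1 / 3)) (fun X Y => G X Y) ∨
        IsPull x h third (fun X Y => G X Y)) : IsEinstein G := by
  have hx0 : x ≠ 0 := hx.ne'
  rcases hp with hp | hp | hp
  · have hρ : 0 < Real.sqrt (2 / x) := Real.sqrt_pos.2 (by positivity)
    have hρ2 : Real.sqrt (2 / x) * Real.sqrt (2 / x) = 2 / x :=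
      Real.mul_self_sqrt (by positivity)
    have hF := isFrame_pull (G := G) hh hp hρ hρ (s := 1) (t := 0) (by
      intro X Y
      obtain ⟨x1, y1⟩ := X
      obtain ⟨x2, y2⟩ := Y
      rw [jensen1_mk2, Gt_scalar]
      simp only [smul_dotProduct, dotProduct_smul, smul_eq_mul]
      rw [← mul_assoc (Real.sqrt (2 / x)), ← mul_assoc (Real.sqrt (2 / x)), hρ2]
      field_simp
      ring)
    exact isEinstein_of_frame hF (fun i => by norm_num) (fun i => le_rfl) ein_one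
  · have hρ : 0 < Real.sqrt (4 / x) := Real.sqrt_pos.2 (by positivity)
    have hρ2 : Real.sqrt (4 / x) * Real.sqrt (4 / x) = 4 / x :=
      Real.mul_self_sqrt (by positivity)
    have hF := isFrame_pull (G := G) hh hp hρ hρ (s := 4 / 3) (t := 1 / 2) (by
      intro X Y
      obtain ⟨x1, y1⟩ := X
      obtain ⟨x2, y2⟩ := Y
      rw [jensen3_mk2, Gt_scalar]
      simp only [smul_dotProduct, dotProduct_smul, smul_eq_mul]
      have e1 : ∀ z : ℝ, Real.sqrt (4 / x) * (Real.sqrt (4 / x) * z) = 4 / x * z := fun z => by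
        rw [← mul_assoc, hρ2]
      rw [e1, e1, e1, e1]
      field_simp
      ring)
    exact isEinstein_of_frame hF (fun i => by norm_num) (fun i => by norm_num) ein_half
  · have hr : 0 < Real.sqrt (1 / x) := Real.sqrt_pos.2 (by positivity)
    have hr2 : Real.sqrt (1 / x) * Real.sqrt (1 / x) = 1 / x :=
      Real.mul_self_sqrt (by positivity)
    have h2 : 0 < Real.sqrt 2 := Real.sqrt_pos.2 (by norm_num)
    have h22 : Real.sqrt 2 * Real.sqrt 2 = 2 := Real.mul_self_sqrt (by norm_num)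
    have ht2 : 2 * (Real.sqrt 2 / 2) ^ 2 = 1 := by
      rw [div_pow, sq, h22]
      norm_num
    have hF := isFrame_pull (G := G) hh hp (mul_pos hr h2) hr (s := 2) (t := Real.sqrt 2 / 2) (by
      intro X Y
      obtain ⟨x1, y1⟩ := X
      obtain ⟨x2, y2⟩ := Y
      rw [third_mk2, Gt_scalar]
      simp only [smul_dotProduct, dotProduct_smul, smul_eq_mul]
      have e1 : ∀ z : ℝ, Real.sqrt (1 / x) * (Real.sqrt (1 / x) * z) = 1 / x * z := fun z => by
        rw [← mul_assoc, hr2]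
      have e2 : Real.sqrt (1 / x) * Real.sqrt 2 * (Real.sqrt (1 / x) * Real.sqrt 2 * (x1 ⬝ᵥ x2)) =
          1 / x * (2 * (x1 ⬝ᵥ x2)) := by
        calc _ = (Real.sqrt (1 / x) * Real.sqrt (1 / x)) *
              ((Real.sqrt 2 * Real.sqrt 2) * (x1 ⬝ᵥ x2)) := by ring
          _ = _ := by rw [hr2, h22]
      have e4 : ∀ z : ℝ, Real.sqrt (1 / x) * (Real.sqrt (1 / x) * Real.sqrt 2 * z) =
          1 / x * (Real.sqrt 2 * z) := by
        intro z
        calc _ = (Real.sqrt (1 / x) * Real.sqrt (1 / x)) * (Real.sqrt 2 * z) := by ring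
          _ = _ := by rw [hr2]
      simp only [e1, e2, e4]
      field_simp)
    refine isEinstein_of_frame hF (fun i => ?_) (fun i => by norm_num)
      (ein_third (by positivity) ht2)
    have := ht2
    linarith

private theorem cv_inner {g J : Compl 3 1 → Compl 3 1 → ℝ} {x A B C : ℝ}
    {h : Matrix (Idx 3 1) (Idx 3 1) ℝ} (hx : 0 < x) (hh : h * hᵀ = 1)
    (hp : IsPull x h J g)
    (hJ : ∀ u v u' v' : V3, J (mk2 u v) (mk2 u' v') =
      A * (u ⬝ᵥ u') + B * (v ⬝ᵥ v') - C * (u ⬝ᵥ v' + u' ⬝ᵥ v))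
    (hABC : ∀ a b : ℝ, 1 / 6 * (a ^ 2 + b ^ 2) ≤ A * a ^ 2 + B * b ^ 2 - 2 * C * (a * b)) :
    IsInner g := by
  refine ⟨?_, ?_, ?_, ?_⟩
  · intro X Y
    obtain ⟨u, v, h1⟩ := exists_mk2 (conj4 h X)
    obtain ⟨u', v', h2⟩ := exists_mk2 (conj4 h Y)
    rw [hp, hp, h1, h2, hJ, hJ, dotProduct_comm u' u, dotProduct_comm v' v]
    ring
  · intro X Y Z
    obtain ⟨u, v, h1⟩ := exists_mk2 (conj4 h X)
    obtain ⟨u', v', h2⟩ := exists_mk2 (conj4 h Y)
    obtain ⟨u3, v3, h3⟩ := exists_mk2 (conj4 h Z)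
    rw [hp, hp, hp, conj4_add, h1, h2, h3, ← mk2_add, hJ, hJ, hJ]
    simp only [add_dotProduct, dotProduct_add]
    ring
  · intro c X Y
    obtain ⟨u, v, h1⟩ := exists_mk2 (conj4 h X)
    obtain ⟨u', v', h2⟩ := exists_mk2 (conj4 h Y)
    rw [hp, hp, conj4_smul, h1, h2, ← mk2_smul, hJ, hJ]
    simp only [smul_dotProduct, dotProduct_smul, smul_eq_mul]
    ring
  · intro X hX
    obtain ⟨u, v, h1⟩ := exists_mk2 (conj4 h X)
    rw [hp, h1, hJ]
    apply mul_pos hx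
    have hsum : A * (u ⬝ᵥ u) + B * (v ⬝ᵥ v) - C * (u ⬝ᵥ v + u ⬝ᵥ v) =
        ∑ i, (A * u i ^ 2 + B * v i ^ 2 - 2 * C * (u i * v i)) := by
      simp only [dotProduct, Fin.sum_univ_three]
      ring
    rw [hsum]
    have hle : ∑ i, (1 / 6 * (u i ^ 2 + v i ^ 2)) ≤
        ∑ i, (A * u i ^ 2 + B * v i ^ 2 - 2 * C * (u i * v i)) :=
      Finset.sum_le_sum fun i _ => hABC _ _
    refine lt_of_lt_of_le ?_ hle
    by_contra hcon
    push Not at hcon
    have hz : ∀ i, 1 / 6 * (u i ^ 2 + v i ^ 2) = 0 := by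
      intro i
      have h2 : ∀ j ∈ (Finset.univ : Finset (Fin 3)), 0 ≤ 1 / 6 * (u j ^ 2 + v j ^ 2) :=
        fun j _ => by positivity
      have h3 := Finset.single_le_sum h2 (Finset.mem_univ i)
      exact le_antisymm (h3.trans hcon) (h2 i (Finset.mem_univ i))
    have hu : u = 0 := by
      ext i
      have := hz i
      have h4 : u i ^ 2 = 0 := by nlinarith [sq_nonneg (u i), sq_nonneg (v i)]
      simpa using h4
    have hv : v = 0 := by
      ext i
      have := hz i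
      have h4 : v i ^ 2 = 0 := by nlinarith [sq_nonneg (u i), sq_nonneg (v i)]
      simpa using h4
    apply hX
    have h5 : conj4 h X = 0 := by
      rw [h1, hu, hv]
      have := mk2_smul 0 (0 : V3) 0
      rw [zero_smul, zero_smul] at this
      exact this
    rw [← cv_back hh X, h5]
    have := conj4_smul (h := hᵀ) 0 (0 : Compl 3 1)
    rw [zero_smul, zero_smul] at this
    exact this

/-- The three inner products are inner products. -/
theorem inner_pull {g : Compl 3 1 → Compl 3 1 → ℝ} {x : ℝ}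
    {h : Matrix (Idx 3 1) (Idx 3 1) ℝ} (hx : 0 < x) (hh : h * hᵀ = 1)
    (hp : IsPull x h (jensenValue 1) g ∨ IsPull x h (jensenValue (1 / 3)) g ∨
        IsPull x h third g) : IsInner g := by
  rcases hp with hp | hp | hp
  · refine cv_inner (A := 1 / 2) (B := 1 / 2) (C := 0) hx hh hp ?_ ?_
    · intro u v u' v'
      rw [jensen1_mk2]
      ring
    · intro a b
      nlinarith [sq_nonneg a, sq_nonneg b]
  · refine cv_inner (A := 1 / 3) (B := 1 / 3) (C := 1 / 6) hx hh hp ?_ ?_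
    · intro u v u' v'
      rw [jensen3_mk2]
      ring
    · intro a b
      nlinarith [sq_nonneg (a - b)]
  · refine cv_inner (A := 1) (B := 2) (C := 1) hx hh hp ?_ ?_
    · intro u v u' v'
      rw [third_mk2]
      ring
    · intro a b
      nlinarith [sq_nonneg (a - 6 / 5 * b), sq_nonneg a, sq_nonneg b]

/-- For `m = 1` the isotropy group is trivial. -/
theorem Ad_one_by_one (h : Matrix (Fin 1) (Fin 1) ℝ) (hd : h.det = 1) (X : Compl 3 1) :
    Ad h X = X := by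
  have h1 : h = 1 := by
    ext i j
    have hi : i = 0 := Subsingleton.elim _ _
    have hj : j = 0 := Subsingleton.elim _ _
    subst hi hj
    rw [Matrix.det_fin_one] at hd
    rw [hd, Matrix.one_apply_eq]
  subst h1
  apply Subtype.ext
  show Matrix.fromBlocks 1 0 0 1 * X.1 * (Matrix.fromBlocks 1 0 0 1)ᵀ = X.1
  rw [Matrix.fromBlocks_one, Matrix.transpose_one, Matrix.one_mul, Matrix.mul_one]

end Pool.H36.SF
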