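import Pool.Agent.H36.ST.Stmt

/-!
Left-invariant Einstein metrics on `SO(4) = V_3 ℝ^4`: definitions for the statement.
The definitions of `Pool.Agent.H36.ST.Stmt` are used with `k = 3`, `m = 1`; there
`Compl 3 1 = 𝔰𝔬(4)`.
-/

namespace Pool.H36.SF

open Matrix Pool.H36.ST

/-- `Ad(h) X = h X hᵀ` for a `4 × 4` matrix `h` and a skew-symmetric matrix `X`. -/
def conj4 (h : Matrix (Idx 3 1) (Idx 3 1) ℝ) (X : Compl 3 1) : Compl 3 1 :=
  ⟨h * X.1 * hᵀ, by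
    have h1 : (h * X.1 * hᵀ)ᵀ = -(h * X.1 * hᵀ) := by
      rw [Matrix.transpose_mul, Matrix.transpose_mul, Matrix.transpose_transpose, X.2.1]
      simp [Matrix.mul_assoc]
    refine ⟨h1, ?_⟩
    intro i j
    have hij : i = j := Subsingleton.elim _ _
    subst hij
    have h2 := congrFun (congrFun h1 (Sum.inr i)) (Sum.inr i)
    simp only [Matrix.transpose_apply, Matrix.neg_apply] at h2
    linarith⟩

/-- `X_ab` for `a, b ≤ 3`. -/
def up (X : Compl 3 1) (a b : Fin 3) : ℝ := X.1 (Sum.inl a) (Sum.inl b)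

/-- `X_a4` for `a ≤ 3`. -/
def last (X : Compl 3 1) (a : Fin 3) : ℝ := X.1 (Sum.inl a) (Sum.inr 0)

/-- The polarised Pfaffian: `pf X X = 2 Pf(X) = 2 (X_12 X_34 - X_13 X_24 + X_14 X_23)`. -/
def pf (X Y : Compl 3 1) : ℝ :=
  up X 0 1 * last Y 2 - up X 0 2 * last Y 1 + last X 0 * up Y 1 2
    + (up Y 0 1 * last X 2 - up Y 0 2 * last X 1 + last Y 0 * up X 1 2)

/-- The third inner product: `∑_{a<b} X_ab Y_ab + 4 ∑_{a≤3} X_a4 Y_a4 + pf X Y`. -/
noncomputable def third (X Y : Compl 3 1) : ℝ :=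
  jensenValue 1 X Y + 4 * ∑ a, last X a * last Y a + pf X Y

/-- `g(X, Y) = x J(h X hᵀ, h Y hᵀ)`: `g` is homothetic to the pullback of `J` by `Ad(h)`. -/
def IsPull (x : ℝ) (h : Matrix (Idx 3 1) (Idx 3 1) ℝ) (J : Compl 3 1 → Compl 3 1 → ℝ)
    (g : Compl 3 1 → Compl 3 1 → ℝ) : Prop :=
  ∀ X Y, g X Y = x * J (conj4 h X) (conj4 h Y)

end Pool.H36.SF
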