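import Pool.Agent.H36.ST.OBasis
import Pool.Agent.H36.SF.Stmt

/-!
Coordinates: `𝔰𝔬(4) = 𝔰𝔬(3) ⊕ 𝔰𝔬(3)`, frames, and the Ricci curvature in a frame.
-/

namespace Pool.H36.SF

open Matrix Pool.H36.ST

/-- Vectors. -/
abbrev V3 := Fin 3 → ℝ

/-- Matrices. -/
abbrev M3 := Matrix (Fin 3) (Fin 3) ℝ

/-- The element of `𝔰𝔬(4)` with components `x`, `y` in the two ideals `𝔰𝔬(3)`. -/
noncomputable def mk2 (x y : V3) : Compl 3 1 :=
  mk ((1 / 2 : ℝ) • (x + y)) (fun _ => (1 / 2 : ℝ) • (x - y))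

/-- The bracket in a frame: `[e_i, e_j] = ∑ ε_ijk α e_k`, `[f_i, f_j] = ∑ ε_ijk β f_k`. -/
def Br (α β : M3) (X Y : V3 × V3) : V3 × V3 :=
  (α *ᵥ crossProduct X.1 Y.1, β *ᵥ crossProduct X.2 Y.2)

/-- The inner product in a frame: `g(e_i, e_j) = g(f_i, f_j) = s_i δ_ij`,
`g(e_i, f_j) = - t_i s_i δ_ij`. -/
def Gt (s t : V3) (X Y : V3 × V3) : ℝ :=
  ∑ i, s i * (X.1 i * Y.1 i + X.2 i * Y.2 i - t i * (X.1 i * Y.2 i + X.2 i * Y.1 i))

/-- The Killing form in a frame. -/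
def Kf (α β : M3) (X Y : V3 × V3) : ℝ :=
  -2 * (X.1 ⬝ᵥ (α.adjugate *ᵥ Y.1) + X.2 ⬝ᵥ (β.adjugate *ᵥ Y.2))

/-- The orthonormal basis `h_i = e_i + t_i f_i`, `v_i = s_i^(-1/2) f_i`. -/
noncomputable def bas (s t : V3) : Fin 3 ⊕ Fin 3 → V3 × V3
  | Sum.inl i => (Pi.single i 1, Pi.single i (t i))
  | Sum.inr i => (0, Pi.single i (Real.sqrt (s i))⁻¹)

/-- The Ricci form in a frame. -/
noncomputable def Rc (α β : M3) (s t : V3) (X Y : V3 × V3) : ℝ :=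
  -(1 / 2) * ∑ a, Gt s t (Br α β X (bas s t a)) (Br α β Y (bas s t a))
    - (1 / 2) * Kf α β X Y
    + (1 / 4) * ∑ a, ∑ b, Gt s t (Br α β (bas s t a) (bas s t b)) X *
        Gt s t (Br α β (bas s t a) (bas s t b)) Y

/-- The data of a frame. -/
structure Dat (α β : M3) (s t : V3) : Prop where
  sa : αᵀ = α
  sb : βᵀ = β
  pa : α.PosDef
  pb : β.PosDef
  st : ∀ i, s i * (1 - t i ^ 2) = 1
  s1 : ∀ i, 1 ≤ s i

/-- The frame map `(a, b) ↦ ∑ a_i e_i + b_i f_i`, `e_i = P ε_i`, `f_i = R ε_i`. -/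
noncomputable def iota (P R : M3) (X : V3 × V3) : Compl 3 1 := mk2 (P *ᵥ X.1) (R *ᵥ X.2)

/-- `τ_i = t_j t_k`. -/
def tau (t : V3) : V3 := ![t 1 * t 2, t 0 * t 2, t 0 * t 1]

/-- The derivative `S_α` of the scalar curvature with respect to `α`. -/
noncomputable def Sa (α β : M3) (s t : V3) : M3 :=
  α.trace • (1 : M3) - α - (1 / 2 : ℝ) • (diagonal s * α + α * diagonal s)
    + (1 / 2 : ℝ) • (diagonal (tau t) * β * diagonal (fun i => t i * s i)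
      + diagonal (fun i => t i * s i) * β * diagonal (tau t))

end Pool.H36.SF
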