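import Pool.Agent.H36.SF.RicV

/-!
The Einstein constant is positive. Let `γ = diagonal r * β * diagonal r` (positive definite) and
`Rᵀ γ R = diagonal g`, `g_0` the largest eigenvalue (`exists_gauge γ 0`), `y = R ε_0`, `μ = g_0`.
By `ric_ver` with `γ y = μ y`, `|γ(y × ε_k)|² ≤ μ² |y × ε_k|² = μ² (1 - y_k²)` used with the weight
`s_k - 1 ≥ 0`, `∑_k |γ(y × ε_k)|² = tr(γ²) - μ²`, `∑_k (s_k - 1)(1 - y_k²) = ∑_m y_m² (s_k + s_l - 2)`:
`Π Ric(X,X) ≥ μ² - (1/2) tr(γ²) + y·adj(γ)y = (1/2)(g_0² - (g_1 - g_2)²) > 0`.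
-/

namespace Pool.H36.SF

open Matrix Pool.H36.ST

variable {α β : M3} {s t : V3}

private theorem cross_sum (γ : M3) (y : V3) :
    ∑ k, ((γ *ᵥ crossProduct y (Pi.single k 1)) ⬝ᵥ (γ *ᵥ crossProduct y (Pi.single k 1))) =
      (γᵀ * γ).trace * (y ⬝ᵥ y) - (γ *ᵥ y) ⬝ᵥ (γ *ᵥ y) := by
  simp [Fin.sum_univ_three, cross_apply, dotProduct, Matrix.mulVec, Matrix.trace,
    Matrix.mul_apply]
  ring

private theorem cross_sq (y : V3) (k : Fin 3) :
    (crossProduct y (Pi.single k 1) ⬝ᵥ crossProduct y (Pi.single k 1) : ℝ) =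
      y ⬝ᵥ y - y k ^ 2 := by
  fin_cases k <;> simp [cross_apply, dotProduct, Fin.sum_univ_three] <;> ring

theorem lam_pos (h : Dat α β s t) {c : ℝ} (hc : ∀ X, Rc α β s t X X = c * Gt s t X X) :
    0 < c := by
  have hs0 : ∀ i, 0 < s i := fun i => by linarith [h.s1 i]
  set r : V3 := fun i => Real.sqrt (s i) with hr
  have hrp : ∀ i, 0 < r i := fun i => Real.sqrt_pos.2 (hs0 i)
  have hrs : ∀ i, s i = r i ^ 2 := fun i => (Real.sq_sqrt (hs0 i).le).symm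
  obtain ⟨γ, hγ⟩ : ∃ γ : M3, γ = diagonal r * β * diagonal r := ⟨_, rfl⟩
  have hγs : γᵀ = γ := by
    rw [hγ, Matrix.transpose_mul, Matrix.transpose_mul, Matrix.diagonal_transpose, h.sb,
      Matrix.mul_assoc]
  have hγp : ∀ z : V3, z ≠ 0 → 0 < z ⬝ᵥ (γ *ᵥ z) := by
    intro z hz
    have h1 : z ⬝ᵥ (γ *ᵥ z) = (diagonal r *ᵥ z) ⬝ᵥ (β *ᵥ (diagonal r *ᵥ z)) := by
      rw [hγ]
      simp [Fin.sum_univ_three, dotProduct, Matrix.mulVec, Matrix.mul_apply, Matrix.diagonal_apply]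
      ring
    rw [h1]
    have h2 := h.pb.dotProduct_mulVec_pos (x := diagonal r *ᵥ z) (by
      intro h0
      apply hz
      funext i
      have h3 := congrFun h0 i
      rw [Matrix.mulVec_diagonal] at h3
      simpa [(hrp i).ne'] using h3)
    simpa using h2
  obtain ⟨R, g, hR, hdet, hd, h10, h21, -⟩ := exists_gauge γ 0 hγs (by simp)
  have hR' : R * Rᵀ = 1 := mul_eq_one_comm.1 hR
  have hγR : γ = R * diagonal g * Rᵀ := by
    rw [← hd]
    have : R * (Rᵀ * γ * R) * Rᵀ = (R * Rᵀ) * γ * (R * Rᵀ) := by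
      simp only [Matrix.mul_assoc]
    rw [this, hR', Matrix.one_mul, Matrix.mul_one]
  have hRv : ∀ u : V3, (R *ᵥ u) ⬝ᵥ (R *ᵥ u) = u ⬝ᵥ u := by
    intro u
    rw [Matrix.dotProduct_mulVec, Matrix.vecMul_mulVec, hR, Matrix.vecMul_one]
  have hRtv : ∀ u : V3, (Rᵀ *ᵥ u) ⬝ᵥ (Rᵀ *ᵥ u) = u ⬝ᵥ u := by
    intro u
    rw [Matrix.dotProduct_mulVec, Matrix.vecMul_mulVec, Matrix.transpose_transpose, hR',
      Matrix.vecMul_one]
  have hγv : ∀ u : V3, γ *ᵥ (R *ᵥ u) = R *ᵥ (diagonal g *ᵥ u) := by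
    intro u
    rw [hγR, Matrix.mulVec_mulVec, Matrix.mulVec_mulVec, Matrix.mul_assoc, hR, Matrix.mul_one]
  have hg : ∀ i, 0 < g i := by
    intro i
    have h1 := hγp (R *ᵥ Pi.single i 1) (by
      intro h0
      have h3 := hRv (Pi.single i 1)
      rw [h0] at h3
      simp at h3)
    rw [hγv, Matrix.dotProduct_mulVec, Matrix.vecMul_mulVec, hR, Matrix.vecMul_one] at h1
    simpa [Matrix.mulVec_diagonal, dotProduct, Pi.single_apply] using h1
  have hnorm : ∀ z : V3, (γ *ᵥ z) ⬝ᵥ (γ *ᵥ z) ≤ g 0 ^ 2 * (z ⬝ᵥ z) := by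
    intro z
    have hz : z = R *ᵥ (Rᵀ *ᵥ z) := by rw [Matrix.mulVec_mulVec, hR', Matrix.one_mulVec]
    rw [← hRtv z]
    conv_lhs => rw [hz]
    rw [hγv, hRv]
    generalize Rᵀ *ᵥ z = u
    simp only [dotProduct, Fin.sum_univ_three, Matrix.mulVec_diagonal]
    have g0 := hg 0
    have g1 := hg 1
    have g2 := hg 2
    have e1 : g 1 ^ 2 ≤ g 0 ^ 2 := by nlinarith
    have e2 : g 2 ^ 2 ≤ g 0 ^ 2 := by nlinarith
    nlinarith [mul_le_mul_of_nonneg_right e1 (sq_nonneg (u 1)),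
      mul_le_mul_of_nonneg_right e2 (sq_nonneg (u 2))]
  obtain ⟨y, hy⟩ : ∃ y : V3, y = R *ᵥ Pi.single 0 1 := ⟨_, rfl⟩
  have hyy : y ⬝ᵥ y = 1 := by rw [hy, hRv]; simp [dotProduct, Pi.single_apply]
  have hγy : γ *ᵥ y = g 0 • y := by
    rw [hy, hγv]
    have : diagonal g *ᵥ (Pi.single 0 1 : V3) = g 0 • (Pi.single 0 1 : V3) := by
      funext i
      fin_cases i <;> simp [Matrix.mulVec_diagonal]
    rw [this, Matrix.mulVec_smul]
  have hdetγ : γ.det = g 0 * g 1 * g 2 := by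
    rw [hγR, Matrix.det_mul, Matrix.det_mul, Matrix.det_transpose, hdet, Matrix.det_diagonal,
      Fin.prod_univ_three]
    ring
  have hadj : γ.adjugate *ᵥ y = (g 1 * g 2) • y := by
    have h1 : γ.adjugate *ᵥ (γ *ᵥ y) = γ.det • y := by
      rw [Matrix.mulVec_mulVec, Matrix.adjugate_mul, Matrix.smul_mulVec, Matrix.one_mulVec]
    rw [hγy, Matrix.mulVec_smul, hdetγ] at h1
    have h2 : g 0 • (γ.adjugate *ᵥ y) = g 0 • ((g 1 * g 2) • y) := by
      rw [h1, smul_smul]; congr 1; ring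
    exact smul_right_injective _ (hg 0).ne' h2
  have htr : (γᵀ * γ).trace = g 0 ^ 2 + g 1 ^ 2 + g 2 ^ 2 := by
    have e : γᵀ * γ = R * (diagonal g * diagonal g * Rᵀ) := by
      rw [hγs, hγR]
      have : R * diagonal g * Rᵀ * (R * diagonal g * Rᵀ) =
          R * diagonal g * (Rᵀ * R) * diagonal g * Rᵀ := by simp only [Matrix.mul_assoc]
      rw [this, hR, Matrix.mul_one]
      simp only [Matrix.mul_assoc]
    rw [e, Matrix.trace_mul_comm, Matrix.mul_assoc, hR, Matrix.mul_one,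
      Matrix.diagonal_mul_diagonal, Matrix.trace_diagonal, Fin.sum_univ_three]
    ring
  have hmain := ric_ver h.sa h.sb h.st hrp hrs y hγ
  have hcs := cross_sum γ y
  rw [htr, hyy, hγy] at hcs
  have hb0 := (hnorm (crossProduct y (Pi.single 0 1))).trans_eq (by rw [cross_sq, hyy])
  have hb1 := (hnorm (crossProduct y (Pi.single 1 1))).trans_eq (by rw [cross_sq, hyy])
  have hb2 := (hnorm (crossProduct y (Pi.single 2 1))).trans_eq (by rw [cross_sq, hyy])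
  rw [hadj, hγy, hc] at hmain
  have hG : Gt s t (0, fun i => y i / r i) (0, fun i => y i / r i) = 1 := by
    have : Gt s t (0, fun i => y i / r i) (0, fun i => y i / r i) = y ⬝ᵥ y := by
      simp only [Gt, Fin.sum_univ_three, dotProduct, hrs]
      have a0 := (hrp 0).ne'
      have a1 := (hrp 1).ne'
      have a2 := (hrp 2).ne'
      simp only [Pi.zero_apply]
      field_simp
      ring
    rw [this, hyy]
  rw [hG, mul_one] at hmain
  simp only [Fin.sum_univ_three] at hmain hcs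
  generalize (γ *ᵥ crossProduct y (Pi.single 0 1)) ⬝ᵥ (γ *ᵥ crossProduct y (Pi.single 0 1)) = A0
    at hmain hcs hb0
  generalize (γ *ᵥ crossProduct y (Pi.single 1 1)) ⬝ᵥ (γ *ᵥ crossProduct y (Pi.single 1 1)) = A1
    at hmain hcs hb1
  generalize (γ *ᵥ crossProduct y (Pi.single 2 1)) ⬝ᵥ (γ *ᵥ crossProduct y (Pi.single 2 1)) = A2
    at hmain hcs hb2
  simp only [dotProduct, Fin.sum_univ_three, Pi.smul_apply, smul_eq_mul] at hmain hcs hyy
  have k0 : 0 ≤ (s 0 - 1) * (g 0 ^ 2 * (1 - y 0 ^ 2) - A0) :=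
    mul_nonneg (by linarith [h.s1 0]) (by linarith)
  have k1 : 0 ≤ (s 1 - 1) * (g 0 ^ 2 * (1 - y 1 ^ 2) - A1) :=
    mul_nonneg (by linarith [h.s1 1]) (by linarith)
  have k2 : 0 ≤ (s 2 - 1) * (g 0 ^ 2 * (1 - y 2 ^ 2) - A2) :=
    mul_nonneg (by linarith [h.s1 2]) (by linarith)
  have g0 := hg 0
  have g1 := hg 1
  have g2 := hg 2
  have hP : 0 < s 0 * s 1 * s 2 := mul_pos (mul_pos (hs0 0) (hs0 1)) (hs0 2)
  have hpos : 0 < g 0 ^ 2 - (g 1 - g 2) ^ 2 := by nlinarith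
  have hfin : 0 < (s 0 * s 1 * s 2) * c := by
    refine lt_of_lt_of_le ?_ hmain
    have e : -(1 / 2) * (s 0 * A0 + s 1 * A1 + s 2 * A2) +
        (y 0 * (g 1 * g 2 * y 0) + y 1 * (g 1 * g 2 * y 1) + y 2 * (g 1 * g 2 * y 2)) +
        1 / 2 * ((g 0 * y 0) ^ 2 * (s 0 + s 1 + s 2 - s 0 - 1) +
          (g 0 * y 1) ^ 2 * (s 0 + s 1 + s 2 - s 1 - 1) +
          (g 0 * y 2) ^ 2 * (s 0 + s 1 + s 2 - s 2 - 1)) =
        1 / 2 * (g 0 ^ 2 - (g 1 - g 2) ^ 2) + 1 / 2 * ((s 0 - 1) * (g 0 ^ 2 * (1 - y 0 ^ 2) - A0)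
          + (s 1 - 1) * (g 0 ^ 2 * (1 - y 1 ^ 2) - A1)
          + (s 2 - 1) * (g 0 ^ 2 * (1 - y 2 ^ 2) - A2)) := by
      linear_combination (-1 / 2) * hcs + (g 1 * g 2 + 1 / 2 * g 0 ^ 2 * (s 0 + s 1 + s 2 - 2)
        + 1 / 2 * g 0 ^ 2) * hyy
    rw [e]
    linarith
  by_contra hcon
  push Not at hcon
  have := mul_nonpos_of_nonneg_of_nonpos hP.le hcon
  linarith

end Pool.H36.SF
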