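import Pool.Agent.H36.SF.Defs

/-!
`exists_gauge α 0`: `Rᵀ α R = diagonal a`, `a_i > 0`. For `x = R ε_i` the hypothesis says
`a_i² - (a_j - a_k)² ≥ 2c`, so `a_i² ≥ 2c`; for `x = R y`, `|αx|² = ∑ a_i² y_i² ≥ 2c |y|²`.
-/

namespace Pool.H36.SF

open Matrix Pool.H36.ST

theorem pinch {α : M3} (sa : αᵀ = α) (pa : α.PosDef) {c : ℝ}
    (h : ∀ x : V3, c * (x ⬝ᵥ x) ≤ -(1 / 2) * (α * α).trace * (x ⬝ᵥ x)
      + (α *ᵥ x) ⬝ᵥ (α *ᵥ x) + x ⬝ᵥ (α.adjugate *ᵥ x)) (x : V3) :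
    2 * c * (x ⬝ᵥ x) ≤ (α *ᵥ x) ⬝ᵥ (α *ᵥ x) := by
  obtain ⟨R, a, hR, hdet, hD, -, -, -⟩ := exists_gauge α 0 sa (by simp)
  have hR' : R * Rᵀ = 1 := mul_eq_one_comm.1 hR
  -- norms
  have hnorm : ∀ y z : V3, (R *ᵥ y) ⬝ᵥ (R *ᵥ z) = y ⬝ᵥ z := by
    intro y z
    rw [Matrix.dotProduct_mulVec, Matrix.vecMul_mulVec, hR, Matrix.vecMul_one]
  have hαR : α * R = R * diagonal a := by
    rw [← hD, ← Matrix.mul_assoc, ← Matrix.mul_assoc, hR', Matrix.one_mul]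
  have hα : ∀ y : V3, α *ᵥ (R *ᵥ y) = R *ᵥ (diagonal a *ᵥ y) := by
    intro y
    rw [Matrix.mulVec_mulVec, hαR, ← Matrix.mulVec_mulVec]
  have hα' : α = R * diagonal a * Rᵀ := by
    rw [← hαR, Matrix.mul_assoc, hR', Matrix.mul_one]
  have htr : (α * α).trace = a 0 ^ 2 + a 1 ^ 2 + a 2 ^ 2 := by
    have h1 : α * α = R * (diagonal a * diagonal a) * Rᵀ := by
      calc α * α = R * diagonal a * Rᵀ * (R * diagonal a * Rᵀ) := by rw [← hα']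
        _ = R * diagonal a * (Rᵀ * R) * diagonal a * Rᵀ := by simp only [Matrix.mul_assoc]
        _ = _ := by rw [hR]; simp only [Matrix.mul_assoc, Matrix.one_mul, Matrix.mul_one]
    rw [h1, Matrix.trace_mul_comm, ← Matrix.mul_assoc, hR, Matrix.one_mul,
      Matrix.diagonal_mul_diagonal, Matrix.trace_diagonal, Fin.sum_univ_three]
    ring
  have hadjR : R.adjugate = Rᵀ := by
    have h1 : Rᵀ * (R * R.adjugate) = Rᵀ := by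
      rw [Matrix.mul_adjugate, hdet, one_smul, Matrix.mul_one]
    rwa [← Matrix.mul_assoc, hR, Matrix.one_mul] at h1
  have hadjRt : (Rᵀ).adjugate = R := by
    rw [← Matrix.adjugate_transpose, hadjR, Matrix.transpose_transpose]
  have hadj : (diagonal a).adjugate = Rᵀ * α.adjugate * R := by
    rw [← hD, Matrix.adjugate_mul_distrib, Matrix.adjugate_mul_distrib, hadjR, hadjRt,
      Matrix.mul_assoc]
  have hadj' : ∀ y : V3, (R *ᵥ y) ⬝ᵥ (α.adjugate *ᵥ (R *ᵥ y)) =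
      a 1 * a 2 * y 0 ^ 2 + a 0 * a 2 * y 1 ^ 2 + a 0 * a 1 * y 2 ^ 2 := by
    intro y
    have h1 : (R *ᵥ y) ⬝ᵥ (α.adjugate *ᵥ (R *ᵥ y)) = y ⬝ᵥ ((diagonal a).adjugate *ᵥ y) := by
      rw [hadj, ← Matrix.mulVec_mulVec, ← Matrix.mulVec_mulVec,
        Matrix.dotProduct_mulVec y, Matrix.vecMul_transpose]
    rw [h1, Matrix.adjugate_fin_three]
    simp [Matrix.mulVec, dotProduct, Fin.sum_univ_three, Matrix.diagonal]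
    ring
  have hkey : ∀ y : V3, c * (y 0 ^ 2 + y 1 ^ 2 + y 2 ^ 2) ≤
      -(1 / 2) * (a 0 ^ 2 + a 1 ^ 2 + a 2 ^ 2) * (y 0 ^ 2 + y 1 ^ 2 + y 2 ^ 2) +
      (a 0 ^ 2 * y 0 ^ 2 + a 1 ^ 2 * y 1 ^ 2 + a 2 ^ 2 * y 2 ^ 2) +
      (a 1 * a 2 * y 0 ^ 2 + a 0 * a 2 * y 1 ^ 2 + a 0 * a 1 * y 2 ^ 2) := by
    intro y
    have h1 := h (R *ᵥ y)
    rw [hα, hnorm, hnorm, htr, hadj'] at h1
    have e1 : y ⬝ᵥ y = y 0 ^ 2 + y 1 ^ 2 + y 2 ^ 2 := by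
      simp [dotProduct, Fin.sum_univ_three]
      ring
    have e2 : (diagonal a *ᵥ y) ⬝ᵥ (diagonal a *ᵥ y) =
        a 0 ^ 2 * y 0 ^ 2 + a 1 ^ 2 * y 1 ^ 2 + a 2 ^ 2 * y 2 ^ 2 := by
      simp [Matrix.mulVec_diagonal, dotProduct, Fin.sum_univ_three]
      ring
    rw [e1, e2] at h1
    exact h1
  have k0 := hkey ![1, 0, 0]
  have k1 := hkey ![0, 1, 0]
  have k2 := hkey ![0, 0, 1]
  simp at k0 k1 k2
  have p0 : 2 * c ≤ a 0 ^ 2 := by nlinarith [sq_nonneg (a 1 - a 2)]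
  have p1 : 2 * c ≤ a 1 ^ 2 := by nlinarith [sq_nonneg (a 0 - a 2)]
  have p2 : 2 * c ≤ a 2 ^ 2 := by nlinarith [sq_nonneg (a 0 - a 1)]
  obtain ⟨y, rfl⟩ : ∃ y : V3, x = R *ᵥ y :=
    ⟨Rᵀ *ᵥ x, by rw [Matrix.mulVec_mulVec, hR', Matrix.one_mulVec]⟩
  rw [hα, hnorm, hnorm]
  have e1 : y ⬝ᵥ y = y 0 ^ 2 + y 1 ^ 2 + y 2 ^ 2 := by
    simp [dotProduct, Fin.sum_univ_three]
    ring
  have e2 : (diagonal a *ᵥ y) ⬝ᵥ (diagonal a *ᵥ y) =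
      a 0 ^ 2 * y 0 ^ 2 + a 1 ^ 2 * y 1 ^ 2 + a 2 ^ 2 * y 2 ^ 2 := by
    simp [Matrix.mulVec_diagonal, dotProduct, Fin.sum_univ_three]
    ring
  rw [e1, e2]
  nlinarith [mul_le_mul_of_nonneg_right p0 (sq_nonneg (y 0)),
    mul_le_mul_of_nonneg_right p1 (sq_nonneg (y 1)),
    mul_le_mul_of_nonneg_right p2 (sq_nonneg (y 2))]

end Pool.H36.SF
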