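import Pool.Agent.H36.SF.Defs

/-!
Polarisation of the Einstein equation: `Gt` and `Rc` are bilinear and symmetric (`Br` is bilinear,
`adj α` is symmetric), so `4 B(X, Y) = B(X + Y, X + Y) - B(X - Y, X - Y)` for both. It is best to
prove `Rc (X + Y) (X + Y) = Rc X X + Rc Y Y + 2 Rc X Y` termwise
(`Br (X + Y) E = Br X E + Br Y E`, `Gt (X + Y) Z = Gt X Z + Gt Y Z`).
-/

namespace Pool.H36.SF

open Matrix Pool.H36.ST

variable {α β : M3} {s t : V3}

theorem Br_add_left (X Y Z : V3 × V3) : Br α β (X + Y) Z = Br α β X Z + Br α β Y Z := by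
  simp only [Br, Prod.fst_add, Prod.snd_add, map_add, LinearMap.add_apply, Matrix.mulVec_add]
  rfl

theorem Gt_add_left (X Y Z : V3 × V3) : Gt s t (X + Y) Z = Gt s t X Z + Gt s t Y Z := by
  simp only [Gt, Fin.sum_univ_three, Prod.fst_add, Prod.snd_add, Pi.add_apply]
  ring

theorem Gt_comm (X Y : V3 × V3) : Gt s t X Y = Gt s t Y X := by
  simp only [Gt, Fin.sum_univ_three]
  ring

theorem Gt_sq_add (X Y : V3 × V3) :
    Gt s t (X + Y) (X + Y) = Gt s t X X + Gt s t Y Y + 2 * Gt s t X Y := by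
  rw [Gt_add_left, Gt_comm X (X + Y), Gt_comm Y (X + Y), Gt_add_left, Gt_add_left, Gt_comm Y X]
  ring

theorem dot_symm {N : M3} (hN : Nᵀ = N) (x y : V3) : x ⬝ᵥ (N *ᵥ y) = y ⬝ᵥ (N *ᵥ x) := by
  rw [Matrix.dotProduct_mulVec, dotProduct_comm, ← Matrix.mulVec_transpose, hN]

theorem Kf_sq_add (sa : αᵀ = α) (sb : βᵀ = β) (X Y : V3 × V3) :
    Kf α β (X + Y) (X + Y) = Kf α β X X + Kf α β Y Y + 2 * Kf α β X Y := by
  have ha : (α.adjugate)ᵀ = α.adjugate := by rw [Matrix.adjugate_transpose, sa]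
  have hb : (β.adjugate)ᵀ = β.adjugate := by rw [Matrix.adjugate_transpose, sb]
  simp only [Kf, Prod.fst_add, Prod.snd_add, Matrix.mulVec_add, dotProduct_add, add_dotProduct]
  rw [dot_symm ha Y.1 X.1, dot_symm hb Y.2 X.2]
  ring

theorem Rc_sq_add (sa : αᵀ = α) (sb : βᵀ = β) (X Y : V3 × V3) :
    Rc α β s t (X + Y) (X + Y) = Rc α β s t X X + Rc α β s t Y Y + 2 * Rc α β s t X Y := by
  have h1 : ∑ a, Gt s t (Br α β (X + Y) (bas s t a)) (Br α β (X + Y) (bas s t a)) =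
      ∑ a, Gt s t (Br α β X (bas s t a)) (Br α β X (bas s t a))
        + ∑ a, Gt s t (Br α β Y (bas s t a)) (Br α β Y (bas s t a))
        + 2 * ∑ a, Gt s t (Br α β X (bas s t a)) (Br α β Y (bas s t a)) := by
    rw [Finset.mul_sum, ← Finset.sum_add_distrib, ← Finset.sum_add_distrib]
    exact Finset.sum_congr rfl (fun a _ => by rw [Br_add_left, Gt_sq_add])
  have h2 : ∑ a, ∑ b, Gt s t (Br α β (bas s t a) (bas s t b)) (X + Y) *
        Gt s t (Br α β (bas s t a) (bas s t b)) (X + Y) =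
      ∑ a, ∑ b, Gt s t (Br α β (bas s t a) (bas s t b)) X *
        Gt s t (Br α β (bas s t a) (bas s t b)) X
        + ∑ a, ∑ b, Gt s t (Br α β (bas s t a) (bas s t b)) Y *
        Gt s t (Br α β (bas s t a) (bas s t b)) Y
        + 2 * ∑ a, ∑ b, Gt s t (Br α β (bas s t a) (bas s t b)) X *
        Gt s t (Br α β (bas s t a) (bas s t b)) Y := by
    rw [Finset.mul_sum, ← Finset.sum_add_distrib, ← Finset.sum_add_distrib]
    refine Finset.sum_congr rfl (fun a _ => ?_)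
    rw [Finset.mul_sum, ← Finset.sum_add_distrib, ← Finset.sum_add_distrib]
    refine Finset.sum_congr rfl (fun b _ => ?_)
    rw [Gt_comm _ (X + Y), Gt_add_left, Gt_comm X, Gt_comm Y]
    ring
  rw [Rc, h1, h2, Kf_sq_add sa sb, Rc, Rc, Rc]
  ring

theorem polar (sa : αᵀ = α) (sb : βᵀ = β) {c : ℝ} (h : ∀ X, Rc α β s t X X = c * Gt s t X X)
    (X Y : V3 × V3) : Rc α β s t X Y = c * Gt s t X Y := by
  have h1 := Rc_sq_add (s := s) (t := t) sa sb X Y
  rw [h, h, h, Gt_sq_add] at h1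
  linarith

end Pool.H36.SF
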