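import Pool.Agent.H36.SF.RicA0

/-!
The mixed Ricci curvatures `Ric(e_i, e_j + t_j f_j)`.

Let `X = e_i`, `Y = h_j = e_j + t_j f_j`, `N = β τ - T α` (`τ = diagonal (tau t)`). `Y` is orthogonal
to the second ideal, so `Gt (a, b) Y = a_j`. First sum: only `E = h_k` matters (`[e_i, f_k] = 0`),
`Gt [e_i, h_k] [h_j, h_k] = (α(ε_i × ε_k)) · (α(ε_j × ε_k)) - (α(ε_i × ε_k)) · T s N (ε_j × ε_k)`.
Killing: `(adj α)_ij = (α² - (tr α) α + e₂)_ij`. Last sum: only pairs `(h_k, h_l)` matter,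
`Gt [h_k,h_l] h_j = (α(ε_k × ε_l))_j`, `Gt [h_k,h_l] e_i = (α(ε_k × ε_l))_i - t_i s_i (N(ε_k × ε_l))_i`.
With `t_i² s_i = s_i - 1` the result is `(1/2) tr(S_α α) δ_ij - (S_α α)_ij`.
-/

namespace Pool.H36.SF

open Matrix Pool.H36.ST

variable {α β : M3} {s t : V3}

theorem Kf_mixed (i j : Fin 3) :
    Kf α β (Pi.single i 1, 0) (Pi.single j 1, Pi.single j (t j)) = -2 * α.adjugate i j := by
  simp [Kf]

theorem ric_mixed (sa : αᵀ = α) (sb : βᵀ = β) (hst : ∀ i, s i * (1 - t i ^ 2) = 1)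
    (_hs : ∀ i, 1 ≤ s i) (i j : Fin 3) :
    Rc α β s t (Pi.single i 1, 0) (Pi.single j 1, Pi.single j (t j)) =
      (1 / 2) * (Sa α β s t * α).trace * (if i = j then 1 else 0) - (Sa α β s t * α) i j := by
  have h10 : α 1 0 = α 0 1 := congrFun (congrFun sa 0) 1
  have h20 : α 2 0 = α 0 2 := congrFun (congrFun sa 0) 2
  have h21 : α 2 1 = α 1 2 := congrFun (congrFun sa 1) 2
  have k10 : β 1 0 = β 0 1 := congrFun (congrFun sb 0) 1
  have k20 : β 2 0 = β 0 2 := congrFun (congrFun sb 0) 2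
  have k21 : β 2 1 = β 1 2 := congrFun (congrFun sb 1) 2
  rw [Rc, first_sum sa sb, third_sum hst sa, Kf_mixed, Matrix.trace_fin_three,
    Matrix.trace_fin_three, Matrix.adjugate_fin_three]
  simp only [Sa, Matrix.trace_fin_three]
  fin_cases i <;> fin_cases j <;>
  simp [Fin.sum_univ_three, Matrix.mul_apply, tau, h10, h20, h21, k10, k20, k21,
    Matrix.diagonal] <;>
  ring

end Pool.H36.SF
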