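import Pool.Agent.H36.SF.Defs

/-!
O'Neill's inequality: for `X = h_x = ∑ x_i h_i` (orthogonal to the second ideal),
`Ric(X, X) ≤ Ric_base(x, x)`.

`Gt (a, b) X = a · x`. First sum over `E = h_k`: `[X, h_k] = (α(x × ε_k), β(Tx × Tε_k))`, and
`Gt Z Z ≥ |Z.1|²` for all `Z` (`Gt Z Z = |a|² + ∑ s_i (b_i - t_i a_i)²`); `∑_k |α(x × ε_k)|² =
tr(α²)|x|² - |αx|²`. First sum over `E = v_k`: `[X, v_k] = (0, β(Tx × ε_k))/√s_k`; with
`W = β (Tx)^` (`(Tx)^ = hat (Tx)`), `∑_k |β(Tx × ε_k)|²_s / s_k = ∑_{lk} (s_l/s_k) W_lk²` and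
`2 (Tx)·adj(β)(Tx) = - tr(W²) = - ∑ W_lk W_kl`, so
`- (1/2) ∑_{lk} (s_l/s_k) W_lk² + (Tx)·adj(β)(Tx) ≤ 0`
since `(s_l/s_k) W_lk² + (s_k/s_l) W_kl² ≥ - 2 W_lk W_kl`.
Last sum: only pairs `(h_k, h_l)` matter: `(1/4) ∑_{kl} (α(ε_k × ε_l)·x)² = (1/2)|αx|²`.
-/

namespace Pool.H36.SF

open Matrix Pool.H36.ST

variable {α β : M3} {s t : V3}

/-- the inner product is at least the first part -/
theorem gt_ge (hst : ∀ i, s i * (1 - t i ^ 2) = 1) (hs : ∀ i, 1 ≤ s i) (Z : V3 × V3) :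
    Z.1 ⬝ᵥ Z.1 ≤ Gt s t Z Z := by
  unfold Gt
  simp only [dotProduct]
  refine Finset.sum_le_sum fun i _ => ?_
  have h1 := hst i
  have h2 := hs i
  have e : s i * (Z.1 i * Z.1 i + Z.2 i * Z.2 i - t i * (Z.1 i * Z.2 i + Z.2 i * Z.1 i)) =
      Z.1 i * Z.1 i + s i * (Z.2 i - t i * Z.1 i) ^ 2 := by
    linear_combination (Z.1 i * Z.1 i) * h1
  rw [e]
  have : 0 ≤ s i * (Z.2 i - t i * Z.1 i) ^ 2 := by positivity
  linarith

/-- the inner product with a horizontal vector -/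
theorem gt_hor (hst : ∀ i, s i * (1 - t i ^ 2) = 1) (Z : V3 × V3) (x : V3) :
    Gt s t Z (x, fun i => t i * x i) = Z.1 ⬝ᵥ x := by
  unfold Gt
  simp only [dotProduct]
  refine Finset.sum_congr rfl fun i _ => ?_
  linear_combination (Z.1 i * x i) * hst i

theorem sum_hor (sa : αᵀ = α) (x : V3) :
    ∑ k, (α *ᵥ crossProduct x (Pi.single k 1)) ⬝ᵥ (α *ᵥ crossProduct x (Pi.single k 1)) =
      (α * α).trace * (x ⬝ᵥ x) - (α *ᵥ x) ⬝ᵥ (α *ᵥ x) := by
  have h10 : α 1 0 = α 0 1 := congrFun (congrFun sa 0) 1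
  have h20 : α 2 0 = α 0 2 := congrFun (congrFun sa 0) 2
  have h21 : α 2 1 = α 1 2 := congrFun (congrFun sa 1) 2
  simp only [Fin.sum_univ_three, dotProduct, mulVec, cross_apply, Matrix.trace, Matrix.diag,
    Matrix.mul_apply, Pi.single_apply]
  simp [h10, h20, h21]
  ring

theorem sum_last (x : V3) (sa : αᵀ = α) :
    ∑ k, ∑ l, ((α *ᵥ crossProduct (Pi.single k (1 : ℝ)) (Pi.single l 1)) ⬝ᵥ x) *
      ((α *ᵥ crossProduct (Pi.single k (1 : ℝ)) (Pi.single l 1)) ⬝ᵥ x) =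
      2 * ((α *ᵥ x) ⬝ᵥ (α *ᵥ x)) := by
  have h10 : α 1 0 = α 0 1 := congrFun (congrFun sa 0) 1
  have h20 : α 2 0 = α 0 2 := congrFun (congrFun sa 0) 2
  have h21 : α 2 1 = α 1 2 := congrFun (congrFun sa 1) 2
  simp only [Fin.sum_univ_three, dotProduct, mulVec, cross_apply, Pi.single_apply]
  simp [h10, h20, h21]
  ring

/-- the vertical part -/
theorem ver_le (sb : βᵀ = β) (hs : ∀ i, 1 ≤ s i) (y : V3) :
    y ⬝ᵥ (β.adjugate *ᵥ y) ≤ 1 / 2 * ∑ k, ∑ i, s i * ((β *ᵥ crossProduct y (Pi.single k 1)) i *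
      (β *ᵥ crossProduct y (Pi.single k 1)) i) / s k := by
  have h10 : β 1 0 = β 0 1 := congrFun (congrFun sb 0) 1
  have h20 : β 2 0 = β 0 2 := congrFun (congrFun sb 0) 2
  have h21 : β 2 1 = β 1 2 := congrFun (congrFun sb 1) 2
  have hW : y ⬝ᵥ (β.adjugate *ᵥ y) = -(1 / 2) * ∑ k, ∑ i,
      (β *ᵥ crossProduct y (Pi.single k 1)) i * (β *ᵥ crossProduct y (Pi.single i 1)) k := by
    rw [Matrix.adjugate_fin_three]
    simp only [Fin.sum_univ_three, dotProduct, mulVec, cross_apply, Pi.single_apply]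
    simp [h10, h20, h21]
    ring
  rw [hW]
  set W : Fin 3 → Fin 3 → ℝ := fun k i => (β *ᵥ crossProduct y (Pi.single k 1)) i with hWd
  have hsw : ∑ k, ∑ i, s i * (W k i * W k i) / s k =
      1 / 2 * ∑ k, ∑ i, (s i * (W k i * W k i) / s k + s k * (W i k * W i k) / s i) := by
    simp only [Finset.sum_add_distrib]
    rw [Finset.sum_comm (f := fun k i => s k * (W i k * W i k) / s i)]
    ring
  have key : ∀ k i, -(2 * (W k i * W i k)) ≤
      s i * (W k i * W k i) / s k + s k * (W i k * W i k) / s i := by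
    intro k i
    have h1 : 0 < s k := by linarith [hs k]
    have h2 : 0 < s i := by linarith [hs i]
    have e : s i * (W k i * W k i) / s k + s k * (W i k * W i k) / s i + 2 * (W k i * W i k) =
        (s i * W k i + s k * W i k) ^ 2 / (s k * s i) := by
      field_simp
      ring
    have : 0 ≤ (s i * W k i + s k * W i k) ^ 2 / (s k * s i) := by positivity
    linarith
  have hsum : ∑ k, ∑ i, -(2 * (W k i * W i k)) ≤
      ∑ k, ∑ i, (s i * (W k i * W k i) / s k + s k * (W i k * W i k) / s i) :=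
    Finset.sum_le_sum fun k _ => Finset.sum_le_sum fun i _ => key k i
  have e2 : ∑ k, ∑ i, -(2 * (W k i * W i k)) = -2 * ∑ k, ∑ i, W k i * W i k := by
    simp only [Finset.mul_sum]
    refine Finset.sum_congr rfl fun k _ => Finset.sum_congr rfl fun i _ => by ring
  rw [e2] at hsum
  show -(1 / 2) * ∑ k, ∑ i, W k i * W i k ≤ 1 / 2 * ∑ k, ∑ i, s i * (W k i * W k i) / s k
  rw [hsw]
  linarith

theorem ric_hor (sa : αᵀ = α) (sb : βᵀ = β) (hst : ∀ i, s i * (1 - t i ^ 2) = 1)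
    (hs : ∀ i, 1 ≤ s i) (x : V3) :
    Rc α β s t (x, fun i => t i * x i) (x, fun i => t i * x i) ≤
      -(1 / 2) * (α * α).trace * (x ⬝ᵥ x) + (α *ᵥ x) ⬝ᵥ (α *ᵥ x)
        + x ⬝ᵥ (α.adjugate *ᵥ x) := by
  set y : V3 := fun i => t i * x i with hy
  unfold Rc
  rw [Fintype.sum_sum_type, Fintype.sum_sum_type]
  -- horizontal part of the first sum
  have h1 : (α * α).trace * (x ⬝ᵥ x) - (α *ᵥ x) ⬝ᵥ (α *ᵥ x) ≤
      ∑ k, Gt s t (Br α β (x, y) (bas s t (Sum.inl k))) (Br α β (x, y) (bas s t (Sum.inl k))) := by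
    rw [← sum_hor sa x]
    exact Finset.sum_le_sum fun k _ => gt_ge hst hs (Br α β (x, y) (bas s t (Sum.inl k)))
  -- vertical part of the first sum
  have h2 : ∑ k, Gt s t (Br α β (x, y) (bas s t (Sum.inr k)))
      (Br α β (x, y) (bas s t (Sum.inr k))) =
      ∑ k, ∑ i, s i * ((β *ᵥ crossProduct y (Pi.single k 1)) i *
        (β *ᵥ crossProduct y (Pi.single k 1)) i) / s k := by
    refine Finset.sum_congr rfl fun k _ => ?_
    have hsk : 0 < s k := by linarith [hs k]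
    have e1 : (Pi.single k (Real.sqrt (s k))⁻¹ : V3) =
        (Real.sqrt (s k))⁻¹ • (Pi.single k 1 : V3) := by
      rw [← Pi.single_smul, smul_eq_mul, mul_one]
    have e2 : Br α β (x, y) (bas s t (Sum.inr k)) =
        (0, (Real.sqrt (s k))⁻¹ • (β *ᵥ crossProduct y (Pi.single k 1))) := by
      unfold Br bas
      simp only
      rw [e1, map_zero, mulVec_zero, map_smul, mulVec_smul]
    rw [e2]
    unfold Gt
    refine Finset.sum_congr rfl fun i _ => ?_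
    simp only [Pi.zero_apply, Pi.smul_apply, smul_eq_mul]
    have e3 : (Real.sqrt (s k))⁻¹ * (Real.sqrt (s k))⁻¹ = (s k)⁻¹ := by
      rw [← mul_inv, Real.mul_self_sqrt hsk.le]
    rw [div_eq_mul_inv, ← e3]
    ring
  -- the last sum
  have h3 : ∀ a b, Gt s t (Br α β (bas s t a) (bas s t b)) (x, y) =
      (Br α β (bas s t a) (bas s t b)).1 ⬝ᵥ x := fun a b => gt_hor hst _ x
  have h4 : ∑ k, ∑ b, Gt s t (Br α β (bas s t (Sum.inl k)) (bas s t b)) (x, y) *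
      Gt s t (Br α β (bas s t (Sum.inl k)) (bas s t b)) (x, y) =
      2 * ((α *ᵥ x) ⬝ᵥ (α *ᵥ x)) := by
    rw [← sum_last x sa]
    refine Finset.sum_congr rfl fun k _ => ?_
    rw [Fintype.sum_sum_type]
    have e1 : ∑ l, Gt s t (Br α β (bas s t (Sum.inl k)) (bas s t (Sum.inr l))) (x, y) *
        Gt s t (Br α β (bas s t (Sum.inl k)) (bas s t (Sum.inr l))) (x, y) = 0 := by
      refine Finset.sum_eq_zero fun l _ => ?_
      rw [h3]
      simp [Br, bas]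
    rw [e1, add_zero]
    refine Finset.sum_congr rfl fun l _ => ?_
    rw [h3]
    rfl
  have h5 : ∑ k, ∑ b, Gt s t (Br α β (bas s t (Sum.inr k)) (bas s t b)) (x, y) *
      Gt s t (Br α β (bas s t (Sum.inr k)) (bas s t b)) (x, y) = 0 := by
    refine Finset.sum_eq_zero fun k _ => Finset.sum_eq_zero fun b _ => ?_
    rw [h3]
    simp [Br, bas]
  have h6 := ver_le sb hs y
  rw [h2, h4, h5]
  unfold Kf
  simp only
  linarith

/-- In a frame `h_x` has square length `|x|²`. -/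
theorem Gt_hor (hst : ∀ i, s i * (1 - t i ^ 2) = 1) (x : V3) :
    Gt s t (x, fun i => t i * x i) (x, fun i => t i * x i) = x ⬝ᵥ x := by
  simp only [Gt, Fin.sum_univ_three, dotProduct]
  linear_combination x 0 ^ 2 * hst 0 + x 1 ^ 2 * hst 1 + x 2 ^ 2 * hst 2

end Pool.H36.SF
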