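import Pool.Agent.H36.SF.Defs

/-!
The Ricci curvature `Ric(e_i, f_i)` when both structure matrices are diagonal.

`X = e_i`, `Y = f_i`. First sum: `E = h_k`: `[e_i, h_k] = ± a_l e_l`, `[f_i, h_k] = ± t_k b_l f_l`,
so it is `-(1/2)(-(t_j t_k)(s_j a_j b_j + s_k a_k b_k))`. Killing form: 0. Last sum:
`(1/2) s_i² [(a_i - D b_i)(t_j t_k b_i - t_i a_i) - t_i b_i² (t_j²/s_k + t_k²/s_j + 1/(s_j s_k))]` with
`t_j²/s_k + t_k²/s_j + 1/(s_j s_k) = 1 - t_j² t_k²`. Multiply by `2 t_i` and use `s_i t_i² = s_i - 1`.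
-/

namespace Pool.H36.SF

open Matrix Pool.H36.ST

variable {s t a b : V3}

/-- `2 t_i Ric(e_i, f_i)`. -/
theorem ric_N (hst : ∀ i, s i * (1 - t i ^ 2) = 1) (hs : ∀ i, 1 ≤ s i) (i : Fin 3) :
    2 * t i * Rc (diagonal a) (diagonal b) s t (Pi.single i 1, 0) (0, Pi.single i 1) =
      (t 0 * t 1 * t 2) * (s 0 * (a 0 * b 0) + s 1 * (a 1 * b 1) + s 2 * (a 2 * b 2))
        - (s i - 1) * (s i * (a i ^ 2 + b i ^ 2) - 2 * (t 0 * t 1 * t 2) * (s i * (a i * b i))) := by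
  have hw : ∀ m, ((Real.sqrt (s m))⁻¹) ^ 2 = 1 - t m ^ 2 := by
    intro m
    have h0 : 0 < s m := by linarith [hs m]
    rw [inv_pow, Real.sq_sqrt h0.le]
    have h1 := hst m
    field_simp
    linarith
  have hsum : ∀ f : Fin 3 ⊕ Fin 3 → ℝ, ∑ a, f a = (f (Sum.inl 0) + f (Sum.inl 1) + f (Sum.inl 2))
      + (f (Sum.inr 0) + f (Sum.inr 1) + f (Sum.inr 2)) := by
    intro f
    rw [Fintype.sum_sum_type, Fin.sum_univ_three, Fin.sum_univ_three]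
  have h0 := hw 0
  have h1 := hw 1
  have h2 := hw 2
  have s0 := hst 0
  have s1 := hst 1
  have s2 := hst 2
  simp only [Rc, Kf, Br, hsum, bas]
  generalize (Real.sqrt (s 0))⁻¹ = w0 at h0
  generalize (Real.sqrt (s 1))⁻¹ = w1 at h1
  generalize (Real.sqrt (s 2))⁻¹ = w2 at h2
  fin_cases i
  · simp [Gt, Fin.sum_univ_three, cross_apply, dotProduct, Matrix.mulVec_diagonal]
    linear_combination (s 0 * (a 0 ^ 2 + b 0 ^ 2) - s 0 * (t 0 * t 1 * t 2) * a 0 * b 0) * s0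
      - t 0 ^ 2 * s 0 ^ 2 * b 0 ^ 2 * ((t 1 ^ 2 + w1 ^ 2) * h2 + h1)
  · simp [Gt, Fin.sum_univ_three, cross_apply, dotProduct, Matrix.mulVec_diagonal]
    linear_combination (s 1 * (a 1 ^ 2 + b 1 ^ 2) - s 1 * (t 0 * t 1 * t 2) * a 1 * b 1) * s1
      - t 1 ^ 2 * s 1 ^ 2 * b 1 ^ 2 * ((t 0 ^ 2 + w0 ^ 2) * h2 + h0)
  · simp [Gt, Fin.sum_univ_three, cross_apply, dotProduct, Matrix.mulVec_diagonal]
    linear_combination (s 2 * (a 2 ^ 2 + b 2 ^ 2) - s 2 * (t 0 * t 1 * t 2) * a 2 * b 2) * s2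
      - t 2 ^ 2 * s 2 ^ 2 * b 2 ^ 2 * ((t 1 ^ 2 + w1 ^ 2) * h0 + h1)

/-- The third family of Einstein equations. -/
theorem eqN (hst : ∀ i, s i * (1 - t i ^ 2) = 1) (hs : ∀ i, 1 ≤ s i) {c : ℝ}
    (hc : ∀ X Y, Rc (diagonal a) (diagonal b) s t X Y = c * Gt s t X Y) (i : Fin 3) :
    (s i - 1) * (s i * (a i ^ 2 + b i ^ 2) - 2 * (t 0 * t 1 * t 2) * (s i * (a i * b i)) - 2 * c) =
      (t 0 * t 1 * t 2) * (s 0 * (a 0 * b 0) + s 1 * (a 1 * b 1) + s 2 * (a 2 * b 2)) := by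
  have h1 := ric_N (a := a) (b := b) hst hs i
  have h2 : Gt s t (Pi.single i 1, 0) (0, Pi.single i 1) = -(t i * s i) := by
    simp only [Gt, Fin.sum_univ_three]
    fin_cases i <;> simp <;> ring
  rw [hc, h2] at h1
  linear_combination h1 - 2 * c * hst i

/-- Diagonal entries of the first family. -/
theorem eqA (hst : ∀ i, s i * (1 - t i ^ 2) = 1) {κ : ℝ}
    (h : Sa (diagonal a) (diagonal b) s t * diagonal a = κ • (1 : M3)) (i : Fin 3) :
    a i * ((a 0 + a 1 + a 2) - a i) = κ + s i * a i ^ 2 - (t 0 * t 1 * t 2) * (s i * (a i * b i)) := by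
  have h1 := congrFun (congrFun h i) i
  fin_cases i
  · simp [Sa, tau, Matrix.mul_apply, Fin.sum_univ_three, Matrix.trace_diagonal] at h1 ⊢
    linear_combination h1
  · simp [Sa, tau, Matrix.mul_apply, Fin.sum_univ_three, Matrix.trace_diagonal] at h1 ⊢
    linear_combination h1
  · simp [Sa, tau, Matrix.mul_apply, Fin.sum_univ_three, Matrix.trace_diagonal] at h1 ⊢
    linear_combination h1

end Pool.H36.SF
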