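import Pool.Agent.H36.SF.Defs

/-!
Trace of `(1/2) tr(N) δ - N = c δ` gives `tr N = 6 c`, so `N = 2 c`.
-/

namespace Pool.H36.SF

open Matrix Pool.H36.ST

theorem solveS {N : M3} {c : ℝ}
    (h : ∀ i j, (1 / 2) * N.trace * (if i = j then 1 else 0) - N i j = c * (if i = j then 1 else 0)) :
    N = (2 * c) • (1 : M3) := by
  have h0 := h 0 0
  have h1 := h 1 1
  have h2 := h 2 2
  simp at h0 h1 h2
  have ht : N.trace = N 0 0 + N 1 1 + N 2 2 := Matrix.trace_fin_three N
  have ht6 : N.trace = 6 * c := by linarith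
  ext i j
  have hij := h i j
  rw [ht6] at hij
  by_cases e : i = j
  · subst e
    simp at hij ⊢
    linarith
  · simp [e] at hij ⊢
    linarith

end Pool.H36.SF
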