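import Pool.Agent.H36.SF.Off
import Pool.Agent.H36.SF.LamPos
import Pool.Agent.H36.SF.Pinch
import Pool.Agent.H36.SF.SolveS
import Pool.Agent.H36.SF.RicA
import Pool.Agent.H36.SF.RicH
import Pool.Agent.H36.SF.RicN
import Pool.Agent.H36.SF.Polar

/-!
Both structure matrices of an Einstein metric are diagonal.
-/

namespace Pool.H36.SF

open Matrix Pool.H36.ST

variable {α β : M3} {s t : V3}

theorem Dat.swap (h : Dat α β s t) : Dat β α s t := ⟨h.sb, h.sa, h.pb, h.pa, h.st, h.s1⟩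

/-- The eigenvalues of `α` are at least `√(2c)`. -/
theorem alpha_ge (h : Dat α β s t) {c : ℝ} (hc : ∀ X, Rc α β s t X X = c * Gt s t X X) (x : V3) :
    2 * c * (x ⬝ᵥ x) ≤ (α *ᵥ x) ⬝ᵥ (α *ᵥ x) := by
  refine pinch h.sa h.pa (fun x => ?_) x
  have h1 := ric_hor h.sa h.sb h.st h.s1 x
  rw [hc, Gt_hor h.st] at h1
  exact h1

/-- The first family of Einstein equations. -/
theorem Sa_eq (h : Dat α β s t) {c : ℝ} (hc : ∀ X, Rc α β s t X X = c * Gt s t X X) :
    Sa α β s t * α = (2 * c) • (1 : M3) := by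
  apply solveS
  intro i j
  have h1 := ric_mixed h.sa h.sb h.st h.s1 i j
  rw [polar h.sa h.sb hc] at h1
  rw [← h1]
  congr 1
  simp only [Gt, Fin.sum_univ_three]
  have h2 := h.st
  fin_cases i <;> fin_cases j <;> simp
  · linear_combination h2 0
  · linear_combination h2 1
  · linear_combination h2 2

/-- Scaling of `Sa`. -/
theorem Sa_smul (k : ℝ) : Sa (k • α) (k • β) s t = k • Sa α β s t := by
  ext i j
  simp only [Sa, Matrix.trace_smul, smul_eq_mul, Matrix.add_apply, Matrix.sub_apply,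
    Matrix.smul_apply, Matrix.mul_smul, Matrix.smul_mul]
  ring

/-- The normalised equations for diagonal structure matrices. -/
structure DiagEq (a b s t : V3) : Prop where
  ha : ∀ i, 1 ≤ a i
  hb : ∀ i, 1 ≤ b i
  st : ∀ i, s i * (1 - t i ^ 2) = 1
  s1 : ∀ i, 1 ≤ s i
  A : ∀ i, a i * ((a 0 + a 1 + a 2) - a i) =
    1 + s i * a i ^ 2 - (t 0 * t 1 * t 2) * (s i * (a i * b i))
  B : ∀ i, b i * ((b 0 + b 1 + b 2) - b i) =
    1 + s i * b i ^ 2 - (t 0 * t 1 * t 2) * (s i * (a i * b i))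
  N : ∀ i, (s i - 1) *
      (s i * (a i ^ 2 + b i ^ 2) - 2 * (t 0 * t 1 * t 2) * (s i * (a i * b i)) - 1) =
    (t 0 * t 1 * t 2) * (s 0 * (a 0 * b 0) + s 1 * (a 1 * b 1) + s 2 * (a 2 * b 2))

/-- `r = √(2c)` (`lam_pos`), `α' = r⁻¹ α`, `β' = r⁻¹ β`: `alpha_ge`, `Sa_eq`, `Sa_smul` give the
hypotheses of `off_zero`; `α' = diagonal a`, `β' = diagonal b` with `a_i ≥ 1` (`|α' ε_i|² ≥ 1` and
`a_i > 0` by positive definiteness). `A`, `B`: `eqA` with `κ = 1`. `N`: `eqN` for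
`α = diagonal (r a)`, `β = diagonal (r b)`, divided by `r² = 2c` (use `polar`). -/
theorem exists_diag (h : Dat α β s t) {c : ℝ} (hc : ∀ X, Rc α β s t X X = c * Gt s t X X)
    (hc' : ∀ X, Rc β α s t X X = c * Gt s t X X) :
    ∃ (r : ℝ) (a b : V3), 0 < r ∧ α = r • diagonal a ∧ β = r • diagonal b ∧ DiagEq a b s t := by
  have hc0 := lam_pos h hc
  set r : ℝ := Real.sqrt (2 * c) with hr
  have hr0 : 0 < r := Real.sqrt_pos.2 (by linarith)
  have hr2 : r * r = 2 * c := Real.mul_self_sqrt (by linarith)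
  have hrr : r⁻¹ * (r⁻¹ * (2 * c)) = 1 := by
    rw [← hr2]
    field_simp
  have hsc : ∀ (M : M3) (x : V3), 2 * c * (x ⬝ᵥ x) ≤ (M *ᵥ x) ⬝ᵥ (M *ᵥ x) →
      x ⬝ᵥ x ≤ ((r⁻¹ • M) *ᵥ x) ⬝ᵥ ((r⁻¹ • M) *ᵥ x) := by
    intro M x hx
    rw [Matrix.smul_mulVec, smul_dotProduct, dotProduct_smul, smul_eq_mul, smul_eq_mul]
    have h1 : x ⬝ᵥ x = r⁻¹ * (r⁻¹ * (2 * c * (x ⬝ᵥ x))) := by
      calc x ⬝ᵥ x = (r⁻¹ * (r⁻¹ * (2 * c))) * (x ⬝ᵥ x) := by rw [hrr, one_mul]
        _ = _ := by ring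
    rw [h1]
    have hi : 0 ≤ r⁻¹ := (inv_pos.2 hr0).le
    exact mul_le_mul_of_nonneg_left (mul_le_mul_of_nonneg_left hx hi) hi
  have ha := fun x => hsc α x (alpha_ge h hc x)
  have hb := fun x => hsc β x (alpha_ge h.swap hc' x)
  have e1 : Sa (r⁻¹ • α) (r⁻¹ • β) s t * (r⁻¹ • α) = 1 := by
    rw [Sa_smul, Matrix.smul_mul, Matrix.mul_smul, Sa_eq h hc, smul_smul, smul_smul, mul_assoc,
      hrr, one_smul]
  have e2 : Sa (r⁻¹ • β) (r⁻¹ • α) s t * (r⁻¹ • β) = 1 := by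
    rw [Sa_smul, Matrix.smul_mul, Matrix.mul_smul, Sa_eq h.swap hc', smul_smul, smul_smul,
      mul_assoc, hrr, one_smul]
  have hta : (r⁻¹ • α)ᵀ = r⁻¹ • α := by rw [Matrix.transpose_smul, h.sa]
  have htb : (r⁻¹ • β)ᵀ = r⁻¹ • β := by rw [Matrix.transpose_smul, h.sb]
  have hoff := fun (i j : Fin 3) (hij : i ≠ j) =>
    off_zero hta htb h.st h.s1 ha hb e1 e2 hij
  have hda : r⁻¹ • α = diagonal (fun i => (r⁻¹ • α) i i) := by
    ext i j
    by_cases hij : i = j
    · subst hij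
      rw [diagonal_apply_eq]
    · rw [diagonal_apply_ne _ hij]
      exact (hoff i j hij).1
  have hdb : r⁻¹ • β = diagonal (fun i => (r⁻¹ • β) i i) := by
    ext i j
    by_cases hij : i = j
    · subst hij
      rw [diagonal_apply_eq]
    · rw [diagonal_apply_ne _ hij]
      exact (hoff i j hij).2
  set a : V3 := fun i => (r⁻¹ • α) i i with hadef
  set b : V3 := fun i => (r⁻¹ • β) i i with hbdef
  have hαa : α = r • diagonal a := by
    rw [← hda, smul_smul, mul_inv_cancel₀ hr0.ne', one_smul]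
  have hβb : β = r • diagonal b := by
    rw [← hdb, smul_smul, mul_inv_cancel₀ hr0.ne', one_smul]
  have hge : ∀ (M : M3) (v : V3), M.PosDef → r⁻¹ • M = diagonal v →
      (∀ x : V3, x ⬝ᵥ x ≤ ((r⁻¹ • M) *ᵥ x) ⬝ᵥ ((r⁻¹ • M) *ᵥ x)) → ∀ i, 1 ≤ v i := by
    intro M v hM hv hx i
    have h1 := hx (Pi.single i 1)
    rw [hv, Matrix.mulVec_single_one] at h1
    have h2 : (diagonal v).col i = Pi.single i (v i) := by
      funext j
      rw [Matrix.col_apply]
      by_cases hij : j = i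
      · subst hij
        rw [diagonal_apply_eq, Pi.single_eq_same]
      · rw [diagonal_apply_ne _ hij, Pi.single_eq_of_ne hij]
    rw [h2] at h1
    simp only [single_dotProduct, Pi.single_eq_same, one_mul] at h1
    have h3 : 0 < v i := by
      have h4 : v i = r⁻¹ * M i i := by
        have := congrFun (congrFun hv i) i
        rw [diagonal_apply_eq] at this
        rw [← this]
        rfl
      rw [h4]
      exact mul_pos (inv_pos.2 hr0) (hM.diag_pos)
    nlinarith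
  have hA1 := hge α a h.pa hda ha
  have hB1 := hge β b h.pb hdb hb
  rw [hda, hdb] at e1 e2
  refine ⟨r, a, b, hr0, hαa, hβb, ⟨hA1, hB1, h.st, h.s1, ?_, ?_, ?_⟩⟩
  · intro i
    exact eqA h.st (κ := 1) (by rw [one_smul]; exact e1) i
  · intro i
    have h1 := eqA h.st (κ := 1) (by rw [one_smul]; exact e2) i
    rw [h1]
    ring
  · intro i
    have hαd : α = diagonal (r • a) := by
      rw [hαa, Matrix.diagonal_smul]
    have hβd : β = diagonal (r • b) := by
      rw [hβb, Matrix.diagonal_smul]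
    have hcd : ∀ X Y, Rc (diagonal (r • a)) (diagonal (r • b)) s t X Y = c * Gt s t X Y := by
      intro X Y
      have := polar h.sa h.sb hc X Y
      rwa [hαd, hβd] at this
    have h1 := eqN h.st h.s1 hcd i
    simp only [Pi.smul_apply, smul_eq_mul] at h1
    rw [← hr2] at h1
    have hrne : r * r ≠ 0 := (mul_pos hr0 hr0).ne'
    refine mul_left_cancel₀ hrne ?_
    linear_combination h1

end Pool.H36.SF
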