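import Mathlib

/-!
The scalar case.

`s (1 - t²) = 1`, `0 < t`, `2a² = 1 + s a² - t³ s a b`, `2b² = 1 + s b² - t³ s a b`,
`(s - 1)(2a² + 2b² - 3) = 3 t³ s a b`. Multiply by `1 - t²`: `(1 - 2t²) a² + t³ a b = 1 - t²`, same for
`b`, and (divide by `s t²`, `s - 1 = s t²`) `2a² + 2b² - 3 = 3 t a b`. So `(1 - 2t²)(a² - b²) = 0`.
If `a = b`: `(4 - 3t) a² = 3`, `(1 - 2t² + t³) a² = 1 - t²`, so `(1 - t)(1 - 2t) = 0`, `t = 1/2`.
If `2t² = 1`: `t a b = 1`, so `(ab)² = 2`, `a² + b² = 3`.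
-/

namespace Pool.H36.SF

theorem scalar_case {a b s t : ℝ} (ha : 1 ≤ a) (hb : 1 ≤ b) (ht : 0 < t) (hst : s * (1 - t ^ 2) = 1)
    (hs : 1 < s) (hA : a * (a + a) = 1 + s * a ^ 2 - t ^ 3 * (s * (a * b)))
    (hB : b * (b + b) = 1 + s * b ^ 2 - t ^ 3 * (s * (a * b)))
    (hT : (s - 1) * (a * (a + a) + b * (b + b) - 3) = t ^ 3 * (3 * (s * (a * b)))) :
    (t = 1 / 2 ∧ a = b) ∨ (2 * t ^ 2 = 1 ∧ ((a = 1 ∧ b ^ 2 = 2) ∨ (a ^ 2 = 2 ∧ b = 1))) := by
  have hs0 : 0 < s := by linarith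
  have ht1 : 0 < 1 - t ^ 2 := by
    by_contra hc
    push Not at hc
    nlinarith
  have h1 : (1 - 2 * t ^ 2) * a ^ 2 + t ^ 3 * (a * b) = 1 - t ^ 2 := by
    linear_combination (-(1 - t ^ 2)) * (-1) * hA + (a ^ 2 - t ^ 3 * (a * b)) * hst
  have h2 : (1 - 2 * t ^ 2) * b ^ 2 + t ^ 3 * (a * b) = 1 - t ^ 2 := by
    linear_combination (-(1 - t ^ 2)) * (-1) * hB + (b ^ 2 - t ^ 3 * (a * b)) * hst
  have hs1 : s - 1 = s * t ^ 2 := by linear_combination hst
  have h3 : 2 * a ^ 2 + 2 * b ^ 2 - 3 = 3 * (t * (a * b)) := by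
    have h4 : s * t ^ 2 ≠ 0 := by positivity
    apply mul_left_cancel₀ h4
    rw [← hs1]
    linear_combination hT - 3 * (t * (a * b)) * hs1
  have h5 : (1 - 2 * t ^ 2) * ((a - b) * (a + b)) = 0 := by linear_combination h1 - h2
  rcases mul_eq_zero.1 h5 with h6 | h6
  · right
    have h7 : 2 * t ^ 2 = 1 := by linarith
    refine ⟨h7, ?_⟩
    have h8 : t * (a * b) = 1 := by
      linear_combination 2 * h1 - 2 * a ^ 2 * h6 - (1 + t * (a * b)) * h7
    have h9 : a ^ 2 + b ^ 2 = 3 := by linear_combination (1 / 2) * h3 + (3 / 2) * h8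
    have h10 : a ^ 2 * b ^ 2 = 2 := by
      linear_combination 2 * (t * (a * b) + 1) * h8 - (a ^ 2 * b ^ 2) * h7
    have h11 : (a ^ 2 - 1) * (a ^ 2 - 2) = 0 := by linear_combination a ^ 2 * h9 - h10
    rcases mul_eq_zero.1 h11 with h12 | h12
    · left
      have h13 : (a - 1) * (a + 1) = 0 := by linear_combination h12
      rcases mul_eq_zero.1 h13 with h14 | h14
      · exact ⟨by linarith, by linear_combination h9 - h12⟩
      · linarith
    · right
      have h13 : (b - 1) * (b + 1) = 0 := by linear_combination h9 - h12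
      rcases mul_eq_zero.1 h13 with h14 | h14
      · exact ⟨by linarith, by linarith⟩
      · linarith
  · left
    have hab : a = b := by
      rcases mul_eq_zero.1 h6 with h7 | h7
      · linarith
      · linarith
    subst hab
    refine ⟨?_, rfl⟩
    have h7 : (4 - 3 * t) * a ^ 2 = 3 := by linear_combination h3
    have h8 : (1 - 2 * t ^ 2 + t ^ 3) * a ^ 2 = 1 - t ^ 2 := by linear_combination h1
    have h9 : (1 - t) * (1 - 2 * t) = 0 := by
      linear_combination (1 - 2 * t ^ 2 + t ^ 3) * h7 - (4 - 3 * t) * h8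
    rcases mul_eq_zero.1 h9 with h10 | h10
    · exfalso
      have h11 : t = 1 := by linarith
      rw [h11] at ht1
      norm_num at ht1
    · linarith

/-- The case `D ≤ 0`, third step. -/
theorem prod_case {a1 a2 a3 : ℝ} (h1 : 1 ≤ a1) (h2 : 1 ≤ a2) (h3 : 1 ≤ a3)
    (A1 : a1 * (a2 + a3) = 1 + a1 ^ 2) (A2 : a2 * (a1 + a3) = 1 + a2 ^ 2)
    (A3 : a3 * (a1 + a2) = 1 + a3 ^ 2) : a1 = 1 ∧ a2 = 1 ∧ a3 = 1 := by
  have h4 : (a1 - a2) * (a3 - (a1 + a2)) = 0 := by linear_combination A1 - A2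
  rcases mul_eq_zero.1 h4 with h5 | h5
  · have h6 : a1 = a2 := by linarith
    subst h6
    have h7 : a1 * a3 = 1 := by linear_combination A1
    have h8 : a1 ≤ 1 := by nlinarith
    have h9 : a3 ≤ 1 := by nlinarith
    exact ⟨by linarith, by linarith, by linarith⟩
  · exfalso
    have h6 : a3 = a1 + a2 := by linarith
    rw [← h6] at A3
    nlinarith

end Pool.H36.SF
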