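import Pool.Agent.H36.SF.Diag1
import Pool.Agent.H36.SF.AllEq
import Pool.Agent.H36.SF.Scalar

/-!
Solution of the normalised equations.

`g_i = a_i (a_j + a_k) + b_i (b_j + b_k) ≥ 4`, and `N`, `A`, `B` give
`(s_i - 1)(g_i - 3) = D ∑ s_l a_l b_l`, `D = t_0 t_1 t_2`. If `D ≤ 0` all `s_i = 1`, `t_i = 0`
(`prod_case`). If `D > 0` then all `t_i > 0` (sign hypothesis), `s_i > 1`, `Sys3` holds
(`hDD` from `s_i t_i² = s_i - 1`); `s_eq`, `ab_eq`, `scalar_case`.
-/

namespace Pool.H36.SF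

open Matrix Pool.H36.ST

private theorem dg_hg {x y z u v w : ℝ} (hx : 1 ≤ x) (hy : 1 ≤ y) (hz : 1 ≤ z) (hu : 1 ≤ u)
    (hv : 1 ≤ v) (hw : 1 ≤ w) : 1 ≤ x * (y + z) + u * (v + w) - 3 := by
  nlinarith [mul_nonneg (sub_nonneg.2 hx) (sub_nonneg.2 hy),
    mul_nonneg (sub_nonneg.2 hx) (sub_nonneg.2 hz),
    mul_nonneg (sub_nonneg.2 hu) (sub_nonneg.2 hv),
    mul_nonneg (sub_nonneg.2 hu) (sub_nonneg.2 hw)]

private theorem dg_one {x g w D : ℝ} (hD0 : D ≤ 0) (hx : 1 ≤ x) (hg : 1 ≤ g) (hS : 0 < w)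
    (he : (x - 1) * g = D * w) : x = 1 := by
  have h1 : D * w ≤ 0 := mul_nonpos_of_nonpos_of_nonneg hD0 hS.le
  refine le_antisymm ?_ hx
  by_contra hlt
  push Not at hlt
  have := mul_pos (sub_pos.2 hlt) (lt_of_lt_of_le one_pos hg)
  linarith

private theorem dg_zero {x y : ℝ} (hx : x = 1) (he : x * (1 - y ^ 2) = 1) : y = 0 := by
  rw [hx] at he
  have : y ^ 2 = 0 := by linarith
  exact pow_eq_zero_iff two_ne_zero |>.1 this

private theorem dg_sq {x : ℝ} (hx : 1 ≤ x) (he : x ^ 2 = 2) : x = Real.sqrt 2 := by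
  rw [← he, Real.sqrt_sq (by linarith)]

theorem solve_diag {a b s t : V3} (h : DiagEq a b s t)
    (hsg : (∀ i, 0 ≤ t i) ∨ (∀ i, t i ≤ 0)) :
    ((∀ i, s i = 1 ∧ t i = 0) ∧ (∀ i, a i = 1) ∧ (∀ i, b i = 1)) ∨
    ((∀ i, s i = 4 / 3 ∧ t i = 1 / 2) ∧ ∃ q : ℝ, 0 < q ∧ (∀ i, a i = q) ∧ (∀ i, b i = q)) ∨
    ((∀ i, s i = 2 ∧ 0 < t i ∧ 2 * t i ^ 2 = 1) ∧
      (((∀ i, a i = 1) ∧ (∀ i, b i = Real.sqrt 2)) ∨
        ((∀ i, a i = Real.sqrt 2) ∧ (∀ i, b i = 1)))) := by
  have all3 : ∀ {P : Fin 3 → Prop}, P 0 → P 1 → P 2 → ∀ i, P i := by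
    intro P h0 h1 h2 i
    fin_cases i
    · exact h0
    · exact h1
    · exact h2
  have A0 := h.A 0
  have A1 := h.A 1
  have A2 := h.A 2
  have B0 := h.B 0
  have B1 := h.B 1
  have B2 := h.B 2
  have N0 := h.N 0
  have N1 := h.N 1
  have N2 := h.N 2
  have a0 := h.ha 0
  have a1 := h.ha 1
  have a2 := h.ha 2
  have b0 := h.hb 0
  have b1 := h.hb 1
  have b2 := h.hb 2
  have s0 := h.s1 0
  have s1 := h.s1 1
  have s2 := h.s1 2
  have st0 := h.st 0
  have st1 := h.st 1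
  have st2 := h.st 2
  set D : ℝ := t 0 * t 1 * t 2 with hD
  have hSg : 0 < s 0 * (a 0 * b 0) + s 1 * (a 1 * b 1) + s 2 * (a 2 * b 2) := by positivity
  have T0 : (s 0 - 1) * (a 0 * (a 1 + a 2) + b 0 * (b 1 + b 2) - 3) =
      D * (s 0 * (a 0 * b 0) + s 1 * (a 1 * b 1) + s 2 * (a 2 * b 2)) := by
    linear_combination N0 + (s 0 - 1) * A0 + (s 0 - 1) * B0
  have T1 : (s 1 - 1) * (a 1 * (a 0 + a 2) + b 1 * (b 0 + b 2) - 3) =
      D * (s 0 * (a 0 * b 0) + s 1 * (a 1 * b 1) + s 2 * (a 2 * b 2)) := by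
    linear_combination N1 + (s 1 - 1) * A1 + (s 1 - 1) * B1
  have T2 : (s 2 - 1) * (a 2 * (a 0 + a 1) + b 2 * (b 0 + b 1) - 3) =
      D * (s 0 * (a 0 * b 0) + s 1 * (a 1 * b 1) + s 2 * (a 2 * b 2)) := by
    linear_combination N2 + (s 2 - 1) * A2 + (s 2 - 1) * B2
  have g0 := dg_hg a0 a1 a2 b0 b1 b2
  have g1 := dg_hg a1 a0 a2 b1 b0 b2
  have g2 := dg_hg a2 a0 a1 b2 b0 b1
  rcases le_or_gt D 0 with hD0 | hD0
  · -- `D ≤ 0`
    left
    have e0 := dg_one hD0 s0 g0 hSg T0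
    have e1 := dg_one hD0 s1 g1 hSg T1
    have e2 := dg_one hD0 s2 g2 hSg T2
    have t0 := dg_zero e0 st0
    have t1 := dg_zero e1 st1
    have t2 := dg_zero e2 st2
    have hDz : D = 0 := by rw [hD, t0]; ring
    rw [hDz, e0] at A0 B0
    rw [hDz, e1] at A1 B1
    rw [hDz, e2] at A2 B2
    obtain ⟨p0, p1, p2⟩ := prod_case a0 a1 a2 (by linear_combination A0) (by linear_combination A1)
      (by linear_combination A2)
    obtain ⟨q0, q1, q2⟩ := prod_case b0 b1 b2 (by linear_combination B0) (by linear_combination B1)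
      (by linear_combination B2)
    exact ⟨all3 ⟨e0, t0⟩ ⟨e1, t1⟩ ⟨e2, t2⟩, all3 p0 p1 p2, all3 q0 q1 q2⟩
  · -- `D > 0`
    right
    have hnn : ∀ i, 0 ≤ t i := by
      rcases hsg with h1 | h1
      · exact h1
      · exfalso
        have := mul_nonpos_of_nonneg_of_nonpos (mul_nonneg_of_nonpos_of_nonpos (h1 0) (h1 1)) (h1 2)
        linarith
    have hne : ∀ i, t i ≠ 0 := by
      refine all3 ?_ ?_ ?_ <;> intro h0 <;> rw [hD, h0] at hD0 <;> simp at hD0
    have tp : ∀ i, 0 < t i := fun i => lt_of_le_of_ne (hnn i) (Ne.symm (hne i))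
    have hs : ∀ i, s i - 1 = s i * t i ^ 2 := fun i => by linear_combination h.st i
    have hs1 : ∀ i, 1 < s i := fun i => by
      have h1 := hs i
      have h2 : 0 < s i * t i ^ 2 := mul_pos (by linarith [h.s1 i]) (pow_pos (tp i) 2)
      linarith
    have hsys : Sys3 (a 0) (a 1) (a 2) (b 0) (b 1) (b 2) (s 0) (s 1) (s 2) D := by
      refine ⟨a0, a1, a2, b0, b1, b2, hs1 0, hs1 1, hs1 2, hD0, ?_, ?_, ?_, ?_, ?_, ?_, ?_, T0, T1, T2⟩
      · rw [hs 0, hs 1, hs 2, hD]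
        ring
      · linear_combination A0
      · linear_combination A1
      · linear_combination A2
      · linear_combination B0
      · linear_combination B1
      · linear_combination B2
    obtain ⟨e1, e2⟩ := hsys.s_eq
    obtain ⟨f1, f2, f3, f4⟩ := hsys.ab_eq
    have teq : ∀ {i j : Fin 3}, s i = s j → t i = t j := by
      intro i j hij
      have h1 := h.st i
      have h2 := h.st j
      rw [hij] at h1
      have h3 : s j * (t i ^ 2 - t j ^ 2) = 0 := by linear_combination h2 - h1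
      have h4 : s j ≠ 0 := by linarith [hs1 j]
      have h5 : t i ^ 2 = t j ^ 2 := by
        have := (mul_eq_zero.1 h3).resolve_left h4
        linarith
      exact (pow_left_inj₀ (tp i).le (tp j).le two_ne_zero).1 h5
    have t01 : t 0 = t 1 := teq e1
    have t12 : t 1 = t 2 := teq e2
    have hD3 : D = t 0 ^ 3 := by
      rw [hD, ← t12, ← t01]
      ring
    have key := scalar_case (a := a 0) (b := b 0) (s := s 0) (t := t 0) a0 b0 (tp 0) st0 (hs1 0)
      (by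
        rw [← f2, ← f1, hD3] at A0
        linear_combination A0)
      (by
        rw [← f4, ← f3, hD3] at B0
        linear_combination B0)
      (by
        rw [← f2, ← f1, ← f4, ← f3, ← e2, ← e1, hD3] at T0
        linear_combination T0)
    have hsv : ∀ i, s i = s 0 := all3 rfl e1.symm (by rw [← e2, ← e1])
    have htv : ∀ i, t i = t 0 := all3 rfl t01.symm (by rw [← t12, ← t01])
    have hav : ∀ i, a i = a 0 := all3 rfl f1.symm (by rw [← f2, ← f1])
    have hbv : ∀ i, b i = b 0 := all3 rfl f3.symm (by rw [← f4, ← f3])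
    rcases key with ⟨k1, k2⟩ | ⟨k1, k2⟩
    · left
      have hs43 : s 0 = 4 / 3 := by
        rw [k1] at st0
        linarith
      refine ⟨fun i => ⟨by rw [hsv i, hs43], by rw [htv i, k1]⟩, a 0, by linarith, hav, fun i => ?_⟩
      rw [hbv i, k2]
    · right
      have hs2 : s 0 = 2 := by
        have h1 : t 0 ^ 2 = 1 / 2 := by linarith
        rw [h1] at st0
        linarith
      refine ⟨fun i => ⟨by rw [hsv i, hs2], tp i, by rw [htv i, k1]⟩, ?_⟩
      rcases k2 with ⟨k3, k4⟩ | ⟨k3, k4⟩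
      · left
        exact ⟨fun i => by rw [hav i, k3], fun i => by rw [hbv i]; exact dg_sq b0 k4⟩
      · right
        exact ⟨fun i => by rw [hav i]; exact dg_sq a0 k3, fun i => by rw [hbv i, k4]⟩

end Pool.H36.SF
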