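import Pool.Agent.H36.SF.Mk2

/-!
Frames: a linear parametrisation `ι` of `𝔰𝔬(4)` in which bracket, Killing form and metric have the
standard form.
-/

namespace Pool.H36.SF

open Matrix Pool.H36.ST

/-- `ι` is a frame for the metric `G`, with structure matrices `α`, `β` and parameters `s`, `t`. -/
structure IsFrame (G : LinearMap.BilinForm ℝ (Compl 3 1)) (ι : V3 × V3 → Compl 3 1)
    (α β : M3) (s t : V3) : Prop where
  add : ∀ X Y, ι (X + Y) = ι X + ι Y
  smul : ∀ (c : ℝ) X, ι (c • X) = c • ι X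
  surj : ∀ Z, ∃ X, Z = ι X
  br : ∀ X Y, bracket (ι X) (ι Y) = ι (Br α β X Y)
  kf : ∀ X, killing (ι X) = Kf α β X X
  gg : ∀ X Y, G (ι X) (ι Y) = Gt s t X Y

variable {G : LinearMap.BilinForm ℝ (Compl 3 1)} {α β : M3} {s t : V3}

/-- Exchange of the two ideals. -/
theorem IsFrame.swap {ι : V3 × V3 → Compl 3 1} (h : IsFrame G ι α β s t) :
    IsFrame G (fun X => ι X.swap) β α s t where
  add X Y := by rw [Prod.swap_add, h.add]
  smul c X := by rw [← h.smul]; rfl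
  surj Z := by
    obtain ⟨X, hX⟩ := h.surj Z
    exact ⟨X.swap, by simpa using hX⟩
  br X Y := by rw [h.br]; rfl
  kf X := by
    rw [h.kf]
    simp only [Kf, Prod.fst_swap, Prod.snd_swap]
    ring
  gg X Y := by
    rw [h.gg]
    simp only [Gt, Prod.fst_swap, Prod.snd_swap]
    exact Finset.sum_congr rfl (fun i _ => by ring)

/-- `iota P R` is a frame. Bracket: `bracket_mk2` and `cross_adj` (H36/ST/Frame):
`Pu × Pv = (adj P)ᵀ (u × v) = P (α (u × v))`. Killing form: `killing_mk2`, `|Pu|² = u · (Pᵀ P) u`.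
Surjectivity: `exists_mk2` and `P P⁻¹ = 1`. -/
theorem isFrame_iota {P R : M3} (hP : 0 < P.det) (hR : 0 < R.det) (hPα : P * α = (P.adjugate)ᵀ)
    (hRβ : R * β = (R.adjugate)ᵀ) (hP2 : Pᵀ * P = α.adjugate) (hR2 : Rᵀ * R = β.adjugate)
    (hG : ∀ X Y, G (iota P R X) (iota P R Y) = Gt s t X Y) :
    IsFrame G (iota P R) α β s t := by
  have hPu : IsUnit P.det := hP.ne'.isUnit
  have hRu : IsUnit R.det := hR.ne'.isUnit
  refine ⟨?_, ?_, ?_, ?_, ?_, hG⟩
  · intro X Y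
    simp only [iota, Prod.fst_add, Prod.snd_add, Matrix.mulVec_add, mk2_add]
  · intro c X
    simp only [iota, Prod.smul_fst, Prod.smul_snd, Matrix.mulVec_smul, mk2_smul]
  · intro Z
    obtain ⟨x, y, hZ⟩ := exists_mk2 Z
    refine ⟨(P⁻¹ *ᵥ x, R⁻¹ *ᵥ y), ?_⟩
    rw [iota, Matrix.mulVec_mulVec, Matrix.mulVec_mulVec, Matrix.mul_nonsing_inv _ hPu,
      Matrix.mul_nonsing_inv _ hRu, Matrix.one_mulVec, Matrix.one_mulVec, hZ]
  · intro X Y
    rw [iota, iota, bracket_mk2, cross_adj, cross_adj, iota, Br, ← hPα, ← hRβ]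
    simp only [Matrix.mulVec_mulVec]
  · intro X
    rw [iota, killing_mk2, Kf, ← hP2, ← hR2]
    have key : ∀ (M : M3) (x : V3), (M *ᵥ x) ⬝ᵥ (M *ᵥ x) = x ⬝ᵥ ((Mᵀ * M) *ᵥ x) := by
      intro M x
      rw [← Matrix.mulVec_mulVec, Matrix.dotProduct_mulVec x, Matrix.vecMul_transpose]
    rw [key, key]

end Pool.H36.SF
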