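import Pool.Agent.H36.SF.Defs

/-!
Singular value decomposition of a real `3 × 3` matrix.
`exists_gauge (Mᵀ M) 0` gives `V` with `Vᵀ Mᵀ M V = diagonal μ`; the columns `m_i` of `M V` are
orthogonal with `|m_i|² = μ_i ≥ 0`. Extend `m_i/√μ_i` (`μ_i > 0`) to an orthonormal basis
(`Orthonormal.exists_orthonormalBasis_extension_of_card_eq` in `EuclideanSpace ℝ (Fin 3)`); its
vectors are the columns of `U`, and `d_i = √μ_i`.
-/

namespace Pool.H36.SF

open Matrix Pool.H36.ST

theorem svd (M : M3) : ∃ (U V : M3) (d : V3), Uᵀ * U = 1 ∧ Vᵀ * V = 1 ∧ (∀ i, 0 ≤ d i) ∧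
    Uᵀ * M * V = diagonal d := by
  obtain ⟨V, μ, hV, -, hD, -, -, -⟩ := exists_gauge (Mᵀ * M) 0
    (by rw [Matrix.transpose_mul, Matrix.transpose_transpose]) (by simp)
  obtain ⟨N, hN⟩ : ∃ N : M3, N = M * V := ⟨_, rfl⟩
  have hNN : Nᵀ * N = diagonal μ := by
    rw [← hD, hN, Matrix.transpose_mul]
    simp only [Matrix.mul_assoc]
  have hent : ∀ i j, ∑ k, N k i * N k j = if i = j then μ i else 0 := by
    intro i j
    have := congrFun (congrFun hNN i) j
    rw [Matrix.mul_apply, Matrix.diagonal_apply] at this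
    simpa only [Matrix.transpose_apply] using this
  have hμ : ∀ i, 0 ≤ μ i := by
    intro i
    have h1 := hent i i
    rw [if_pos rfl] at h1
    rw [← h1]
    exact Finset.sum_nonneg fun k _ => mul_self_nonneg _
  obtain ⟨v, hv⟩ : ∃ v : Fin 3 → EuclideanSpace ℝ (Fin 3), ∀ i k,
      v i k = (Real.sqrt (μ i))⁻¹ * N k i :=
    ⟨fun i => WithLp.toLp 2 fun k => (Real.sqrt (μ i))⁻¹ * N k i, fun _ _ => rfl⟩
  have hinn : ∀ i j, inner ℝ (v i) (v j) = (Real.sqrt (μ i))⁻¹ * (Real.sqrt (μ j))⁻¹ *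
      (if i = j then μ i else 0) := by
    intro i j
    rw [PiLp.inner_apply, ← hent i j, Finset.mul_sum]
    apply Finset.sum_congr rfl
    intro k _
    rw [hv, hv]
    simp
    ring
  have horth : Orthonormal ℝ (Set.domRestrict {i | 0 < μ i} v) := by
    rw [orthonormal_iff_ite]
    rintro ⟨i, hi⟩ ⟨j, hj⟩
    rw [Set.domRestrict_apply, Set.domRestrict_apply, hinn]
    by_cases hij : i = j
    · subst hij
      rw [if_pos rfl, if_pos rfl]
      have h1 : Real.sqrt (μ i) * Real.sqrt (μ i) = μ i := Real.mul_self_sqrt (hμ i)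
      have h2 : Real.sqrt (μ i) ≠ 0 := (Real.sqrt_pos.2 hi).ne'
      nth_rewrite 3 [← h1]
      field_simp
    · rw [if_neg hij, mul_zero, if_neg]
      intro h
      exact hij (congrArg Subtype.val h)
  obtain ⟨e, he⟩ := horth.exists_orthonormalBasis_extension_of_card_eq (by simp)
  obtain ⟨U, hU⟩ : ∃ U : M3, ∀ k i, U k i = e i k :=
    ⟨Matrix.of fun k i => e i k, fun _ _ => rfl⟩
  have hUU : Uᵀ * U = 1 := by
    ext i j
    rw [Matrix.mul_apply, Matrix.one_apply]
    have h1 := orthonormal_iff_ite.1 e.orthonormal i j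
    rw [PiLp.inner_apply] at h1
    rw [← h1]
    apply Finset.sum_congr rfl
    intro k _
    rw [Matrix.transpose_apply, hU, hU]
    simp
    ring
  have hUd : N = U * diagonal (fun i => Real.sqrt (μ i)) := by
    ext k i
    rw [Matrix.mul_diagonal, hU]
    by_cases hi : 0 < μ i
    · rw [he i hi, hv]
      have h2 : Real.sqrt (μ i) ≠ 0 := (Real.sqrt_pos.2 hi).ne'
      field_simp
    · have h0 : μ i = 0 := le_antisymm (not_lt.1 hi) (hμ i)
      rw [h0, Real.sqrt_zero, mul_zero]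
      have h1 := hent i i
      rw [if_pos rfl, h0] at h1
      have h3 := (Finset.sum_eq_zero_iff_of_nonneg fun k _ => mul_self_nonneg (N k i)).1 h1 k
        (Finset.mem_univ k)
      exact mul_self_eq_zero.1 h3
  refine ⟨U, V, fun i => Real.sqrt (μ i), hUU, hV, fun i => Real.sqrt_nonneg _, ?_⟩
  rw [Matrix.mul_assoc, ← hN, hUd, ← Matrix.mul_assoc, hUU, Matrix.one_mul]

end Pool.H36.SF
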