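import Pool.Agent.H36.SF.Frame
import Pool.Agent.H36.SF.Svd
import Pool.Agent.H36.SF.Blocks
import Pool.Agent.H36.SF.Alpha

/-!
Every inner product on `𝔰𝔬(4)` has a frame.

`exists_PR0`: `exists_blocks` gives `A`, `B`, `C`; `exists_W` (H36/ST/OBasis) gives `W₁ᵀ A W₁ = 1`,
`W₂ᵀ B W₂ = 1`; `svd` of `- W₁ᵀ C W₂`: `U`, `V`, `d`; `P = W₁ U`, `R = W₂ V` (determinants nonzero
since `Pᵀ A P = 1`). `d_i < 1`: positivity at `mk2 (P ε_i) (R ε_i) ≠ 0`: `2 - 2 d_i > 0`.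
`exists_PR`: `s_i = 1/(1 - d_i²)`; multiply the columns by `√s_i` and by a sign `σ₁`, `σ₂` so that the
determinants are positive; `t_i = σ₁ σ₂ d_i`.
-/

namespace Pool.H36.SF

open Matrix Pool.H36.ST

private theorem dot_tr (P A Q : M3) (x y : V3) :
    (P *ᵥ x) ⬝ᵥ (A *ᵥ (Q *ᵥ y)) = x ⬝ᵥ ((Pᵀ * A * Q) *ᵥ y) := by
  rw [← Matrix.mulVec_mulVec, ← Matrix.mulVec_mulVec, Matrix.dotProduct_mulVec x,
    Matrix.vecMul_transpose]

/-- Bases of the two ideals adapted to the metric (principal vectors). -/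
theorem exists_PR0 (G : LinearMap.BilinForm ℝ (Compl 3 1)) (hs : ∀ X Y, G X Y = G Y X)
    (hp : ∀ X, X ≠ 0 → 0 < G X X) :
    ∃ (P R : M3) (d : V3), P.det ≠ 0 ∧ R.det ≠ 0 ∧ (∀ i, 0 ≤ d i) ∧ (∀ i, d i < 1) ∧
      ∀ x y x' y' : V3, G (mk2 (P *ᵥ x) (R *ᵥ y)) (mk2 (P *ᵥ x') (R *ᵥ y')) =
        x ⬝ᵥ x' + y ⬝ᵥ y' - ∑ i, d i * (x i * y' i + x' i * y i) := by
  obtain ⟨A, B, C, hA, hB, hG⟩ := exists_blocks G hs hp
  obtain ⟨W1, hW1⟩ := exists_W A hA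
  obtain ⟨W2, hW2⟩ := exists_W B hB
  obtain ⟨U, V, d, hU, hV, hd, hD⟩ := svd (-(W1ᵀ * C * W2))
  have eP : (W1 * U)ᵀ * A * (W1 * U) = 1 := by
    have : (W1 * U)ᵀ * A * (W1 * U) = Uᵀ * (W1ᵀ * A * W1) * U := by
      rw [Matrix.transpose_mul]; simp only [Matrix.mul_assoc]
    rw [this, hW1, Matrix.mul_one, hU]
  have eR : (W2 * V)ᵀ * B * (W2 * V) = 1 := by
    have : (W2 * V)ᵀ * B * (W2 * V) = Vᵀ * (W2ᵀ * B * W2) * V := by
      rw [Matrix.transpose_mul]; simp only [Matrix.mul_assoc]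
    rw [this, hW2, Matrix.mul_one, hV]
  have eC : (W1 * U)ᵀ * C * (W2 * V) = -diagonal d := by
    have : (W1 * U)ᵀ * C * (W2 * V) = -(Uᵀ * (-(W1ᵀ * C * W2)) * V) := by
      rw [Matrix.transpose_mul]
      simp only [Matrix.mul_assoc, Matrix.mul_neg, Matrix.neg_mul, neg_neg]
    rw [this, hD]
  have hform : ∀ x y x' y' : V3,
      G (mk2 ((W1 * U) *ᵥ x) ((W2 * V) *ᵥ y)) (mk2 ((W1 * U) *ᵥ x') ((W2 * V) *ᵥ y')) =
        x ⬝ᵥ x' + y ⬝ᵥ y' - ∑ i, d i * (x i * y' i + x' i * y i) := by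
    intro x y x' y'
    rw [hG, dot_tr, dot_tr, dot_tr, dot_tr, eP, eR, eC]
    simp only [Matrix.one_mulVec, Matrix.neg_mulVec, dotProduct, Fin.sum_univ_three, Pi.neg_apply,
      Matrix.mulVec_diagonal]
    ring
  have hdet : ∀ {P A : M3}, Pᵀ * A * P = 1 → P.det ≠ 0 := by
    intro P A h h0
    have := congrArg Matrix.det h
    rw [Matrix.det_mul, h0, mul_zero, Matrix.det_one] at this
    exact zero_ne_one this
  refine ⟨W1 * U, W2 * V, d, hdet eP, hdet eR, hd, fun i => ?_, hform⟩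
  have h1 := hp (mk2 ((W1 * U) *ᵥ Pi.single i 1) ((W2 * V) *ᵥ Pi.single i 1)) (by
    intro h0
    have h2 : mk2 ((W1 * U) *ᵥ Pi.single i 1) ((W2 * V) *ᵥ Pi.single i 1) = mk2 0 0 := by
      rw [h0]
      have := mk2_smul 0 (0 : V3) 0
      rw [zero_smul, zero_smul] at this
      exact this.symm
    have h3 := (mk2_inj h2).1
    have h4 : ((W1 * U)ᵀ * A * (W1 * U)) *ᵥ (Pi.single i 1 : V3) = 0 := by
      rw [← Matrix.mulVec_mulVec, h3, Matrix.mulVec_zero]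
    rw [eP, Matrix.one_mulVec] at h4
    have := congrFun h4 i
    simp at this)
  rw [hform] at h1
  have h5 : (Pi.single i 1 : V3) ⬝ᵥ Pi.single i 1 = 1 := by simp
  have h6 : ∑ m, d m * ((Pi.single i 1 : V3) m * (Pi.single i 1 : V3) m +
      (Pi.single i 1 : V3) m * (Pi.single i 1 : V3) m) = 2 * d i := by
    rw [Finset.sum_eq_single i]
    · simp; ring
    · intro m _ hm
      simp [hm]
    · intro h; exact absurd (Finset.mem_univ i) h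
  rw [h5, h6] at h1
  linarith

/-- Rescaling and orientation. -/
theorem exists_PR (G : LinearMap.BilinForm ℝ (Compl 3 1)) (hs : ∀ X Y, G X Y = G Y X)
    (hp : ∀ X, X ≠ 0 → 0 < G X X) :
    ∃ (P R : M3) (s t : V3), 0 < P.det ∧ 0 < R.det ∧ (∀ i, s i * (1 - t i ^ 2) = 1) ∧
      (∀ i, 1 ≤ s i) ∧ ((∀ i, 0 ≤ t i) ∨ (∀ i, t i ≤ 0)) ∧
      ∀ X Y, G (iota P R X) (iota P R Y) = Gt s t X Y := by
  obtain ⟨P, R, d, hP, hR, hd0, hd1, hform⟩ := exists_PR0 G hs hp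
  have sgn : ∀ x : ℝ, x ≠ 0 → ∃ σ : ℝ, (σ = 1 ∨ σ = -1) ∧ 0 < x * σ := by
    intro x hx
    rcases lt_or_gt_of_ne hx with h | h
    · exact ⟨-1, Or.inr rfl, by linarith⟩
    · exact ⟨1, Or.inl rfl, by linarith⟩
  obtain ⟨σ, hσ, hσp⟩ := sgn _ hP
  obtain ⟨τ, hτ, hτp⟩ := sgn _ hR
  have hσ2 : σ ^ 2 = 1 := by rcases hσ with h | h <;> rw [h] <;> norm_num
  have hτ2 : τ ^ 2 = 1 := by rcases hτ with h | h <;> rw [h] <;> norm_num
  have hpos : ∀ i, 0 < 1 - d i ^ 2 := by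
    intro i
    have a0 := hd0 i
    have a1 := hd1 i
    nlinarith
  obtain ⟨q, hq⟩ : ∃ q : V3, q = fun i => Real.sqrt (1 / (1 - d i ^ 2)) := ⟨_, rfl⟩
  have hq0 : ∀ i, 0 < q i := by
    intro i
    rw [hq]
    exact Real.sqrt_pos.2 (one_div_pos.2 (hpos i))
  have hq2 : ∀ i, q i ^ 2 = 1 / (1 - d i ^ 2) := by
    intro i
    rw [hq]
    exact Real.sq_sqrt (one_div_pos.2 (hpos i)).le
  have hscale : ∀ (P : M3) (σ : ℝ), (σ = 1 ∨ σ = -1) → 0 < P.det * σ →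
      0 < (P * diagonal (fun i => σ * q i)).det := by
    intro P σ h1 h2
    rw [Matrix.det_mul, Matrix.det_diagonal, Fin.prod_univ_three]
    have h3 : σ ^ 2 = 1 := by rcases h1 with h | h <;> rw [h] <;> norm_num
    have h4 : P.det * (σ * q 0 * (σ * q 1) * (σ * q 2)) =
        (P.det * σ) * (q 0 * q 1 * q 2) := by
      linear_combination P.det * σ * q 0 * q 1 * q 2 * h3
    rw [h4]
    exact mul_pos h2 (mul_pos (mul_pos (hq0 0) (hq0 1)) (hq0 2))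
  refine ⟨P * diagonal (fun i => σ * q i), R * diagonal (fun i => τ * q i),
    fun i => 1 / (1 - d i ^ 2), fun i => σ * τ * d i, hscale P σ hσ hσp, hscale R τ hτ hτp,
    ?_, ?_, ?_, ?_⟩
  · intro i
    have h1 : (σ * τ * d i) ^ 2 = d i ^ 2 := by
      linear_combination (τ ^ 2 * d i ^ 2) * hσ2 + d i ^ 2 * hτ2
    simp only [h1]
    exact one_div_mul_cancel (hpos i).ne'
  · intro i
    rw [le_div_iff₀ (hpos i)]
    nlinarith [sq_nonneg (d i)]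
  · rcases hσ with h | h <;> rcases hτ with h' | h'
    · left; intro i; have := hd0 i; simp only [h, h']; linarith
    · right; intro i; have := hd0 i; simp only [h, h']; linarith
    · right; intro i; have := hd0 i; simp only [h, h']; linarith
    · left; intro i; have := hd0 i; simp only [h, h']; linarith
  · intro X Y
    simp only [iota, ← Matrix.mulVec_mulVec]
    rw [hform]
    simp only [Gt, dotProduct, Fin.sum_univ_three, Matrix.mulVec_diagonal]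
    have e : ∀ i, 1 / (1 - d i ^ 2) = q i ^ 2 := fun i => (hq2 i).symm
    simp only [e]
    linear_combination (q 0 ^ 2 * X.1 0 * Y.1 0 + q 1 ^ 2 * X.1 1 * Y.1 1
      + q 2 ^ 2 * X.1 2 * Y.1 2) * hσ2 + (q 0 ^ 2 * X.2 0 * Y.2 0 + q 1 ^ 2 * X.2 1 * Y.2 1
      + q 2 ^ 2 * X.2 2 * Y.2 2) * hτ2

theorem exists_frame (G : LinearMap.BilinForm ℝ (Compl 3 1)) (hs : ∀ X Y, G X Y = G Y X)
    (hp : ∀ X, X ≠ 0 → 0 < G X X) :
    ∃ (P R α β : M3) (s t : V3), 0 < P.det ∧ 0 < R.det ∧ Pᵀ * P = α.adjugate ∧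
      Rᵀ * R = β.adjugate ∧ ((∀ i, 0 ≤ t i) ∨ (∀ i, t i ≤ 0)) ∧ Dat α β s t ∧
      IsFrame G (iota P R) α β s t := by
  obtain ⟨P, R, s, t, hP, hR, hst, h1, hsg, hG⟩ := exists_PR G hs hp
  obtain ⟨α, sa, pa, a1, a2⟩ := exists_alpha P hP
  obtain ⟨β, sb, pb, b1, b2⟩ := exists_alpha R hR
  exact ⟨P, R, α, β, s, t, hP, hR, a2, b2, hsg, ⟨sa, sb, pa, pb, hst, h1⟩,
    isFrame_iota hP hR a1 b1 a2 b2 hG⟩

end Pool.H36.SF
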