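import Pool.Agent.H36.SF.Defs

/-!
`x ↦ 1/x` is 1-Lipschitz on `[1, ∞)`: if `|αx| ≥ |x|` then for diagonal `E` the Hilbert-Schmidt
norms satisfy `‖[E, α⁻¹]‖ ≤ ‖[E, α]‖`, because `[E, α⁻¹] = α⁻¹ [α, E] α⁻¹`.
`hs_mul_le`: column by column, `ha` with `x = A Z ε_k`, `α x = Z ε_k`.
`lip`: `A` is symmetric (`A = α⁻¹`), `A * α = 1`, `Z = α E - E α` (`E` = `diagonal E`),
`E A - A E = A Z A`; `tr((AZA)ᵀ(AZA)) ≤ tr((ZA)ᵀ(ZA)) = tr((AZᵀ)ᵀ(AZᵀ))... ≤ tr(Zᵀ Z)`
(`tr(MᵀM) = tr(MMᵀ)`), and `tr((E A - A E)ᵀ(E A - A E)) = ∑ (E_i - E_j)² A_ij²`.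
-/

namespace Pool.H36.SF

open Matrix Pool.H36.ST

private theorem hs_col (M : M3) :
    (Mᵀ * M).trace = ∑ j, (fun i => M i j) ⬝ᵥ (fun i => M i j) := by
  unfold Matrix.trace
  refine Finset.sum_congr rfl (fun j _ => ?_)
  rw [Matrix.diag_apply, Matrix.mul_apply']
  rfl

/-- `‖A Z‖ ≤ ‖Z‖` if `α A = 1`. -/
theorem hs_mul_le {α A : M3} (h1 : α * A = 1) (ha : ∀ x : V3, x ⬝ᵥ x ≤ (α *ᵥ x) ⬝ᵥ (α *ᵥ x))
    (Z : M3) : ((A * Z)ᵀ * (A * Z)).trace ≤ (Zᵀ * Z).trace := by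
  rw [hs_col, hs_col]
  refine Finset.sum_le_sum (fun j _ => ?_)
  have h2 := ha (fun i => (A * Z) i j)
  have h3 : α *ᵥ (fun i => (A * Z) i j) = fun i => Z i j := by
    funext i
    have h4 : (α * (A * Z)) i j = Z i j := by
      rw [← Matrix.mul_assoc, h1, Matrix.one_mul]
    rw [← h4, Matrix.mul_apply']
    rfl
  rw [h3] at h2
  exact h2

private theorem hs_eq (X : M3) : (Xᵀ * X).trace = ∑ i, ∑ j, X i j ^ 2 := by
  rw [hs_col, Finset.sum_comm]
  refine Finset.sum_congr rfl (fun j _ => ?_)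
  unfold dotProduct
  refine Finset.sum_congr rfl (fun i _ => ?_)
  ring

theorem lip {α A : M3} (sa : αᵀ = α) (h1 : α * A = 1)
    (ha : ∀ x : V3, x ⬝ᵥ x ≤ (α *ᵥ x) ⬝ᵥ (α *ᵥ x)) (E : V3) :
    ∑ i, ∑ j, (E i - E j) ^ 2 * (A i j) ^ 2 ≤ ∑ i, ∑ j, (E i - E j) ^ 2 * (α i j) ^ 2 := by
  have h2 : A * α = 1 := mul_eq_one_comm.1 h1
  have hA : Aᵀ = A := by
    have h3 : Aᵀ * α = 1 := by
      have h4 := congrArg Matrix.transpose h1
      rwa [Matrix.transpose_mul, sa, Matrix.transpose_one] at h4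
    calc Aᵀ = Aᵀ * (α * A) := by rw [h1, Matrix.mul_one]
      _ = A := by rw [← Matrix.mul_assoc, h3, Matrix.one_mul]
  have hZ : diagonal E * A - A * diagonal E = A * ((α * diagonal E - diagonal E * α) * A) := by
    have h3 : A * ((α * diagonal E - diagonal E * α) * A) =
        (A * α) * (diagonal E * A) - A * diagonal E * (α * A) := by
      noncomm_ring
    rw [h3, h1, h2, Matrix.one_mul, Matrix.mul_one]
  have hc : ∀ M : M3, ∑ i, ∑ j, (E i - E j) ^ 2 * (M i j) ^ 2 =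
      ((diagonal E * M - M * diagonal E)ᵀ * (diagonal E * M - M * diagonal E)).trace := by
    intro M
    rw [hs_eq]
    refine Finset.sum_congr rfl (fun i _ => Finset.sum_congr rfl (fun j _ => ?_))
    rw [Matrix.sub_apply, Matrix.diagonal_mul, Matrix.mul_diagonal]
    ring
  rw [hc A, hc α, hZ]
  refine (hs_mul_le h1 ha _).trans ?_
  have h3 : (((α * diagonal E - diagonal E * α) * A)ᵀ * ((α * diagonal E - diagonal E * α) * A)).trace =
      ((A * (α * diagonal E - diagonal E * α)ᵀ)ᵀ * (A * (α * diagonal E - diagonal E * α)ᵀ)).trace := by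
    rw [Matrix.trace_mul_comm]
    congr 1
    rw [Matrix.transpose_mul, Matrix.transpose_mul, Matrix.transpose_transpose, hA]
  rw [h3]
  refine (hs_mul_le h1 ha _).trans ?_
  rw [Matrix.transpose_transpose, Matrix.trace_mul_comm]
  apply le_of_eq
  have h4 : α * diagonal E - diagonal E * α = -(diagonal E * α - α * diagonal E) := by abel
  rw [h4, Matrix.transpose_neg, Matrix.neg_mul, Matrix.mul_neg, neg_neg]

end Pool.H36.SF
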