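import Pool.Agent.H36.SF.Quat
import Pool.Agent.H36.SF.Classify
import Pool.Agent.H36.SF.Frame

/-!
From the classification in a frame to the three inner products.

`α = ρ • 1` and `Pᵀ P = adj α = ρ² • 1`, `det P > 0`, so `P = ρ O` with `O ∈ SO(3)`, and
`mk2 x y = iota P R (ρ₁⁻¹ O₁ᵀ x, ρ₂⁻¹ O₂ᵀ y)`. Then (`G = Gt s t` in these coordinates):
`t = 0`: `G = 2 r⁻² J_1`, `h = 1`; `t = 1/2`: `G = 4 r⁻² J_{1/3} ∘ Ad(h)`, `Ad(h) = (O₁ᵀ, O₂ᵀ)`;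
`α = √2 r, β = r`: `G = r⁻² third ∘ Ad(h)`; `α = r, β = √2 r`: `G = r⁻² third ∘ Ad(w h)`, `w` from
`exists_swap` (`t = √2/2`).
-/

namespace Pool.H36.SF

open Matrix Pool.H36.ST

/-- `P = ρ O`. -/
theorem exists_rot {P : M3} (hP : 0 < P.det) {ρ : ℝ} (hρ : 0 < ρ)
    (h : Pᵀ * P = (ρ • (1 : M3)).adjugate) :
    ∃ O : M3, Oᵀ * O = 1 ∧ O.det = 1 ∧ P = ρ • O := by
  have h1 : Pᵀ * P = (ρ ^ 2) • (1 : M3) := by
    rw [h, Matrix.adjugate_smul, Matrix.adjugate_one]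
    simp
  have hne : ρ ≠ 0 := hρ.ne'
  have ho : (ρ⁻¹ • P)ᵀ * (ρ⁻¹ • P) = 1 := by
    rw [Matrix.transpose_smul, Matrix.smul_mul, Matrix.mul_smul, h1, smul_smul, smul_smul]
    rw [show ρ⁻¹ * ρ⁻¹ * ρ ^ 2 = 1 by field_simp, one_smul]
  refine ⟨ρ⁻¹ • P, ho, ?_, ?_⟩
  · have hd := congrArg Matrix.det ho
    rw [Matrix.det_mul, Matrix.det_transpose, Matrix.det_one] at hd
    have hpos : 0 < (ρ⁻¹ • P).det := by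
      rw [Matrix.det_smul]
      positivity
    nlinarith
  · rw [smul_smul, mul_inv_cancel₀ hne, one_smul]

theorem rot_dot {O : M3} (h : Oᵀ * O = 1) (x y : V3) : (Oᵀ *ᵥ x) ⬝ᵥ (Oᵀ *ᵥ y) = x ⬝ᵥ y := by
  have h1 : O * Oᵀ = 1 := mul_eq_one_comm.1 h
  rw [Matrix.dotProduct_mulVec, Matrix.vecMul_transpose, Matrix.mulVec_mulVec, h1,
    Matrix.one_mulVec]

/-- Coordinates. -/
theorem G_mk2 {G : LinearMap.BilinForm ℝ (Compl 3 1)} {O₁ O₂ : M3} (h1 : O₁ᵀ * O₁ = 1)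
    (h2 : O₂ᵀ * O₂ = 1) {ρ₁ ρ₂ : ℝ} (hρ1 : 0 < ρ₁) (hρ2 : 0 < ρ₂) {s t : V3}
    (hG : ∀ X Y, G (iota (ρ₁ • O₁) (ρ₂ • O₂) X) (iota (ρ₁ • O₁) (ρ₂ • O₂) Y) = Gt s t X Y)
    {s0 t0 : ℝ} (hs : ∀ i, s i = s0) (ht : ∀ i, t i = t0) (x y x' y' : V3) :
    G (mk2 x y) (mk2 x' y') = s0 * (ρ₁⁻¹ ^ 2 * (x ⬝ᵥ x') + ρ₂⁻¹ ^ 2 * (y ⬝ᵥ y')
      - t0 * (ρ₁⁻¹ * ρ₂⁻¹) * ((O₁ᵀ *ᵥ x) ⬝ᵥ (O₂ᵀ *ᵥ y') + (O₁ᵀ *ᵥ x') ⬝ᵥ (O₂ᵀ *ᵥ y))) := by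
  have e1 : O₁ * O₁ᵀ = 1 := mul_eq_one_comm.1 h1
  have e2 : O₂ * O₂ᵀ = 1 := mul_eq_one_comm.1 h2
  have key : ∀ u v : V3, mk2 u v =
      iota (ρ₁ • O₁) (ρ₂ • O₂) (ρ₁⁻¹ • (O₁ᵀ *ᵥ u), ρ₂⁻¹ • (O₂ᵀ *ᵥ v)) := by
    intro u v
    unfold iota
    simp only [Matrix.mulVec_smul, Matrix.mulVec_mulVec, Matrix.smul_mul, e1, e2]
    simp only [Matrix.smul_mulVec, Matrix.one_mulVec, smul_smul]
    rw [inv_mul_cancel₀ hρ1.ne', inv_mul_cancel₀ hρ2.ne', one_smul, one_smul]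
  rw [key x y, key x' y', hG, ← rot_dot h1 x x', ← rot_dot h2 y y']
  unfold Gt
  simp only [hs, ht, Pi.smul_apply, smul_eq_mul, dotProduct, Fin.sum_univ_three]
  ring

theorem exists_pull {G : LinearMap.BilinForm ℝ (Compl 3 1)} {P R α β : M3} {s t : V3}
    (hP : 0 < P.det) (hR : 0 < R.det) (hP2 : Pᵀ * P = α.adjugate) (hR2 : Rᵀ * R = β.adjugate)
    (hG : ∀ X Y, G (iota P R X) (iota P R Y) = Gt s t X Y) {r : ℝ} (hr : 0 < r)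
    (hcl : ((∀ i, s i = 1 ∧ t i = 0) ∧ α = r • 1 ∧ β = r • 1) ∨
      ((∀ i, s i = 4 / 3 ∧ t i = 1 / 2) ∧ α = r • 1 ∧ β = r • 1) ∨
      ((∀ i, s i = 2 ∧ 0 < t i ∧ 2 * t i ^ 2 = 1) ∧
        ((α = r • 1 ∧ β = (r * Real.sqrt 2) • 1) ∨ (α = (r * Real.sqrt 2) • 1 ∧ β = r • 1)))) :
    ∃ (x : ℝ) (h : Matrix (Idx 3 1) (Idx 3 1) ℝ), 0 < x ∧ h * hᵀ = 1 ∧
      (IsPull x h (jensenValue 1) (fun X Y => G X Y) ∨
        IsPull x h (jensenValue (1 / 3)) (fun X Y => G X Y) ∨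
        IsPull x h third (fun X Y => G X Y)) := by
  have tr : ∀ {O : M3}, Oᵀ * O = 1 → Oᵀᵀ * Oᵀ = 1 := by
    intro O h
    rw [Matrix.transpose_transpose]
    exact mul_eq_one_comm.1 h
  have td : ∀ {O : M3}, O.det = 1 → Oᵀ.det = 1 := by
    intro O h
    rw [Matrix.det_transpose, h]
  have hq : 0 < Real.sqrt 2 := by positivity
  have hq2 : Real.sqrt 2 ^ 2 = 2 := Real.sq_sqrt (by norm_num)
  have hqr : 0 < r * Real.sqrt 2 := mul_pos hr hq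
  rcases hcl with ⟨hst, hα, hβ⟩ | ⟨hst, hα, hβ⟩ | ⟨hst, ⟨hα, hβ⟩ | ⟨hα, hβ⟩⟩
  · subst hα hβ
    obtain ⟨O₁, o1, d1, rfl⟩ := exists_rot hP hr hP2
    obtain ⟨O₂, o2, d2, rfl⟩ := exists_rot hR hr hR2
    refine ⟨2 * r⁻¹ ^ 2, 1, by positivity, by simp, Or.inl ?_⟩
    intro X Y
    obtain ⟨x, y, rfl⟩ := exists_mk2 X
    obtain ⟨x', y', rfl⟩ := exists_mk2 Y
    show G (mk2 x y) (mk2 x' y') = _
    rw [G_mk2 o1 o2 hr hr hG (fun i => (hst i).1) (fun i => (hst i).2), conj4_one, conj4_one,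
      jensen1_mk2]
    ring
  · subst hα hβ
    obtain ⟨O₁, o1, d1, rfl⟩ := exists_rot hP hr hP2
    obtain ⟨O₂, o2, d2, rfl⟩ := exists_rot hR hr hR2
    obtain ⟨h, hh, hc⟩ := exists_both (tr o1) (td d1) (tr o2) (td d2)
    refine ⟨4 * r⁻¹ ^ 2, h, by positivity, hh, Or.inr (Or.inl ?_)⟩
    intro X Y
    obtain ⟨x, y, rfl⟩ := exists_mk2 X
    obtain ⟨x', y', rfl⟩ := exists_mk2 Y
    show G (mk2 x y) (mk2 x' y') = _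
    rw [G_mk2 o1 o2 hr hr hG (fun i => (hst i).1) (fun i => (hst i).2), hc, hc,
      jensen3_mk2, rot_dot o1, rot_dot o2]
    ring
  · subst hα hβ
    obtain ⟨O₁, o1, d1, rfl⟩ := exists_rot hP hr hP2
    obtain ⟨O₂, o2, d2, rfl⟩ := exists_rot hR hqr hR2
    obtain ⟨h, hh, hc⟩ := exists_both (tr o1) (td d1) (tr o2) (td d2)
    obtain ⟨w, hw, ew⟩ := exists_swap
    refine ⟨r⁻¹ ^ 2, w * h, by positivity, ?_, Or.inr (Or.inr ?_)⟩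
    · have h3 : w * h * (w * h)ᵀ = w * (h * hᵀ) * wᵀ := by
        simp only [Matrix.transpose_mul, Matrix.mul_assoc]
      rw [h3, hh, Matrix.mul_one, hw]
    · intro X Y
      obtain ⟨x, y, rfl⟩ := exists_mk2 X
      obtain ⟨x', y', rfl⟩ := exists_mk2 Y
      show G (mk2 x y) (mk2 x' y') = _
      have ht : ∀ i, t i = Real.sqrt 2 / 2 := by
        intro i
        obtain ⟨_, hp, h2⟩ := hst i
        have h3 : (t i - Real.sqrt 2 / 2) * (t i + Real.sqrt 2 / 2) = 0 := by nlinarith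
        rcases mul_eq_zero.1 h3 with h4 | h4
        · linarith
        · exfalso
          linarith
      rw [G_mk2 o1 o2 hr hqr hG (fun i => (hst i).1) ht, conj4_mul, conj4_mul, hc, hc, ew, ew,
        third_mk2, rot_dot o1, rot_dot o2, dotProduct_comm (O₂ᵀ *ᵥ y), dotProduct_comm (O₂ᵀ *ᵥ y')]
      have hi : (r * Real.sqrt 2)⁻¹ = r⁻¹ * (Real.sqrt 2 / 2) := by
        field_simp
        linarith
      rw [hi]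
      linear_combination (r⁻¹ ^ 2 * (y ⬝ᵥ y') / 2 - r⁻¹ ^ 2 / 2 * ((O₁ᵀ *ᵥ x) ⬝ᵥ (O₂ᵀ *ᵥ y')
        + (O₁ᵀ *ᵥ x') ⬝ᵥ (O₂ᵀ *ᵥ y))) * hq2
  · subst hα hβ
    obtain ⟨O₁, o1, d1, rfl⟩ := exists_rot hP hqr hP2
    obtain ⟨O₂, o2, d2, rfl⟩ := exists_rot hR hr hR2
    obtain ⟨h, hh, hc⟩ := exists_both (tr o1) (td d1) (tr o2) (td d2)
    refine ⟨r⁻¹ ^ 2, h, by positivity, hh, Or.inr (Or.inr ?_)⟩
    intro X Y
    obtain ⟨x, y, rfl⟩ := exists_mk2 X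
    obtain ⟨x', y', rfl⟩ := exists_mk2 Y
    show G (mk2 x y) (mk2 x' y') = _
    have ht : ∀ i, t i = Real.sqrt 2 / 2 := by
      intro i
      obtain ⟨_, hp, h2⟩ := hst i
      have h3 : (t i - Real.sqrt 2 / 2) * (t i + Real.sqrt 2 / 2) = 0 := by nlinarith
      rcases mul_eq_zero.1 h3 with h4 | h4
      · linarith
      · exfalso
        linarith
    rw [G_mk2 o1 o2 hqr hr hG (fun i => (hst i).1) ht, hc, hc, third_mk2, rot_dot o1, rot_dot o2]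
    have hi : (r * Real.sqrt 2)⁻¹ = r⁻¹ * (Real.sqrt 2 / 2) := by
      field_simp
      linarith
    rw [hi]
    linear_combination (r⁻¹ ^ 2 * (x ⬝ᵥ x') / 2 - r⁻¹ ^ 2 / 2 * ((O₁ᵀ *ᵥ x) ⬝ᵥ (O₂ᵀ *ᵥ y')
      + (O₁ᵀ *ᵥ x') ⬝ᵥ (O₂ᵀ *ᵥ y))) * hq2

end Pool.H36.SF
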