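import Pool.Agent.H36.SF.Conv
import Pool.Agent.H36.SF.Pull
import Pool.Agent.H36.SF.FrameEx

/-!
Classification of the left-invariant Einstein metrics on `SO(4) = V_3 ℝ^4`.
-/

namespace Pool.H36.SF

open Matrix Pool.H36.ST

theorem main_thm (g : Compl 3 1 → Compl 3 1 → ℝ) :
    (IsInvMetric g ∧ IsEin g) ↔ ∃ (x : ℝ) (h : Matrix (Idx 3 1) (Idx 3 1) ℝ), 0 < x ∧
      h * hᵀ = 1 ∧ (IsPull x h (jensenValue 1) g ∨ IsPull x h (jensenValue (1 / 3)) g ∨
        IsPull x h third g) := by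
  constructor
  · rintro ⟨⟨⟨hs, ha, hh, hp⟩, -⟩, he⟩
    obtain ⟨G, hG⟩ := exists_form hs ha hh
    have hGs : ∀ X Y, G X Y = G Y X := fun X Y => by rw [hG, hG, hs]
    obtain ⟨c, d, e, heo, hr⟩ := isEinstein_of_isEin hG he
    obtain ⟨P, R, α, β, s, t, hP, hR, hP2, hR2, hsg, hD, hF⟩ := exists_frame G hGs
      (fun X hX => by rw [hG]; exact hp X hX)
    have hc := einstein_frame hF hGs hD.st hD.s1 e heo hr
    have hc' := einstein_frame hF.swap hGs hD.st hD.s1 e heo hr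
    obtain ⟨r, hr0, hcl⟩ := classify hD hsg hc hc'
    obtain ⟨x, h, hx, hh2, hpull⟩ := exists_pull hP hR hP2 hR2 hF.gg hr0 hcl
    refine ⟨x, h, hx, hh2, ?_⟩
    have hfun : (fun X Y => G X Y) = g := by
      funext X Y
      exact hG X Y
    rwa [hfun] at hpull
  · rintro ⟨x, h, hx, hh, hp⟩
    have hI := inner_pull hx hh hp
    obtain ⟨G, hG⟩ := exists_form hI.1 hI.2.1 hI.2.2.1
    have hfun : (fun X Y => G X Y) = g := by
      funext X Y
      exact hG X Y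
    refine ⟨⟨hI, fun k _ hk X Y => ?_⟩, isEin_of_isEinstein hG (einstein_pull hx hh (by rwa [hfun]))⟩
    rw [Ad_one_by_one k hk, Ad_one_by_one k hk]

end Pool.H36.SF
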