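import Pool.Agent.H36.SF.Defs

/-!
Basic facts about `mk2`.
-/

namespace Pool.H36.SF

open Matrix Pool.H36.ST

theorem mk2_eq (x y : V3) :
    mk2 x y = mk ((1 / 2 : ℝ) • (x + y)) (fun _ => (1 / 2 : ℝ) • (x - y)) := rfl

theorem exists_mk2 (X : Compl 3 1) : ∃ x y, X = mk2 x y := by
  obtain ⟨u, z, h⟩ := exists_mk X
  refine ⟨u + z 0, u - z 0, ?_⟩
  rw [h, mk2]
  congr 1
  · ext i
    simp
    ring
  · funext i
    have : i = 0 := Subsingleton.elim _ _
    subst this
    ext a
    simp
    ring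

theorem mk2_add (x y x' y' : V3) : mk2 (x + x') (y + y') = mk2 x y + mk2 x' y' := by
  rw [mk2, mk2, mk2, ← mk_add]
  congr 1
  · ext i
    simp
    ring
  · funext i
    ext a
    simp
    ring

theorem mk2_smul (c : ℝ) (x y : V3) : mk2 (c • x) (c • y) = c • mk2 x y := by
  rw [mk2, mk2, ← mk_smul]
  congr 1
  · ext i
    simp
    ring
  · funext i
    ext a
    simp
    ring

theorem mk2_inj {x y x' y' : V3} (h : mk2 x y = mk2 x' y') : x = x' ∧ y = y' := by
  rw [mk2, mk2] at h
  obtain ⟨h1, h2⟩ := mk_inj h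
  have h3 := congrFun h2 0
  constructor
  · ext i
    have a1 := congrFun h1 i
    have a2 := congrFun h3 i
    simp at a1 a2
    linarith
  · ext i
    have a1 := congrFun h1 i
    have a2 := congrFun h3 i
    simp at a1 a2
    linarith

theorem bracket_mk2 (x y x' y' : V3) :
    bracket (mk2 x y) (mk2 x' y') = mk2 (crossProduct x x') (crossProduct y y') := by
  rw [mk2, mk2, bracket_mk, mk2]
  congr 1
  · ext i
    fin_cases i <;> simp [cross_apply] <;> ring
  · funext l
    ext i
    fin_cases i <;> simp [cross_apply] <;> ring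

theorem killing_mk2 (x y : V3) : killing (mk2 x y) = -2 * (x ⬝ᵥ x + y ⬝ᵥ y) := by
  rw [mk2, killing_mk]
  simp [dotProduct, Fin.sum_univ_three]
  ring

end Pool.H36.SF
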