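import Pool.Agent.H36.SF.Sys

/-!
Larger `s` means smaller `a`, `b` and larger `s a`, `s b`.

Let `x = a_3 - a_1`, `y = b_3 - b_1`, `α' = 1 - 1/(a_1 a_3) ≥ 0`, `β' = 1 - 1/(b_1 b_3) ≥ 0`.
`A1/a_1 - A3/a_3` gives `α' x = (s_1 a_1 - s_3 a_3) - D (s_1 b_1 - s_3 b_3)`, in product form
`xid`; the same for `b`. Since `s_1 a_1 - s_3 a_3 = - s_3 x + (s_1 - s_3) a_1`:
`(s_3 + α') x - D s_3 y = (s_1 - s_3)(a_1 - D b_1) ≥ 0`, `(s_3 + β') y - D s_3 x ≥ 0`, so `x, y ≥ 0`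
(consider the smaller one). With `A = s_1 a_1 - s_3 a_3`, `B = s_1 b_1 - s_3 b_3`:
`A = α' x + D B`, `B = β' y + D A`, so `(1 - D²) A = α' x + D β' y ≥ 0`.
-/

namespace Pool.H36.SF

namespace Sys3

variable {a1 a2 a3 b1 b2 b3 s1 s2 s3 D : ℝ}

theorem xid (h : Sys3 a1 a2 a3 b1 b2 b3 s1 s2 s3 D) :
    (a1 * a3 - 1) * (a3 - a1) =
      (a1 * a3) * ((s1 * a1 - s3 * a3) - D * (s1 * b1 - s3 * b3)) := by
  linear_combination a3 * h.A1 - a1 * h.A3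

private theorem mono_aux (h : Sys3 a1 a2 a3 b1 b2 b3 s1 s2 s3 D) (hs : s3 ≤ s1)
    (hxy : a3 - a1 ≤ b3 - b1) : a1 ≤ a3 := by
  by_contra hneg
  push Not at hneg
  have h1 := h.ha1
  have h3 := h.ha3
  have hD := h.hD
  have hD1 := h.D_lt_one
  have hs3 := h.hs3
  have hg := h.a_gt
  have hP : 1 ≤ a1 * a3 := by nlinarith
  have e1 : (s3 * (a1 * a3) + (a1 * a3 - 1)) * (a3 - a1) - D * s3 * (a1 * a3) * (b3 - b1) =
      (a1 * a3) * ((s1 - s3) * (a1 - D * b1)) := by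
    linear_combination h.xid
  have e2 : 0 ≤ (a1 * a3) * ((s1 - s3) * (a1 - D * b1)) := by
    have e3 : 0 ≤ (s1 - s3) * (a1 - D * b1) := mul_nonneg (by linarith) (by linarith)
    exact mul_nonneg (by linarith) e3
  have e4 : D * s3 * (a1 * a3) * (a3 - a1) ≤ D * s3 * (a1 * a3) * (b3 - b1) :=
    mul_le_mul_of_nonneg_left hxy (by positivity)
  have e5 : 0 < s3 * (a1 * a3) * (1 - D) + (a1 * a3 - 1) := by
    have e6 : 0 < s3 * (a1 * a3) * (1 - D) := mul_pos (by positivity) (by linarith)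
    linarith
  have e7 : 0 ≤ (s3 * (a1 * a3) * (1 - D) + (a1 * a3 - 1)) * (a3 - a1) := by
    have e8 : (s3 * (a1 * a3) * (1 - D) + (a1 * a3 - 1)) * (a3 - a1) =
        (s3 * (a1 * a3) + (a1 * a3 - 1)) * (a3 - a1) - D * s3 * (a1 * a3) * (a3 - a1) := by ring
    rw [e8]
    linarith
  have e9 : (s3 * (a1 * a3) * (1 - D) + (a1 * a3 - 1)) * (a3 - a1) < 0 :=
    mul_neg_of_pos_of_neg e5 (by linarith)
  linarith

theorem mono (h : Sys3 a1 a2 a3 b1 b2 b3 s1 s2 s3 D) (hs : s3 ≤ s1) : a1 ≤ a3 ∧ b1 ≤ b3 := by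
  rcases le_total (a3 - a1) (b3 - b1) with hxy | hxy
  · have h1 := h.mono_aux hs hxy
    exact ⟨h1, by linarith⟩
  · have h1 := h.flip.mono_aux hs hxy
    exact ⟨by linarith, h1⟩

theorem mono' (h : Sys3 a1 a2 a3 b1 b2 b3 s1 s2 s3 D) (hs : s3 ≤ s1) :
    s3 * a3 ≤ s1 * a1 ∧ s3 * b3 ≤ s1 * b1 := by
  obtain ⟨hx, hy⟩ := h.mono hs
  have h1 := h.ha1
  have h3 := h.ha3
  have h1' := h.hb1
  have h3' := h.hb3
  have hD := h.hD
  have hD1 := h.D_lt_one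
  have hP : 1 ≤ a1 * a3 := by nlinarith
  have hQ : 1 ≤ b1 * b3 := by nlinarith
  have e1 : 0 ≤ (s1 * a1 - s3 * a3) - D * (s1 * b1 - s3 * b3) := by
    have e2 : 0 ≤ (a1 * a3) * ((s1 * a1 - s3 * a3) - D * (s1 * b1 - s3 * b3)) := by
      rw [← h.xid]
      exact mul_nonneg (by linarith) (by linarith)
    exact nonneg_of_mul_nonneg_right e2 (by linarith)
  have e1' : 0 ≤ (s1 * b1 - s3 * b3) - D * (s1 * a1 - s3 * a3) := by
    have e2 : 0 ≤ (b1 * b3) * ((s1 * b1 - s3 * b3) - D * (s1 * a1 - s3 * a3)) := by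
      rw [← h.flip.xid]
      exact mul_nonneg (by linarith) (by linarith)
    exact nonneg_of_mul_nonneg_right e2 (by linarith)
  have hDD : 0 < 1 - D ^ 2 := by nlinarith
  constructor
  · have e3 : 0 ≤ (1 - D ^ 2) * (s1 * a1 - s3 * a3) := by
      have e4 := mul_nonneg hD.le e1'
      nlinarith
    have := nonneg_of_mul_nonneg_right e3 hDD
    linarith
  · have e3 : 0 ≤ (1 - D ^ 2) * (s1 * b1 - s3 * b3) := by
      have e4 := mul_nonneg hD.le e1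
      nlinarith
    have := nonneg_of_mul_nonneg_right e3 hDD
    linarith

end Sys3

end Pool.H36.SF
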