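import Pool.Agent.H36.SF.Sys

/-!
If `a ≠ b` then `D < 1/2`.

Let `d_i = a_i - b_i`, `δ = d_1 + d_2 + d_3`, `w_i = 1 + s_i (1 + D) - 1/(a_i b_i)`. `A_i/a_i - B_i/b_i`
gives `d_i w_i = δ` (`did` in product form). `w_i ≥ s_i (1 + D) > 0`, so `d_i d_j ≥ 0`. If some
`d_i ≠ 0` then `δ ≠ 0` and `∑ 1/w_i = 1`, so `∑ 1/s_i ≥ 1 + D`. With `m_i = 1 - 1/s_i`,
`D² = m_1 m_2 m_3` (`hDD`) and `∑ m_i ≤ 2 - D`, AM-GM `27 m_1 m_2 m_3 ≤ (m_1 + m_2 + m_3)³`: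
`27 D² ≤ (2 - D)³`, which is false for `1/2 ≤ D ≤ 1`.
-/

namespace Pool.H36.SF

namespace Sys3

variable {a1 a2 a3 b1 b2 b3 s1 s2 s3 D : ℝ}

theorem did (h : Sys3 a1 a2 a3 b1 b2 b3 s1 s2 s3 D) :
    (a1 - b1) * ((1 + s1 * (1 + D)) * (a1 * b1) - 1) =
      (a1 * b1) * ((a1 - b1) + (a2 - b2) + (a3 - b3)) := by
  linear_combination a1 * h.B1 - b1 * h.A1

private theorem wpos (h : Sys3 a1 a2 a3 b1 b2 b3 s1 s2 s3 D) :
    0 < (1 + s1 * (1 + D)) * (a1 * b1) - 1 := by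
  have h1 := h.ha1
  have h2 := h.hb1
  have h3 := h.hs1
  have h4 := h.hD
  have e1 : 1 ≤ a1 * b1 := by nlinarith
  have e2 : 0 < s1 * (1 + D) := by positivity
  nlinarith

theorem dd (h : Sys3 a1 a2 a3 b1 b2 b3 s1 s2 s3 D) : 0 ≤ (a1 - b1) * (a2 - b2) := by
  have w1 := h.wpos
  have w2 := h.p12.wpos
  have e1 := h.did
  have e2 := h.p12.did
  have h1 := h.ha1
  have h2 := h.hb1
  have h3 := h.ha2
  have h4 := h.hb2
  have e3 : ((1 + s1 * (1 + D)) * (a1 * b1) - 1) * ((1 + s2 * (1 + D)) * (a2 * b2) - 1) *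
      ((a1 - b1) * (a2 - b2)) =
      (a1 * b1) * (a2 * b2) * ((a1 - b1) + (a2 - b2) + (a3 - b3)) ^ 2 := by
    calc _ = ((a1 - b1) * ((1 + s1 * (1 + D)) * (a1 * b1) - 1)) *
          ((a2 - b2) * ((1 + s2 * (1 + D)) * (a2 * b2) - 1)) := by ring
      _ = _ := by
        rw [e1, e2]
        ring
  have e4 : 0 ≤ ((1 + s1 * (1 + D)) * (a1 * b1) - 1) * ((1 + s2 * (1 + D)) * (a2 * b2) - 1) *
      ((a1 - b1) * (a2 - b2)) := by
    rw [e3]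
    positivity
  exact nonneg_of_mul_nonneg_right e4 (mul_pos w1 w2)

/-- `|d_1| s_1 (1 + D) ≤ |δ|` in the form with the product `d_1 δ`. -/
private theorem inv_le (h : Sys3 a1 a2 a3 b1 b2 b3 s1 s2 s3 D) :
    s1 * (1 + D) * ((a1 - b1) * ((a1 - b1) + (a2 - b2) + (a3 - b3))) ≤
      ((a1 - b1) + (a2 - b2) + (a3 - b3)) ^ 2 := by
  have h1 := h.ha1
  have h2 := h.hb1
  have h3 := h.hs1
  have h4 := h.hD
  have w := h.wpos
  have e1 := h.did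
  obtain ⟨δ, hδ⟩ : ∃ δ : ℝ, δ = (a1 - b1) + (a2 - b2) + (a3 - b3) := ⟨_, rfl⟩
  obtain ⟨P, hP⟩ : ∃ P : ℝ, P = a1 * b1 := ⟨_, rfl⟩
  obtain ⟨d, hd⟩ : ∃ d : ℝ, d = a1 - b1 := ⟨_, rfl⟩
  have hP1 : 1 ≤ P := by
    rw [hP]
    nlinarith
  rw [← hδ, ← hd, ← hP] at e1
  rw [← hP] at w
  rw [← hδ, ← hd]
  -- `d w = P δ`, `w ≥ s (1+D) P`
  have hdδ : 0 ≤ d * δ := by
    have e2 : (P * δ) * δ = (d * δ) * ((1 + s1 * (1 + D)) * P - 1) := by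
      rw [← e1]
      ring
    have e3 : 0 ≤ (d * δ) * ((1 + s1 * (1 + D)) * P - 1) := by
      rw [← e2]
      have : (P * δ) * δ = P * δ ^ 2 := by ring
      rw [this]
      positivity
    exact nonneg_of_mul_nonneg_left e3 w
  have e4 : P * (s1 * (1 + D) * (d * δ)) ≤ P * δ ^ 2 := by
    have e5 : P * δ ^ 2 = (d * δ) * ((1 + s1 * (1 + D)) * P - 1) := by
      calc P * δ ^ 2 = (P * δ) * δ := by ring
        _ = _ := by
          rw [← e1]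
          ring
    rw [e5]
    have e6 : 0 ≤ (d * δ) * (P - 1) := mul_nonneg hdδ (by linarith)
    nlinarith
  exact le_of_mul_le_mul_left e4 (by linarith)

theorem D_lt_half (h : Sys3 a1 a2 a3 b1 b2 b3 s1 s2 s3 D) (hne : a1 ≠ b1) : D < 1 / 2 := by
  have hs1 := h.hs1
  have hs2 := h.hs2
  have hs3 := h.hs3
  have hD := h.hD
  have hδ0 : (a1 - b1) + (a2 - b2) + (a3 - b3) ≠ 0 := by
    intro h0
    have e1 := h.did
    rw [h0, mul_zero] at e1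
    rcases mul_eq_zero.1 e1 with h1 | h1
    · exact hne (by linarith)
    · exact h.wpos.ne' h1
  have i1 := h.inv_le
  have i2 := h.p12.inv_le
  have i3 := h.p23.p12.inv_le
  obtain ⟨δ, hδ⟩ : ∃ δ : ℝ, δ = (a1 - b1) + (a2 - b2) + (a3 - b3) := ⟨_, rfl⟩
  have hδ2 : (a2 - b2) + (a1 - b1) + (a3 - b3) = δ := by rw [hδ]; ring
  have hδ3 : (a3 - b3) + (a1 - b1) + (a2 - b2) = δ := by rw [hδ]; ring
  rw [← hδ] at hδ0 i1
  rw [hδ2] at i2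
  rw [hδ3] at i3
  have hδp : 0 < δ ^ 2 := by positivity
  have hsum : (1 + D) ≤ 1 / s1 + 1 / s2 + 1 / s3 := by
    have j1 : (1 + D) * ((a1 - b1) * δ) ≤ δ ^ 2 * (1 / s1) := by
      rw [mul_one_div, le_div_iff₀ (by linarith)]
      linarith
    have j2 : (1 + D) * ((a2 - b2) * δ) ≤ δ ^ 2 * (1 / s2) := by
      rw [mul_one_div, le_div_iff₀ (by linarith)]
      linarith
    have j3 : (1 + D) * ((a3 - b3) * δ) ≤ δ ^ 2 * (1 / s3) := by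
      rw [mul_one_div, le_div_iff₀ (by linarith)]
      linarith
    have j4 : δ ^ 2 * (1 + D) ≤ δ ^ 2 * (1 / s1 + 1 / s2 + 1 / s3) := by
      have j5 : δ ^ 2 * (1 + D) = (1 + D) * ((a1 - b1) * δ) + (1 + D) * ((a2 - b2) * δ) +
          (1 + D) * ((a3 - b3) * δ) := by
        rw [hδ]
        ring
      rw [j5]
      linarith
    exact le_of_mul_le_mul_left j4 hδp
  obtain ⟨m1, hm1⟩ : ∃ m : ℝ, m = 1 - 1 / s1 := ⟨_, rfl⟩
  obtain ⟨m2, hm2⟩ : ∃ m : ℝ, m = 1 - 1 / s2 := ⟨_, rfl⟩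
  obtain ⟨m3, hm3⟩ : ∃ m : ℝ, m = 1 - 1 / s3 := ⟨_, rfl⟩
  have p1 : 0 < m1 := by
    rw [hm1, sub_pos, div_lt_one (by linarith)]
    exact hs1
  have p2 : 0 < m2 := by
    rw [hm2, sub_pos, div_lt_one (by linarith)]
    exact hs2
  have p3 : 0 < m3 := by
    rw [hm3, sub_pos, div_lt_one (by linarith)]
    exact hs3
  have hprod : D ^ 2 = m1 * m2 * m3 := by
    have e1 := h.hDD
    have z1 : s1 ≠ 0 := by linarith
    have z2 : s2 ≠ 0 := by linarith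
    have z3 : s3 ≠ 0 := by linarith
    rw [hm1, hm2, hm3]
    field_simp
    linear_combination e1
  have hle : m1 + m2 + m3 ≤ 2 - D := by
    rw [hm1, hm2, hm3]
    linarith
  have amgm : 27 * (m1 * m2 * m3) ≤ (m1 + m2 + m3) ^ 3 := by
    have k1 : 0 ≤ m1 * (m2 - m3) ^ 2 := by positivity
    have k2 : 0 ≤ m2 * (m1 - m3) ^ 2 := by positivity
    have k3 : 0 ≤ m3 * (m1 - m2) ^ 2 := by positivity
    have k4 : 0 ≤ (m1 + m2 + m3) * ((m1 - m2) ^ 2 + (m2 - m3) ^ 2 + (m1 - m3) ^ 2) := by positivity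
    nlinarith
  by_contra hD2
  push Not at hD2
  have l1 : (m1 + m2 + m3) ^ 3 ≤ (3 / 2 : ℝ) ^ 3 :=
    pow_le_pow_left₀ (by positivity) (by linarith) 3
  have l2 : (1 / 2 : ℝ) ^ 2 ≤ D ^ 2 := pow_le_pow_left₀ (by norm_num) hD2 2
  rw [← hprod] at amgm
  norm_num at l1 l2
  linarith

end Sys3

end Pool.H36.SF
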