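import Pool.Agent.H36.SF.Lip

/-!
The structure matrices are diagonal.

With `A = α⁻¹ = S_α`, `B = β⁻¹ = S_β` the off-diagonal entries are
`A_ij = -(1 + p) α_ij + r β_ij`, `B_ij = -(1 + p) β_ij + r α_ij`, `p = (s_i + s_j)/2`,
`r = t_k (p - 1)`, so `|r| ≤ p - 1` and `A_ij² + B_ij² ≥ 4 (α_ij² + β_ij²)`. Use `lip` for `α` and
for `β` with `E = ![0, 1, 3]`.
-/

namespace Pool.H36.SF

open Matrix Pool.H36.ST

variable {α β : M3} {s t : V3}

private theorem tau_eq {i j k : Fin 3} (hij : i ≠ j) (hik : i ≠ k) (hjk : j ≠ k) (t : V3) :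
    tau t i = t j * t k := by
  fin_cases i <;> fin_cases j <;> fin_cases k <;>
    first
    | exact absurd rfl hij
    | exact absurd rfl hik
    | exact absurd rfl hjk
    | (simp [tau]; try ring)

theorem off_entry (hst : ∀ i, s i * (1 - t i ^ 2) = 1) {i j k : Fin 3} (hij : i ≠ j)
    (hik : i ≠ k) (hjk : j ≠ k) :
    (Sa α β s t) i j = -(1 + (s i + s j) / 2) * α i j
      + t k * ((s i + s j) / 2 - 1) * β i j := by
  have h1 : tau t i = t j * t k := tau_eq hij hik hjk t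
  have h2 : tau t j = t i * t k := tau_eq hij.symm hjk hik t
  unfold Sa
  simp only [Matrix.add_apply, Matrix.sub_apply, Matrix.smul_apply, Matrix.diagonal_mul,
    Matrix.mul_diagonal, Matrix.one_apply_ne hij, smul_eq_mul, h1, h2]
  linear_combination (-(1 / 2 : ℝ) * t k * β i j) * hst i + (-(1 / 2 : ℝ) * t k * β i j) * hst j

theorem four_le {x y p r : ℝ} (hp : 1 ≤ p) (hr : |r| ≤ p - 1) :
    4 * (x ^ 2 + y ^ 2) ≤ (-(1 + p) * x + r * y) ^ 2 + (-(1 + p) * y + r * x) ^ 2 := by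
  obtain ⟨h1, h2⟩ := abs_le.1 hr
  rcases le_total 0 r with h | h
  · have e1 : (-(1 + p) * x + r * y) ^ 2 + (-(1 + p) * y + r * x) ^ 2 - 4 * (x ^ 2 + y ^ 2) =
        ((1 + p - r) ^ 2 - 4) * (x ^ 2 + y ^ 2) + 2 * ((1 + p) * r) * (x - y) ^ 2 := by ring
    have e2 : 0 ≤ (1 + p - r) ^ 2 - 4 := by nlinarith
    have e3 : 0 ≤ ((1 + p - r) ^ 2 - 4) * (x ^ 2 + y ^ 2) := by positivity
    have e4 : 0 ≤ 2 * ((1 + p) * r) * (x - y) ^ 2 := by positivity
    linarith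
  · have e1 : (-(1 + p) * x + r * y) ^ 2 + (-(1 + p) * y + r * x) ^ 2 - 4 * (x ^ 2 + y ^ 2) =
        ((1 + p + r) ^ 2 - 4) * (x ^ 2 + y ^ 2) + 2 * ((1 + p) * (-r)) * (x + y) ^ 2 := by ring
    have e2 : 0 ≤ (1 + p + r) ^ 2 - 4 := by nlinarith
    have e3 : 0 ≤ ((1 + p + r) ^ 2 - 4) * (x ^ 2 + y ^ 2) := by positivity
    have e5 : 0 ≤ -r := by linarith
    have e4 : 0 ≤ 2 * ((1 + p) * (-r)) * (x + y) ^ 2 := by positivity
    linarith

theorem off_zero (sa : αᵀ = α) (sb : βᵀ = β) (hst : ∀ i, s i * (1 - t i ^ 2) = 1)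
    (hs : ∀ i, 1 ≤ s i) (ha : ∀ x : V3, x ⬝ᵥ x ≤ (α *ᵥ x) ⬝ᵥ (α *ᵥ x))
    (hb : ∀ x : V3, x ⬝ᵥ x ≤ (β *ᵥ x) ⬝ᵥ (β *ᵥ x)) (h1 : Sa α β s t * α = 1)
    (h2 : Sa β α s t * β = 1) {i j : Fin 3} (hij : i ≠ j) : α i j = 0 ∧ β i j = 0 := by
  have h1' : α * Sa α β s t = 1 := mul_eq_one_comm.1 h1
  have h2' : β * Sa β α s t = 1 := mul_eq_one_comm.1 h2
  let E : V3 := ![0, 1, 3]
  have l1 := lip sa h1' ha E
  have l2 := lip sb h2' hb E
  have ht : ∀ k, |t k| ≤ 1 := by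
    intro k
    have e1 := hst k
    have e2 := hs k
    rw [abs_le_one_iff_mul_self_le_one]
    by_contra hneg
    push Not at hneg
    nlinarith
  have key : ∀ i j : Fin 3, i ≠ j →
      4 * (α i j ^ 2 + β i j ^ 2) ≤ Sa α β s t i j ^ 2 + Sa β α s t i j ^ 2 := by
    intro i j hij
    obtain ⟨k, hik, hjk⟩ : ∃ k : Fin 3, i ≠ k ∧ j ≠ k := by
      revert i j
      decide
    rw [off_entry hst hij hik hjk, off_entry hst hij hik hjk]
    have e1 := hs i
    have e2 := hs j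
    have e3 : |t k * ((s i + s j) / 2 - 1)| ≤ (s i + s j) / 2 - 1 := by
      rw [abs_mul, abs_of_nonneg (by linarith : 0 ≤ (s i + s j) / 2 - 1)]
      have := mul_le_mul_of_nonneg_right (ht k) (by linarith : 0 ≤ (s i + s j) / 2 - 1)
      linarith
    exact four_le (by linarith) e3
  have hsum : ∑ i, ∑ j, (E i - E j) ^ 2 * (3 * (α i j ^ 2 + β i j ^ 2)) ≤ 0 := by
    have e1 : ∑ i, ∑ j, (E i - E j) ^ 2 * (4 * (α i j ^ 2 + β i j ^ 2)) ≤
        ∑ i, ∑ j, (E i - E j) ^ 2 * (Sa α β s t i j ^ 2 + Sa β α s t i j ^ 2) := by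
      refine Finset.sum_le_sum (fun i _ => Finset.sum_le_sum (fun j _ => ?_))
      by_cases h : i = j
      · rw [h, sub_self]
        simp
      · exact mul_le_mul_of_nonneg_left (key i j h) (sq_nonneg _)
    have e2 : ∑ i, ∑ j, (E i - E j) ^ 2 * (Sa α β s t i j ^ 2 + Sa β α s t i j ^ 2) ≤
        ∑ i, ∑ j, (E i - E j) ^ 2 * (α i j ^ 2 + β i j ^ 2) := by
      simp only [mul_add, Finset.sum_add_distrib]
      exact add_le_add l1 l2
    have e3 : ∑ i, ∑ j, (E i - E j) ^ 2 * (3 * (α i j ^ 2 + β i j ^ 2)) =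
        ∑ i, ∑ j, (E i - E j) ^ 2 * (4 * (α i j ^ 2 + β i j ^ 2)) -
          ∑ i, ∑ j, (E i - E j) ^ 2 * (α i j ^ 2 + β i j ^ 2) := by
      rw [← Finset.sum_sub_distrib]
      refine Finset.sum_congr rfl (fun i _ => ?_)
      rw [← Finset.sum_sub_distrib]
      refine Finset.sum_congr rfl (fun j _ => ?_)
      ring
    rw [e3]
    linarith
  have hle : (E i - E j) ^ 2 * (3 * (α i j ^ 2 + β i j ^ 2)) ≤
      ∑ i, ∑ j, (E i - E j) ^ 2 * (3 * (α i j ^ 2 + β i j ^ 2)) := by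
    refine le_trans ?_ (Finset.single_le_sum
      (f := fun i => ∑ j, (E i - E j) ^ 2 * (3 * (α i j ^ 2 + β i j ^ 2))) (fun i _ => ?_) (Finset.mem_univ i))
    · exact Finset.single_le_sum (f := fun j => (E i - E j) ^ 2 * (3 * (α i j ^ 2 + β i j ^ 2)))
        (fun j _ => by positivity) (Finset.mem_univ j)
    · exact Finset.sum_nonneg (fun j _ => by positivity)
  have hE : 0 < (E i - E j) ^ 2 := by
    have : E i - E j ≠ 0 := by
      fin_cases i <;> fin_cases j <;>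
        first
        | exact absurd rfl hij
        | (simp [E] <;> norm_num)
    positivity
  have h3 : α i j ^ 2 + β i j ^ 2 ≤ 0 := by
    by_contra hneg
    push Not at hneg
    have : 0 < (E i - E j) ^ 2 * (3 * (α i j ^ 2 + β i j ^ 2)) := by positivity
    linarith
  constructor
  · have := sq_nonneg (β i j)
    exact pow_eq_zero_iff two_ne_zero |>.1 (le_antisymm (by linarith) (sq_nonneg _))
  · have := sq_nonneg (α i j)
    exact pow_eq_zero_iff two_ne_zero |>.1 (le_antisymm (by linarith) (sq_nonneg _))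

end Pool.H36.SF
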