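import Pool.Agent.H36.SF.Mono
import Pool.Agent.H36.SF.NonSym

/-!
The case `D < 1/2`: `s_1 ≥ s_2 ≥ s_3`, `s_1 > s_3` is impossible.

Put `x = a_3 - a_1 ≥ 0`, `y = b_3 - b_1 ≥ 0`, `A = s_1 a_1 - s_3 a_3 ≥ 0`, `B = s_1 b_1 - s_3 b_3 ≥ 0`
(`mono`, `mono'`), `Pa = a_1 a_3`, `Pb = b_1 b_3`.
1. (`psi`) `T1 - T3`: `(s_1 - s_3)(3 - Pa - Pb) = a_2 (A + x) + b_2 (B + y)`.
2. (`star`) `(s_1 - s_3)(a_1 + a_3) = 2A + (s_1 + s_3) x`, same for `b`, `s_1 + s_3 ≥ 2`, so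
   `(s_1 + s_3)(a_2 (A + x) + b_2 (B + y)) ≥ (s_1 - s_3)(a_2 (a_1 + a_3) + b_2 (b_1 + b_3))`, hence
   `(s_1 + s_3)(3 - Pa - Pb) ≥ a_2 (a_1 + a_3) + b_2 (b_1 + b_3)`.
3. (`star2`) `f_i = a_i + b_i`, `d_i = a_i - b_i`, `d_i d_j ≥ 0` (`dd`), `Pa + Pb = (f_1 f_3 + d_1 d_3)/2`,
   `a_2 (a_1 + a_3) + b_2 (b_1 + b_3) = (f_2 (f_1 + f_3) + d_2 (d_1 + d_3))/2`, so
   `(s_1 + s_3)(6 - f_1 f_3) ≥ f_2 (f_1 + f_3)`.
4. (`sbound`) `A1/a_1 + B1/b_1`: `s_1 (1 - D) f_1 = f_2 + f_3 - (1/a_1 + 1/b_1) ≤ f_2 + f_3 - 4/f_1`,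
   i.e. `s_1 (1 - D) f_1² ≤ f_1 (f_2 + f_3) - 4`.
5. `Q = f_1 f_3 ≥ 4`, `G = f_2 (f_1 + f_3)`, `H = f_1² + f_3²`:
   `(s_1 + s_3)(1 - D) Q² ≤ f_3² (f_1 (f_2 + f_3) - 4) + f_1² (f_3 (f_1 + f_2) - 4) = G Q + H (Q - 4)`,
   `G ≥ f_1² + Q` (`f_2 ≥ f_1`), `G Q - 4 H ≥ (Q - 4) f_1² + f_3² (f_1² - 4) ≥ 0`, so
   `(s_1 + s_3)(1 - D) Q² ≤ G Q²/4`, and `G ≤ (s_1 + s_3)(6 - Q) ≤ 2 (s_1 + s_3)`: `4 (1 - D) ≤ 2`.
-/

namespace Pool.H36.SF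

namespace Sys3

variable {a1 a2 a3 b1 b2 b3 s1 s2 s3 D : ℝ}

theorem psi (h : Sys3 a1 a2 a3 b1 b2 b3 s1 s2 s3 D) :
    (s1 - s3) * (3 - a1 * a3 - b1 * b3) =
      a2 * ((s1 * a1 - s3 * a3) + (a3 - a1)) + b2 * ((s1 * b1 - s3 * b3) + (b3 - b1)) := by
  linear_combination (-1) * h.T1 + h.T3

theorem star (h : Sys3 a1 a2 a3 b1 b2 b3 s1 s2 s3 D) (hs : s3 < s1) :
    a2 * (a1 + a3) + b2 * (b1 + b3) ≤ (s1 + s3) * (3 - a1 * a3 - b1 * b3) := by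
  obtain ⟨m1, m2⟩ := h.mono hs.le
  obtain ⟨m3, m4⟩ := h.mono' hs.le
  have hp := h.psi
  have h1 := h.hs1
  have h3 := h.hs3
  have ha := h.ha2
  have hb := h.hb2
  have e : (s1 - s3) * ((s1 + s3) * (3 - a1 * a3 - b1 * b3) -
      (a2 * (a1 + a3) + b2 * (b1 + b3))) =
      (s1 + s3 - 2) * (a2 * (s1 * a1 - s3 * a3) + b2 * (s1 * b1 - s3 * b3)) := by
    linear_combination (s1 + s3) * hp
  have e1 : 0 ≤ (s1 + s3 - 2) * (a2 * (s1 * a1 - s3 * a3) + b2 * (s1 * b1 - s3 * b3)) := by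
    refine mul_nonneg (by linarith) (add_nonneg (mul_nonneg (by linarith) (by linarith))
      (mul_nonneg (by linarith) (by linarith)))
  rw [← e] at e1
  have e2 := nonneg_of_mul_nonneg_right e1 (by linarith : 0 < s1 - s3)
  linarith

theorem star2 (h : Sys3 a1 a2 a3 b1 b2 b3 s1 s2 s3 D) (hs : s3 < s1) :
    (a2 + b2) * ((a1 + b1) + (a3 + b3)) ≤ (s1 + s3) * (6 - (a1 + b1) * (a3 + b3)) := by
  have hst := h.star hs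
  have d12 := h.dd
  have d13 := h.p23.dd
  have d23 := h.p12.p23.dd
  have h1 := h.hs1
  have h3 := h.hs3
  have e1 : 0 ≤ (s1 + s3) * ((a1 - b1) * (a3 - b3)) := mul_nonneg (by linarith) d13
  nlinarith

theorem sbound (h : Sys3 a1 a2 a3 b1 b2 b3 s1 s2 s3 D) :
    s1 * (1 - D) * (a1 + b1) ^ 2 ≤ (a1 + b1) * ((a2 + b2) + (a3 + b3)) - 4 := by
  have ha := h.ha1
  have hb := h.hb1
  have e : (a1 * b1) * ((a1 + b1) * ((a2 + b2) + (a3 + b3)) - 4 -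
      s1 * (1 - D) * (a1 + b1) ^ 2) = (a1 - b1) ^ 2 := by
    linear_combination (a1 + b1) * (b1 * h.A1 + a1 * h.B1)
  have e1 : 0 < a1 * b1 := by positivity
  have e2 : 0 ≤ (a1 * b1) * ((a1 + b1) * ((a2 + b2) + (a3 + b3)) - 4 -
      s1 * (1 - D) * (a1 + b1) ^ 2) := by
    rw [e]
    exact sq_nonneg _
  have e3 := nonneg_of_mul_nonneg_right e2 e1
  linarith

theorem pair (h : Sys3 a1 a2 a3 b1 b2 b3 s1 s2 s3 D) (h12 : s2 ≤ s1) (h23 : s3 ≤ s2)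
    (h13 : s3 < s1) : 1 / 2 ≤ D := by
  obtain ⟨m1, m2⟩ := h.mono h13.le
  obtain ⟨m3, m4⟩ := h.p23.mono h12
  have b1' := h.sbound
  have b3' := h.p23.p12.sbound
  have st := h.star2 h13
  have c1 := h.ha1
  have c2 := h.hb1
  have h1 := h.hs1
  have h3 := h.hs3
  obtain ⟨f1, hf1⟩ : ∃ f1, f1 = a1 + b1 := ⟨_, rfl⟩
  obtain ⟨f2, hf2⟩ : ∃ f2, f2 = a2 + b2 := ⟨_, rfl⟩
  obtain ⟨f3, hf3⟩ : ∃ f3, f3 = a3 + b3 := ⟨_, rfl⟩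
  rw [← hf1, ← hf2, ← hf3] at b1' b3' st
  have g1 : 2 ≤ f1 := by rw [hf1]; linarith
  have g12 : f1 ≤ f2 := by rw [hf1, hf2]; linarith
  have g13 : f1 ≤ f3 := by rw [hf1, hf3]; linarith
  have hQ : 4 ≤ f1 * f3 := by nlinarith
  have hS : 0 < s1 + s3 := by linarith
  have k1 : (s1 + s3) * (1 - D) * (f1 * f3) ^ 2 ≤
      f3 ^ 2 * (f1 * (f2 + f3) - 4) + f1 ^ 2 * (f3 * (f1 + f2) - 4) := by
    have u1 := mul_le_mul_of_nonneg_left b1' (sq_nonneg f3)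
    have u2 := mul_le_mul_of_nonneg_left b3' (sq_nonneg f1)
    linarith
  have k2 : 0 ≤ f2 * (f1 + f3) * (f1 * f3) - 4 * (f1 ^ 2 + f3 ^ 2) := by
    have v1 : f1 * (f1 + f3) ≤ f2 * (f1 + f3) := mul_le_mul_of_nonneg_right g12 (by linarith)
    have v2 : f1 * (f1 + f3) * (f1 * f3) ≤ f2 * (f1 + f3) * (f1 * f3) :=
      mul_le_mul_of_nonneg_right v1 (by linarith)
    have v3 : 0 ≤ (f1 * f3 - 4) * f1 ^ 2 := mul_nonneg (by linarith) (sq_nonneg _)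
    have v4 : 0 ≤ f3 ^ 2 * (f1 ^ 2 - 4) := mul_nonneg (sq_nonneg _) (by nlinarith)
    nlinarith
  have k3 : (s1 + s3) * (1 - D) * (f1 * f3) ^ 2 ≤ f2 * (f1 + f3) / 4 * (f1 * f3) ^ 2 := by
    have v5 : 0 ≤ (f1 * f3 - 4) * (f2 * (f1 + f3) * (f1 * f3) - 4 * (f1 ^ 2 + f3 ^ 2)) :=
      mul_nonneg (by linarith) k2
    nlinarith
  have k4 : (s1 + s3) * (1 - D) ≤ f2 * (f1 + f3) / 4 :=
    le_of_mul_le_mul_right k3 (by positivity)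
  have k5 : (s1 + s3) * (6 - f1 * f3) ≤ (s1 + s3) * 2 :=
    mul_le_mul_of_nonneg_left (by linarith) hS.le
  have k6 : (s1 + s3) * (1 - D) ≤ (s1 + s3) * (1 / 2) := by linarith
  have k7 := le_of_mul_le_mul_left k6 hS
  linarith

end Sys3

end Pool.H36.SF
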