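import Pool.Agent.H36.SF.Conj

/-!
`SO(4) → SO(3) × SO(3)` is onto.

For `O ∈ SO(3)` let `N` be the symmetric `4 × 4` matrix with `N_00 = 1 + tr O`,
`N_01 = O_21 - O_12`, `N_02 = O_02 - O_20`, `N_03 = O_10 - O_01`,
`N_11 = 1 + O_00 - O_11 - O_22`, etc., `N_12 = O_01 + O_10`, etc. Its trace is `4` and it has rank one:
`N_ab N_cd = N_ad N_cb` (from `O Oᵀ = 1`, `Oᵀ O = 1`, `adj O = Oᵀ`). Choose `a` with `N_aa > 0`,
`q = N_{·a}/(2 √N_aa)`; then `4 q_i q_j = N_ij`, `|q|² = 1`. `h` = the matrix of the multiplication by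
the quaternion `q` on the side which commutes with the second ideal; the entries of
`h (mk2 x y) hᵀ` are linear in `N`, hence in `O`.
-/

namespace Pool.H36.SF

open Matrix Pool.H36.ST

private def quat_R (q0 q1 q2 q3 : ℝ) : M3 :=
  !![q0 * q0 + q1 * q1 - q2 * q2 - q3 * q3, 2 * (q1 * q2 - q0 * q3), 2 * (q1 * q3 + q0 * q2);
    2 * (q1 * q2 + q0 * q3), q0 * q0 - q1 * q1 + q2 * q2 - q3 * q3, 2 * (q2 * q3 - q0 * q1);
    2 * (q1 * q3 - q0 * q2), 2 * (q2 * q3 + q0 * q1), q0 * q0 - q1 * q1 - q2 * q2 + q3 * q3]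

private def quat_h (q0 q1 q2 q3 : ℝ) : Matrix (Idx 3 1) (Idx 3 1) ℝ :=
  Matrix.fromBlocks !![q0, -q3, q2; q3, q0, -q1; -q2, q1, q0] (Matrix.of fun a _ => ![q1, q2, q3] a)
    (Matrix.of fun _ a => -![q1, q2, q3] a) (Matrix.of fun _ _ => q0)

private theorem quat_hh (q0 q1 q2 q3 : ℝ) : quat_h q0 q1 q2 q3 * (quat_h q0 q1 q2 q3)ᵀ =
    (q0 * q0 + q1 * q1 + q2 * q2 + q3 * q3) • (1 : Matrix (Idx 3 1) (Idx 3 1) ℝ) := by
  ext a b
  rcases a with a | a <;> rcases b with b | b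
  · fin_cases a <;> fin_cases b <;>
      simp [quat_h, Matrix.mul_apply, Fin.sum_univ_three] <;> ring
  · fin_cases a <;> simp [quat_h, Matrix.mul_apply, Fin.sum_univ_three] <;> ring
  · fin_cases b <;> simp [quat_h, Matrix.mul_apply, Fin.sum_univ_three] <;> ring
  · have : a = b := Subsingleton.elim _ _
    subst this
    simp [quat_h, Matrix.mul_apply, Fin.sum_univ_three]
    ring

private theorem quat_conj (q0 q1 q2 q3 : ℝ) (x y : V3) :
    quat_h q0 q1 q2 q3 * (mk2 x y).1 * (quat_h q0 q1 q2 q3)ᵀ =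
      (mk2 (quat_R q0 q1 q2 q3 *ᵥ x)
        ((q0 * q0 + q1 * q1 + q2 * q2 + q3 * q3) • y)).1 := by
  ext a b
  rcases a with a | a <;> rcases b with b | b
  · fin_cases a <;> fin_cases b <;>
      simp [quat_h, quat_R, mk2, mk, hat, Matrix.mul_apply, Matrix.mulVec, dotProduct, Matrix.vecHead,
        Matrix.vecTail,
        Fin.sum_univ_three] <;> ring
  · fin_cases a <;>
      simp [quat_h, quat_R, mk2, mk, hat, Matrix.mul_apply, Matrix.mulVec, dotProduct, Matrix.vecHead,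
        Matrix.vecTail,
        Fin.sum_univ_three] <;> ring
  · fin_cases b <;>
      simp [quat_h, quat_R, mk2, mk, hat, Matrix.mul_apply, Matrix.mulVec, dotProduct, Matrix.vecHead,
        Matrix.vecTail,
        Fin.sum_univ_three] <;> ring
  · simp [quat_h, quat_R, mk2, mk, hat, Matrix.mul_apply, Matrix.mulVec, dotProduct, Matrix.vecHead,
        Matrix.vecTail,
      Fin.sum_univ_three]
    ring

private theorem quat_aux {n0 : ℝ} (n1 n2 n3 : ℝ) (h : 0 < n0) : ∃ q0 q1 q2 q3 : ℝ,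
    4 * (q0 * q0) = n0 ∧ 4 * (q0 * q1) = n1 ∧ 4 * (q0 * q2) = n2 ∧ 4 * (q0 * q3) = n3 ∧
    n0 * (4 * (q1 * q1)) = n1 * n1 ∧ n0 * (4 * (q2 * q2)) = n2 * n2 ∧
    n0 * (4 * (q3 * q3)) = n3 * n3 ∧ n0 * (4 * (q1 * q2)) = n1 * n2 ∧
    n0 * (4 * (q1 * q3)) = n1 * n3 ∧ n0 * (4 * (q2 * q3)) = n2 * n3 := by
  have hr : 0 < Real.sqrt n0 := Real.sqrt_pos.2 h
  have hrr : Real.sqrt n0 * Real.sqrt n0 = n0 := Real.mul_self_sqrt h.le
  obtain ⟨r, hr'⟩ : ∃ r, r = Real.sqrt n0 := ⟨_, rfl⟩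
  rw [← hr'] at hr hrr
  refine ⟨r / 2, n1 / (2 * r), n2 / (2 * r), n3 / (2 * r), ?_, ?_, ?_, ?_, ?_, ?_, ?_, ?_, ?_,
    ?_⟩
  · linear_combination hrr
  · field_simp
    ring
  · field_simp
    ring
  · field_simp
    ring
  all_goals
    rw [← hrr]
    field_simp
    ring

/-- A unit quaternion for a rotation. -/
theorem exists_quat {O : M3} (hO : Oᵀ * O = 1) (hd : O.det = 1) :
    ∃ q0 q1 q2 q3 : ℝ, 4 * (q0 * q0) = 1 + O 0 0 + O 1 1 + O 2 2 ∧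
      4 * (q0 * q1) = O 2 1 - O 1 2 ∧ 4 * (q0 * q2) = O 0 2 - O 2 0 ∧
      4 * (q0 * q3) = O 1 0 - O 0 1 ∧ 4 * (q1 * q1) = 1 + O 0 0 - O 1 1 - O 2 2 ∧
      4 * (q2 * q2) = 1 - O 0 0 + O 1 1 - O 2 2 ∧ 4 * (q3 * q3) = 1 - O 0 0 - O 1 1 + O 2 2 ∧
      4 * (q1 * q2) = O 0 1 + O 1 0 ∧ 4 * (q1 * q3) = O 0 2 + O 2 0 ∧
      4 * (q2 * q3) = O 1 2 + O 2 1 := by
  have c00 := congrFun (congrFun hO 0) 0
  have c01 := congrFun (congrFun hO 0) 1
  have c02 := congrFun (congrFun hO 0) 2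
  have c11 := congrFun (congrFun hO 1) 1
  have c12 := congrFun (congrFun hO 1) 2
  have c22 := congrFun (congrFun hO 2) 2
  have hO' : O * Oᵀ = 1 := mul_eq_one_comm.1 hO
  have r00 := congrFun (congrFun hO' 0) 0
  have r01 := congrFun (congrFun hO' 0) 1
  have r02 := congrFun (congrFun hO' 0) 2
  have r11 := congrFun (congrFun hO' 1) 1
  have r12 := congrFun (congrFun hO' 1) 2
  have r22 := congrFun (congrFun hO' 2) 2
  simp only [Matrix.mul_apply, Fin.sum_univ_three, Matrix.transpose_apply, Matrix.one_apply_eq]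
    at c00 c11 c22 r00 r11 r22
  simp [Matrix.mul_apply, Fin.sum_univ_three, Matrix.transpose_apply, Matrix.one_apply]
    at c01 c02 c12 r01 r02 r12
  have hadj : O.adjugate = Oᵀ := by
    have h1 : O.adjugate = O.adjugate * (O * Oᵀ) := by rw [hO', Matrix.mul_one]
    rw [h1, ← Matrix.mul_assoc, Matrix.adjugate_mul, hd, one_smul, Matrix.one_mul]
  have a00 := congrFun (congrFun hadj 0) 0
  have a01 := congrFun (congrFun hadj 0) 1
  have a02 := congrFun (congrFun hadj 0) 2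
  have a10 := congrFun (congrFun hadj 1) 0
  have a11 := congrFun (congrFun hadj 1) 1
  have a12 := congrFun (congrFun hadj 1) 2
  have a20 := congrFun (congrFun hadj 2) 0
  have a21 := congrFun (congrFun hadj 2) 1
  have a22 := congrFun (congrFun hadj 2) 2
  rw [Matrix.adjugate_fin_three] at a00 a01 a02 a10 a11 a12 a20 a21 a22
  simp at a00 a01 a02 a10 a11 a12 a20 a21 a22
  have k0_11 : (1 + O 0 0 + O 1 1 + O 2 2) * (1 + O 0 0 - O 1 1 - O 2 2) = (O 2 1 - O 1 2) * (O 2 1 - O 1 2) := by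
    linarith
  have k0_12 : (1 + O 0 0 + O 1 1 + O 2 2) * (O 0 1 + O 1 0) = (O 2 1 - O 1 2) * (O 0 2 - O 2 0) := by
    linarith
  have k0_13 : (1 + O 0 0 + O 1 1 + O 2 2) * (O 0 2 + O 2 0) = (O 2 1 - O 1 2) * (O 1 0 - O 0 1) := by
    linarith
  have k0_22 : (1 + O 0 0 + O 1 1 + O 2 2) * (1 - O 0 0 + O 1 1 - O 2 2) = (O 0 2 - O 2 0) * (O 0 2 - O 2 0) := by
    linarith
  have k0_23 : (1 + O 0 0 + O 1 1 + O 2 2) * (O 1 2 + O 2 1) = (O 0 2 - O 2 0) * (O 1 0 - O 0 1) := by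
    linarith
  have k0_33 : (1 + O 0 0 + O 1 1 + O 2 2) * (1 - O 0 0 - O 1 1 + O 2 2) = (O 1 0 - O 0 1) * (O 1 0 - O 0 1) := by
    linarith
  have k1_02 : (1 + O 0 0 - O 1 1 - O 2 2) * (O 0 2 - O 2 0) = (O 2 1 - O 1 2) * (O 0 1 + O 1 0) := by
    linarith
  have k1_03 : (1 + O 0 0 - O 1 1 - O 2 2) * (O 1 0 - O 0 1) = (O 2 1 - O 1 2) * (O 0 2 + O 2 0) := by
    linarith
  have k1_22 : (1 + O 0 0 - O 1 1 - O 2 2) * (1 - O 0 0 + O 1 1 - O 2 2) = (O 0 1 + O 1 0) * (O 0 1 + O 1 0) := by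
    linarith
  have k1_23 : (1 + O 0 0 - O 1 1 - O 2 2) * (O 1 2 + O 2 1) = (O 0 1 + O 1 0) * (O 0 2 + O 2 0) := by
    linarith
  have k1_33 : (1 + O 0 0 - O 1 1 - O 2 2) * (1 - O 0 0 - O 1 1 + O 2 2) = (O 0 2 + O 2 0) * (O 0 2 + O 2 0) := by
    linarith
  have k2_01 : (1 - O 0 0 + O 1 1 - O 2 2) * (O 2 1 - O 1 2) = (O 0 2 - O 2 0) * (O 0 1 + O 1 0) := by
    linarith
  have k2_03 : (1 - O 0 0 + O 1 1 - O 2 2) * (O 1 0 - O 0 1) = (O 0 2 - O 2 0) * (O 1 2 + O 2 1) := by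
    linarith
  have k2_13 : (1 - O 0 0 + O 1 1 - O 2 2) * (O 0 2 + O 2 0) = (O 0 1 + O 1 0) * (O 1 2 + O 2 1) := by
    linarith
  have k2_33 : (1 - O 0 0 + O 1 1 - O 2 2) * (1 - O 0 0 - O 1 1 + O 2 2) = (O 1 2 + O 2 1) * (O 1 2 + O 2 1) := by
    linarith
  have k3_01 : (1 - O 0 0 - O 1 1 + O 2 2) * (O 2 1 - O 1 2) = (O 1 0 - O 0 1) * (O 0 2 + O 2 0) := by
    linarith
  have k3_02 : (1 - O 0 0 - O 1 1 + O 2 2) * (O 0 2 - O 2 0) = (O 1 0 - O 0 1) * (O 1 2 + O 2 1) := by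
    linarith
  have k3_12 : (1 - O 0 0 - O 1 1 + O 2 2) * (O 0 1 + O 1 0) = (O 0 2 + O 2 0) * (O 1 2 + O 2 1) := by
    linarith
  have hsum : 0 < (1 + O 0 0 + O 1 1 + O 2 2) ∨ 0 < (1 + O 0 0 - O 1 1 - O 2 2) ∨
      0 < (1 - O 0 0 + O 1 1 - O 2 2) ∨ 0 < (1 - O 0 0 - O 1 1 + O 2 2) := by
    by_contra hcon
    push Not at hcon
    obtain ⟨u1, u2, u3, u4⟩ := hcon
    linarith
  rcases hsum with h | h | h | h
  · obtain ⟨x0, x1, x2, x3, f00, f01, f02, f03, f11, f22, f33, f12, f13, f23⟩ :=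
      quat_aux (O 2 1 - O 1 2) (O 0 2 - O 2 0) (O 1 0 - O 0 1) h
    refine ⟨x0, x1, x2, x3, ?_, ?_, ?_, ?_, ?_, ?_, ?_, ?_, ?_, ?_⟩
    · linarith [f00]
    · linarith [f01]
    · linarith [f02]
    · linarith [f03]
    · refine mul_left_cancel₀ h.ne' ?_
      linarith [f11]
    · refine mul_left_cancel₀ h.ne' ?_
      linarith [f22]
    · refine mul_left_cancel₀ h.ne' ?_
      linarith [f33]
    · refine mul_left_cancel₀ h.ne' ?_
      linarith [f12]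
    · refine mul_left_cancel₀ h.ne' ?_
      linarith [f13]
    · refine mul_left_cancel₀ h.ne' ?_
      linarith [f23]
  · obtain ⟨x0, x1, x2, x3, f00, f01, f02, f03, f11, f22, f33, f12, f13, f23⟩ :=
      quat_aux (O 2 1 - O 1 2) (O 0 1 + O 1 0) (O 0 2 + O 2 0) h
    refine ⟨x1, x0, x2, x3, ?_, ?_, ?_, ?_, ?_, ?_, ?_, ?_, ?_, ?_⟩
    · refine mul_left_cancel₀ h.ne' ?_
      linarith [f11]
    · linarith [f01]
    · refine mul_left_cancel₀ h.ne' ?_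
      linarith [f12]
    · refine mul_left_cancel₀ h.ne' ?_
      linarith [f13]
    · linarith [f00]
    · refine mul_left_cancel₀ h.ne' ?_
      linarith [f22]
    · refine mul_left_cancel₀ h.ne' ?_
      linarith [f33]
    · linarith [f02]
    · linarith [f03]
    · refine mul_left_cancel₀ h.ne' ?_
      linarith [f23]
  · obtain ⟨x0, x1, x2, x3, f00, f01, f02, f03, f11, f22, f33, f12, f13, f23⟩ :=
      quat_aux (O 0 2 - O 2 0) (O 0 1 + O 1 0) (O 1 2 + O 2 1) h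
    refine ⟨x1, x2, x0, x3, ?_, ?_, ?_, ?_, ?_, ?_, ?_, ?_, ?_, ?_⟩
    · refine mul_left_cancel₀ h.ne' ?_
      linarith [f11]
    · refine mul_left_cancel₀ h.ne' ?_
      linarith [f12]
    · linarith [f01]
    · refine mul_left_cancel₀ h.ne' ?_
      linarith [f13]
    · refine mul_left_cancel₀ h.ne' ?_
      linarith [f22]
    · linarith [f00]
    · refine mul_left_cancel₀ h.ne' ?_
      linarith [f33]
    · linarith [f02]
    · refine mul_left_cancel₀ h.ne' ?_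
      linarith [f23]
    · linarith [f03]
  · obtain ⟨x0, x1, x2, x3, f00, f01, f02, f03, f11, f22, f33, f12, f13, f23⟩ :=
      quat_aux (O 1 0 - O 0 1) (O 0 2 + O 2 0) (O 1 2 + O 2 1) h
    refine ⟨x1, x2, x3, x0, ?_, ?_, ?_, ?_, ?_, ?_, ?_, ?_, ?_, ?_⟩
    · refine mul_left_cancel₀ h.ne' ?_
      linarith [f11]
    · refine mul_left_cancel₀ h.ne' ?_
      linarith [f12]
    · refine mul_left_cancel₀ h.ne' ?_
      linarith [f13]
    · linarith [f01]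
    · refine mul_left_cancel₀ h.ne' ?_
      linarith [f22]
    · refine mul_left_cancel₀ h.ne' ?_
      linarith [f33]
    · linarith [f00]
    · refine mul_left_cancel₀ h.ne' ?_
      linarith [f23]
    · linarith [f02]
    · linarith [f03]

theorem exists_left {O : M3} (hO : Oᵀ * O = 1) (hd : O.det = 1) :
    ∃ h : Matrix (Idx 3 1) (Idx 3 1) ℝ, h * hᵀ = 1 ∧
      ∀ x y, conj4 h (mk2 x y) = mk2 (O *ᵥ x) y := by
  obtain ⟨q0, q1, q2, q3, e00, e01, e02, e03, e11, e22, e33, e12, e13, e23⟩ := exists_quat hO hd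
  have hn : q0 * q0 + q1 * q1 + q2 * q2 + q3 * q3 = 1 := by linarith
  have hOq : O = quat_R q0 q1 q2 q3 := by
    ext i j
    fin_cases i <;> fin_cases j <;> simp [quat_R] <;> linarith
  refine ⟨quat_h q0 q1 q2 q3, ?_, fun x y => ?_⟩
  · rw [quat_hh, hn, one_smul]
  · apply Subtype.ext
    show quat_h q0 q1 q2 q3 * (mk2 x y).1 * (quat_h q0 q1 q2 q3)ᵀ = (mk2 (O *ᵥ x) y).1
    rw [quat_conj, hn, one_smul, hOq]

theorem exists_both {O₁ O₂ : M3} (h1 : O₁ᵀ * O₁ = 1) (d1 : O₁.det = 1) (h2 : O₂ᵀ * O₂ = 1)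
    (d2 : O₂.det = 1) :
    ∃ h : Matrix (Idx 3 1) (Idx 3 1) ℝ, h * hᵀ = 1 ∧
      ∀ x y, conj4 h (mk2 x y) = mk2 (O₁ *ᵥ x) (O₂ *ᵥ y) := by
  obtain ⟨g1, o1, e1⟩ := exists_left h1 d1
  obtain ⟨g2, o2, e2⟩ := exists_left h2 d2
  obtain ⟨w, ow, ew⟩ := exists_swap
  refine ⟨g1 * (w * (g2 * w)), ?_, ?_⟩
  · have h3 : (g1 * (w * (g2 * w))) * (g1 * (w * (g2 * w)))ᵀ =
        g1 * (w * (g2 * (w * wᵀ) * g2ᵀ) * wᵀ) * g1ᵀ := by
      simp only [Matrix.transpose_mul, Matrix.mul_assoc]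
    rw [h3, ow, Matrix.mul_one, o2, Matrix.mul_one, ow, Matrix.mul_one, o1]
  · intro x y
    rw [conj4_mul, conj4_mul, conj4_mul, ew, e2, ew, e1]

end Pool.H36.SF
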