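import Pool.Agent.H36.SF.Defs

/-!
The sums in the Ricci curvature `Ric(e_i, e_j + t_j f_j)`.
-/

namespace Pool.H36.SF

open Matrix Pool.H36.ST

variable {α β : M3} {s t : V3}

theorem Gt_hor_right (hst : ∀ i, s i * (1 - t i ^ 2) = 1) (p : V3 × V3) (j : Fin 3) :
    Gt s t p (Pi.single j 1, Pi.single j (t j)) = p.1 j := by
  simp only [Gt, Fin.sum_univ_three]
  fin_cases j <;> simp
  · linear_combination p.1 0 * hst 0
  · linear_combination p.1 1 * hst 1
  · linear_combination p.1 2 * hst 2

theorem Gt_left_e (p : V3 × V3) (i : Fin 3) :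
    Gt s t p (Pi.single i 1, 0) = s i * (p.1 i - t i * p.2 i) := by
  simp only [Gt, Fin.sum_univ_three]
  fin_cases i <;> simp

theorem third_sum (hst : ∀ i, s i * (1 - t i ^ 2) = 1) (sa : αᵀ = α) (i j : Fin 3) :
    ∑ a, ∑ b, Gt s t (Br α β (bas s t a) (bas s t b)) (Pi.single i 1, 0) *
        Gt s t (Br α β (bas s t a) (bas s t b)) (Pi.single j 1, Pi.single j (t j)) =
      2 * (s i * (((α * α) i j) - t i * ((β * diagonal (tau t) * α) i j))) := by
  have hs : ∀ k, α k j = α j k := fun k => congrFun (congrFun sa j) k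
  simp only [Gt_hor_right hst, Gt_left_e, Fintype.sum_sum_type, Fin.sum_univ_three]
  simp [bas, Br, cross_apply, Matrix.mulVec, dotProduct, Fin.sum_univ_three, Matrix.mul_apply, tau, hs]
  ring

/-- The first sum. -/
theorem first_sum (sa : αᵀ = α) (sb : βᵀ = β) (i j : Fin 3) :
    ∑ a, Gt s t (Br α β (Pi.single i 1, 0) (bas s t a))
        (Br α β (Pi.single j 1, Pi.single j (t j)) (bas s t a)) =
      (α * diagonal s * α - α * diagonal (fun i => t i * s i) * β * diagonal (tau t)).trace * (if i = j then 1 else 0)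
       - (α * diagonal s * α - α * diagonal (fun i => t i * s i) * β * diagonal (tau t)) j i := by
  have h10 : α 1 0 = α 0 1 := congrFun (congrFun sa 0) 1
  have h20 : α 2 0 = α 0 2 := congrFun (congrFun sa 0) 2
  have h21 : α 2 1 = α 1 2 := congrFun (congrFun sa 1) 2
  have k10 : β 1 0 = β 0 1 := congrFun (congrFun sb 0) 1
  have k20 : β 2 0 = β 0 2 := congrFun (congrFun sb 0) 2
  have k21 : β 2 1 = β 1 2 := congrFun (congrFun sb 1) 2
  simp only [Fintype.sum_sum_type, Fin.sum_univ_three, Matrix.trace_fin_three]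
  fin_cases i <;> fin_cases j <;>
  simp [bas, Br, Gt, cross_apply, Matrix.mulVec, dotProduct, Fin.sum_univ_three, Matrix.mul_apply, tau, h10, h20, h21, k10, k20, k21, Matrix.diagonal] <;>
  ring

end Pool.H36.SF
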