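import Pool.Agent.H36.SF.Defs

/-!
The Ricci curvature when everything is scalar.
-/

namespace Pool.H36.SF

open Matrix Pool.H36.ST

/-- `Rc` for `α = a • 1`, `β = b • 1`, `s`, `t` constant. -/
theorem Rc_scalar {a b s t : ℝ} (hst : s * (1 - t ^ 2) = 1) (hs : 1 ≤ s) (x y : V3) :
    Rc (a • 1) (b • 1) (fun _ => s) (fun _ => t) (x, y) (x, y) =
      -s * (a ^ 2 * (x ⬝ᵥ x) + b ^ 2 * t ^ 2 * (y ⬝ᵥ y) - 2 * t ^ 2 * (a * b) * (x ⬝ᵥ y))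
        + a ^ 2 * (x ⬝ᵥ x)
        + 1 / 2 * s ^ 2 * ((a - b * t ^ 3) ^ 2 * (x ⬝ᵥ x) + (b * t ^ 2 - t * a) ^ 2 * (y ⬝ᵥ y)
          + 2 * (a - b * t ^ 3) * (b * t ^ 2 - t * a) * (x ⬝ᵥ y))
        + (s * b ^ 2 * t ^ 2 + 1 / 2 * b ^ 2) *
          (y ⬝ᵥ y - 2 * t * (x ⬝ᵥ y) + t ^ 2 * (x ⬝ᵥ x)) := by
  have hs0 : 0 < s := by linarith
  have hw : s * ((Real.sqrt s)⁻¹) ^ 2 = 1 := by
    rw [inv_pow, Real.sq_sqrt hs0.le]
    exact mul_inv_cancel₀ hs0.ne'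
  have adj : ∀ c : ℝ, (c • (1 : M3)).adjugate = c ^ 2 • (1 : M3) := by
    intro c
    rw [Matrix.adjugate_smul, Matrix.adjugate_one]
    simp
  have hsum : ∀ f : Fin 3 ⊕ Fin 3 → ℝ, ∑ a, f a = (f (Sum.inl 0) + f (Sum.inl 1) + f (Sum.inl 2))
      + (f (Sum.inr 0) + f (Sum.inr 1) + f (Sum.inr 2)) := by
    intro f
    rw [Fintype.sum_sum_type, Fin.sum_univ_three, Fin.sum_univ_three]
  have msc : ∀ (c : ℝ) (v : V3), (c • (1 : M3)) *ᵥ v = c • v := by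
    intro c v
    rw [Matrix.smul_mulVec, Matrix.one_mulVec]
  simp only [Rc, Kf, Br, adj, hsum, msc, bas]
  generalize (Real.sqrt s)⁻¹ = w at hw
  simp only [Gt, Fin.sum_univ_three, cross_apply, dotProduct, Pi.smul_apply, smul_eq_mul,
    Pi.single_apply, Matrix.cons_val_zero, Matrix.cons_val_one, Matrix.cons_val]
  simp
  linear_combination (-(b ^ 2) * (y 0 ^ 2 + y 1 ^ 2 + y 2 ^ 2) + (s * b ^ 2 * t ^ 2
    + (1 / 2) * b ^ 2 * (s * w ^ 2 + 1)) * ((y 0 - t * x 0) ^ 2 + (y 1 - t * x 1) ^ 2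
    + (y 2 - t * x 2) ^ 2)) * hw

theorem Gt_scalar {s t : ℝ} (x y x' y' : V3) :
    Gt (fun _ => s) (fun _ => t) (x, y) (x', y') =
      s * (x ⬝ᵥ x' + y ⬝ᵥ y' - t * (x ⬝ᵥ y' + x' ⬝ᵥ y)) := by
  simp only [Gt, Fin.sum_univ_three, dotProduct]
  ring

/-- The three Einstein cases (`2c = κ`). -/
theorem ein_one {a : ℝ} (X : V3 × V3) :
    Rc (a • 1) (a • 1) (fun _ => 1) (fun _ => 0) X X = a ^ 2 / 2 * Gt (fun _ => 1) (fun _ => 0) X X := by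
  obtain ⟨x, y⟩ := X
  rw [Rc_scalar (by norm_num) (by norm_num), Gt_scalar]
  ring

theorem ein_half {a : ℝ} (X : V3 × V3) :
    Rc (a • 1) (a • 1) (fun _ => 4 / 3) (fun _ => 1 / 2) X X =
      5 / 12 * a ^ 2 * Gt (fun _ => 4 / 3) (fun _ => 1 / 2) X X := by
  obtain ⟨x, y⟩ := X
  rw [Rc_scalar (by norm_num) (by norm_num), Gt_scalar, dotProduct_comm x y]
  ring

theorem ein_third {r t : ℝ} (ht : 0 < t) (h2 : 2 * t ^ 2 = 1) (X : V3 × V3) :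
    Rc ((r * Real.sqrt 2) • 1) (r • 1) (fun _ => 2) (fun _ => t) X X =
      r ^ 2 / 2 * Gt (fun _ => 2) (fun _ => t) X X := by
  obtain ⟨x, y⟩ := X
  have hr2 : Real.sqrt 2 = 2 * t := by
    have h3 : Real.sqrt ((2 * t) ^ 2) = 2 * t := Real.sqrt_sq (by linarith)
    rw [← h3]
    congr 1
    linear_combination -2 * h2
  rw [hr2, Rc_scalar (by linear_combination -h2) (by norm_num), Gt_scalar]
  linear_combination r ^ 2 * ((x ⬝ᵥ x) * (t ^ 4 - 5 / 2 * t ^ 2 + 1) + (y ⬝ᵥ y) * (t ^ 2 + 1 / 2)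
    + (x ⬝ᵥ y) * t * (2 * t ^ 2 - 1)) * h2

end Pool.H36.SF
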