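import Pool.Agent.H36.SF.Defs

/-!
Vertical Ricci curvature: for `X = (0, b)`, `b_i = y_i / r_i`, `r_i = √s_i`, and
`γ = diagonal r * β * diagonal r`, `Π = s_0 s_1 s_2`:
`Π Ric(X, X) ≥ - (1/2) ∑_k s_k |γ(y × ε_k)|² + y · adj(γ) y + (1/2) ∑_m (γy)_m² (s_k + s_l - 1)`
(`{k, l, m} = {0, 1, 2}`; the difference is `(Π/4) ∑_{kl} Gt [h_k,h_l] X ² ≥ 0`).
First sum: `[X, h_k] = (0, t_k β(b × ε_k))`, `[X, v_k] = (0, β(b × ε_k)/√s_k)`, `t_k² + 1/s_k = 1`,
`b × ε_k = (r_k/(r_0 r_1 r_2)) diagonal r (y × ε_k)`, `|(0, c)|² = |diagonal r c|²`.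
Last sum: `Gt (p, q) X = ∑ r_i y_i (q_i - t_i p_i)`, pairs `(v_k, v_l)`, `(h_k, v_l)`, `(v_k, h_l)`,
and `1/(s_k s_l) + t_k²/s_l + t_l²/s_k = (s_k + s_l - 1)/(s_k s_l)`.
-/

namespace Pool.H36.SF

open Matrix Pool.H36.ST

variable {α β : M3} {s t : V3}

private theorem gt_zero (s t c b : V3) :
    Gt s t (0, c) (0, b) = ∑ i, s i * (c i * b i) := by
  unfold Gt
  refine Finset.sum_congr rfl fun i _ => ?_
  simp

private theorem crs (b : V3) (k : Fin 3) (z : ℝ) :
    crossProduct b (Pi.single k z) = z • crossProduct b (Pi.single k 1) := by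
  rw [← LinearMap.map_smul]
  congr 1
  ext i
  by_cases h : i = k
  · subst h; simp
  · simp [h]

private theorem br_h (b : V3) (k : Fin 3) :
    Br α β (0, b) (bas s t (Sum.inl k)) = (0, t k • (β *ᵥ crossProduct b (Pi.single k 1))) := by
  unfold Br bas
  simp only [LinearMap.map_zero, LinearMap.zero_apply, Matrix.mulVec_zero]
  rw [crs, Matrix.mulVec_smul]

private theorem br_v (b : V3) (k : Fin 3) :
    Br α β (0, b) (bas s t (Sum.inr k)) =
      (0, (Real.sqrt (s k))⁻¹ • (β *ᵥ crossProduct b (Pi.single k 1))) := by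
  unfold Br bas
  simp only [LinearMap.map_zero, LinearMap.zero_apply, Matrix.mulVec_zero]
  rw [crs, Matrix.mulVec_smul]

private theorem crs_D {r : V3} (hr : ∀ i, 0 < r i) (y : V3) (k : Fin 3) :
    crossProduct (fun i => y i / r i) (Pi.single k 1) =
      (r k / (r 0 * r 1 * r 2)) • (diagonal r *ᵥ crossProduct y (Pi.single k 1)) := by
  have h0 := (hr 0).ne'
  have h1 := (hr 1).ne'
  have h2 := (hr 2).ne'
  ext i
  fin_cases k <;> fin_cases i <;> simp [cross_apply, Matrix.mulVec_diagonal] <;> field_simp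

private theorem first_sum (hst : ∀ i, s i * (1 - t i ^ 2) = 1)
    {r : V3} (hr : ∀ i, 0 < r i) (hrs : ∀ i, s i = r i ^ 2) (y : V3) {γ : M3}
    (hγ : γ = diagonal r * β * diagonal r) :
    (s 0 * s 1 * s 2) * ∑ a, Gt s t (Br α β (0, fun i => y i / r i) (bas s t a))
        (Br α β (0, fun i => y i / r i) (bas s t a)) =
      ∑ k, s k * ((γ *ᵥ crossProduct y (Pi.single k 1)) ⬝ᵥ
          (γ *ᵥ crossProduct y (Pi.single k 1))) := by
  have hs : ∀ i, 0 < s i := fun i => by rw [hrs]; exact pow_pos (hr i) 2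
  have hc : ∀ k, β *ᵥ crossProduct (fun i => y i / r i) (Pi.single k 1) =
      fun i => (r k / (r 0 * r 1 * r 2)) * ((γ *ᵥ crossProduct y (Pi.single k 1)) i / r i) := by
    intro k
    rw [crs_D hr, Matrix.mulVec_smul, hγ, ← Matrix.mulVec_mulVec, ← Matrix.mulVec_mulVec]
    ext i
    rw [Pi.smul_apply, smul_eq_mul, Matrix.mulVec_diagonal, mul_div_cancel_left₀ _ (hr i).ne']
  rw [Fintype.sum_sum_type, ← Finset.sum_add_distrib, Finset.mul_sum]
  refine Finset.sum_congr rfl fun k _ => ?_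
  rw [br_h, br_v, gt_zero, gt_zero, hc]
  have ht : t k ^ 2 + ((Real.sqrt (s k))⁻¹) ^ 2 = 1 := by
    rw [inv_pow, Real.sq_sqrt (hs k).le]
    have h1 := hst k
    have h2 := (hs k).ne'
    field_simp
    linarith
  set w := γ *ᵥ crossProduct y (Pi.single k 1) with hw
  have key : ∀ z : ℝ, ∑ i, s i * ((z • fun i => (r k / (r 0 * r 1 * r 2)) * (w i / r i)) i *
      (z • fun i => (r k / (r 0 * r 1 * r 2)) * (w i / r i)) i) =
      z ^ 2 * ((r k / (r 0 * r 1 * r 2)) ^ 2 * (w ⬝ᵥ w)) := by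
    intro z
    rw [dotProduct, Finset.mul_sum, Finset.mul_sum]
    refine Finset.sum_congr rfl fun i _ => ?_
    rw [Pi.smul_apply, smul_eq_mul, hrs i]
    have := (hr i).ne'
    field_simp
  rw [key, key, ← add_mul, ht, one_mul, hrs k, hrs 0, hrs 1, hrs 2]
  have h0 := (hr 0).ne'
  have h1 := (hr 1).ne'
  have h2 := (hr 2).ne'
  field_simp

private theorem kill {r : V3} (hr : ∀ i, 0 < r i) (hrs : ∀ i, s i = r i ^ 2) (y : V3) {γ : M3}
    (hγ : γ = diagonal r * β * diagonal r) :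
    y ⬝ᵥ (γ.adjugate *ᵥ y) = (s 0 * s 1 * s 2) *
      (-(1 / 2) * Kf α β (0, fun i => y i / r i) (0, fun i => y i / r i)) := by
  have h0 := (hr 0).ne'
  have h1 := (hr 1).ne'
  have h2 := (hr 2).ne'
  have hg : ∀ i j, γ i j = r i * β i j * r j := by
    intro i j
    rw [hγ, Matrix.mul_diagonal, Matrix.diagonal_mul]
  unfold Kf
  simp only [zero_dotProduct, zero_add, Matrix.adjugate_fin_three, hrs, hg]
  simp only [dotProduct, Matrix.mulVec, Fin.sum_univ_three, Matrix.of_apply, Matrix.cons_val',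
    Matrix.cons_val_zero, Matrix.cons_val_one, Matrix.cons_val, Matrix.empty_val',
    Matrix.cons_val_fin_one]
  field_simp

private theorem gt_beta (sb : βᵀ = β) {r : V3} (hr : ∀ i, 0 < r i) (hrs : ∀ i, s i = r i ^ 2)
    (y : V3) {γ : M3} (hγ : γ = diagonal r * β * diagonal r) (w : V3) (z : ℝ) :
    Gt s t (0, z • (β *ᵥ w)) (0, fun i => y i / r i) = z * ∑ i, w i * ((γ *ᵥ y) i / r i) := by
  have h0 := (hr 0).ne'
  have h1 := (hr 1).ne'
  have h2 := (hr 2).ne'
  have hg : ∀ i j, γ i j = r i * β i j * r j := by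
    intro i j
    rw [hγ, Matrix.mul_diagonal, Matrix.diagonal_mul]
  have hb : ∀ i j, β i j = β j i := fun i j => by
    conv_lhs => rw [← sb]
    rfl
  rw [gt_zero]
  simp only [Matrix.mulVec, dotProduct, Fin.sum_univ_three, Pi.smul_apply, smul_eq_mul, hg, hrs]
  rw [hb 1 0, hb 2 0, hb 2 1]
  field_simp
  ring

private theorem br_vv (k l : Fin 3) :
    Br α β (bas s t (Sum.inr k)) (bas s t (Sum.inr l)) =
      (0, ((Real.sqrt (s k))⁻¹ * (Real.sqrt (s l))⁻¹) •
        (β *ᵥ crossProduct (Pi.single k 1) (Pi.single l 1))) := by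
  unfold Br bas
  simp only [LinearMap.map_zero, Matrix.mulVec_zero]
  rw [crs, show (Pi.single k (Real.sqrt (s k))⁻¹ : V3) =
    (Real.sqrt (s k))⁻¹ • (Pi.single k 1 : V3) from by
      ext i
      by_cases h : i = k
      · subst h; simp
      · simp [h], LinearMap.map_smul, LinearMap.smul_apply, smul_smul, Matrix.mulVec_smul,
      mul_comm]

private theorem br_hv (k l : Fin 3) :
    Br α β (bas s t (Sum.inl k)) (bas s t (Sum.inr l)) =
      (0, (t k * (Real.sqrt (s l))⁻¹) •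
        (β *ᵥ crossProduct (Pi.single k 1) (Pi.single l 1))) := by
  unfold Br bas
  simp only [LinearMap.map_zero, Matrix.mulVec_zero]
  rw [crs, show (Pi.single k (t k) : V3) = t k • (Pi.single k 1 : V3) from by
      ext i
      by_cases h : i = k
      · subst h; simp
      · simp [h], LinearMap.map_smul, LinearMap.smul_apply, smul_smul, Matrix.mulVec_smul,
      mul_comm]

private theorem br_vh (k l : Fin 3) :
    Br α β (bas s t (Sum.inr k)) (bas s t (Sum.inl l)) =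
      (0, ((Real.sqrt (s k))⁻¹ * t l) •
        (β *ᵥ crossProduct (Pi.single k 1) (Pi.single l 1))) := by
  unfold Br bas
  simp only [LinearMap.map_zero, LinearMap.zero_apply, Matrix.mulVec_zero]
  rw [crs, show (Pi.single k (Real.sqrt (s k))⁻¹ : V3) =
    (Real.sqrt (s k))⁻¹ • (Pi.single k 1 : V3) from by
      ext i
      by_cases h : i = k
      · subst h; simp
      · simp [h], LinearMap.map_smul, LinearMap.smul_apply, smul_smul, Matrix.mulVec_smul,
      mul_comm]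

private theorem last_sum (sb : βᵀ = β) (hst : ∀ i, s i * (1 - t i ^ 2) = 1)
    {r : V3} (hr : ∀ i, 0 < r i) (hrs : ∀ i, s i = r i ^ 2) (y : V3) {γ : M3}
    (hγ : γ = diagonal r * β * diagonal r) :
    2 * ∑ m, ((γ *ᵥ y) m) ^ 2 * ((∑ k, s k) - s m - 1) ≤ (s 0 * s 1 * s 2) *
      ∑ a, ∑ b, Gt s t (Br α β (bas s t a) (bas s t b)) (0, fun i => y i / r i) *
        Gt s t (Br α β (bas s t a) (bas s t b)) (0, fun i => y i / r i) := by
  have hs : ∀ i, 0 < s i := fun i => by rw [hrs]; exact pow_pos (hr i) 2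
  have hsq : ∀ i, (Real.sqrt (s i)) = r i := fun i => by
    rw [hrs, Real.sqrt_sq (hr i).le]
  have ht : ∀ i, r i ^ 2 * t i ^ 2 = r i ^ 2 - 1 := by
    intro i
    have h1 := hst i
    rw [hrs] at h1
    linarith
  simp only [Fintype.sum_sum_type, Finset.sum_add_distrib]
  have hpos : 0 ≤ ∑ x : Fin 3, ∑ x_1 : Fin 3,
      Gt s t (Br α β (bas s t (Sum.inl x)) (bas s t (Sum.inl x_1))) (0, fun i => y i / r i) *
      Gt s t (Br α β (bas s t (Sum.inl x)) (bas s t (Sum.inl x_1))) (0, fun i => y i / r i) :=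
    Finset.sum_nonneg fun _ _ => Finset.sum_nonneg fun _ _ => mul_self_nonneg _
  have hP : 0 < s 0 * s 1 * s 2 := mul_pos (mul_pos (hs 0) (hs 1)) (hs 2)
  have h3 : ∀ A B C D : ℝ, 0 ≤ A → ∀ E, E ≤ (s 0 * s 1 * s 2) * (B + (C + D)) →
      E ≤ (s 0 * s 1 * s 2) * (A + B + (C + D)) := by
    intro A B C D hA E hE
    have := mul_nonneg hP.le hA
    nlinarith
  refine h3 _ _ _ _ hpos _ (le_of_eq ?_)
  simp only [br_vv, br_hv, br_vh, gt_beta sb hr hrs y hγ, hsq]
  generalize γ *ᵥ y = g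
  have h0 := (hr 0).ne'
  have h1 := (hr 1).ne'
  have h2 := (hr 2).ne'
  simp only [Fin.sum_univ_three, cross_apply, hrs]
  simp
  linear_combination (norm := (field_simp; ring)) (-2 * (g 1 ^ 2 + g 2 ^ 2)) * ht 0 +
    (-2 * (g 0 ^ 2 + g 2 ^ 2)) * ht 1 + (-2 * (g 0 ^ 2 + g 1 ^ 2)) * ht 2

theorem ric_ver (sa : αᵀ = α) (sb : βᵀ = β) (hst : ∀ i, s i * (1 - t i ^ 2) = 1)
    {r : V3} (hr : ∀ i, 0 < r i) (hrs : ∀ i, s i = r i ^ 2) (y : V3) {γ : M3}
    (hγ : γ = diagonal r * β * diagonal r) :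
    -(1 / 2) * ∑ k, s k * ((γ *ᵥ crossProduct y (Pi.single k 1)) ⬝ᵥ
          (γ *ᵥ crossProduct y (Pi.single k 1)))
        + y ⬝ᵥ (γ.adjugate *ᵥ y)
        + (1 / 2) * ∑ m, ((γ *ᵥ y) m) ^ 2 * ((∑ k, s k) - s m - 1) ≤
      (s 0 * s 1 * s 2) * Rc α β s t (0, fun i => y i / r i) (0, fun i => y i / r i) := by
  have e1 := first_sum (α := α) hst hr hrs y hγ
  have e2 := kill (α := α) hr hrs y hγ
  have e3 := last_sum (α := α) sb hst hr hrs y hγ
  unfold Rc
  rw [e2, ← e1]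
  linarith

end Pool.H36.SF
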