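import Mathlib

/-!
The Einstein equations for diagonal structure matrices with eigenvalues `≥ 1` (normalisation
`2 λ = 1`), `D = t_1 t_2 t_3 > 0`.
-/

namespace Pool.H36.SF

/-- The system. -/
structure Sys3 (a1 a2 a3 b1 b2 b3 s1 s2 s3 D : ℝ) : Prop where
  ha1 : 1 ≤ a1
  ha2 : 1 ≤ a2
  ha3 : 1 ≤ a3
  hb1 : 1 ≤ b1
  hb2 : 1 ≤ b2
  hb3 : 1 ≤ b3
  hs1 : 1 < s1
  hs2 : 1 < s2
  hs3 : 1 < s3
  hD : 0 < D
  hDD : D ^ 2 * (s1 * s2 * s3) = (s1 - 1) * (s2 - 1) * (s3 - 1)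
  A1 : a1 * (a2 + a3) = 1 + s1 * a1 ^ 2 - D * (s1 * (a1 * b1))
  A2 : a2 * (a1 + a3) = 1 + s2 * a2 ^ 2 - D * (s2 * (a2 * b2))
  A3 : a3 * (a1 + a2) = 1 + s3 * a3 ^ 2 - D * (s3 * (a3 * b3))
  B1 : b1 * (b2 + b3) = 1 + s1 * b1 ^ 2 - D * (s1 * (a1 * b1))
  B2 : b2 * (b1 + b3) = 1 + s2 * b2 ^ 2 - D * (s2 * (a2 * b2))
  B3 : b3 * (b1 + b2) = 1 + s3 * b3 ^ 2 - D * (s3 * (a3 * b3))
  T1 : (s1 - 1) * (a1 * (a2 + a3) + b1 * (b2 + b3) - 3) =
    D * (s1 * (a1 * b1) + s2 * (a2 * b2) + s3 * (a3 * b3))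
  T2 : (s2 - 1) * (a2 * (a1 + a3) + b2 * (b1 + b3) - 3) =
    D * (s1 * (a1 * b1) + s2 * (a2 * b2) + s3 * (a3 * b3))
  T3 : (s3 - 1) * (a3 * (a1 + a2) + b3 * (b1 + b2) - 3) =
    D * (s1 * (a1 * b1) + s2 * (a2 * b2) + s3 * (a3 * b3))

namespace Sys3

variable {a1 a2 a3 b1 b2 b3 s1 s2 s3 D : ℝ}

/-- Exchange of the indices 1, 2. -/
theorem p12 (h : Sys3 a1 a2 a3 b1 b2 b3 s1 s2 s3 D) : Sys3 a2 a1 a3 b2 b1 b3 s2 s1 s3 D where
  ha1 := h.ha2
  ha2 := h.ha1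
  ha3 := h.ha3
  hb1 := h.hb2
  hb2 := h.hb1
  hb3 := h.hb3
  hs1 := h.hs2
  hs2 := h.hs1
  hs3 := h.hs3
  hD := h.hD
  hDD := by linear_combination h.hDD
  A1 := h.A2
  A2 := h.A1
  A3 := by linear_combination h.A3
  B1 := h.B2
  B2 := h.B1
  B3 := by linear_combination h.B3
  T1 := by linear_combination h.T2
  T2 := by linear_combination h.T1
  T3 := by linear_combination h.T3

/-- Exchange of the indices 2, 3. -/
theorem p23 (h : Sys3 a1 a2 a3 b1 b2 b3 s1 s2 s3 D) : Sys3 a1 a3 a2 b1 b3 b2 s1 s3 s2 D where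
  ha1 := h.ha1
  ha2 := h.ha3
  ha3 := h.ha2
  hb1 := h.hb1
  hb2 := h.hb3
  hb3 := h.hb2
  hs1 := h.hs1
  hs2 := h.hs3
  hs3 := h.hs2
  hD := h.hD
  hDD := by linear_combination h.hDD
  A1 := by linear_combination h.A1
  A2 := by linear_combination h.A3
  A3 := by linear_combination h.A2
  B1 := by linear_combination h.B1
  B2 := by linear_combination h.B3
  B3 := by linear_combination h.B2
  T1 := by linear_combination h.T1
  T2 := by linear_combination h.T3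
  T3 := by linear_combination h.T2

/-- Exchange of the two factors. -/
theorem flip (h : Sys3 a1 a2 a3 b1 b2 b3 s1 s2 s3 D) : Sys3 b1 b2 b3 a1 a2 a3 s1 s2 s3 D where
  ha1 := h.hb1
  ha2 := h.hb2
  ha3 := h.hb3
  hb1 := h.ha1
  hb2 := h.ha2
  hb3 := h.ha3
  hs1 := h.hs1
  hs2 := h.hs2
  hs3 := h.hs3
  hD := h.hD
  hDD := h.hDD
  A1 := by linear_combination h.B1
  A2 := by linear_combination h.B2
  A3 := by linear_combination h.B3
  B1 := by linear_combination h.A1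
  B2 := by linear_combination h.A2
  B3 := by linear_combination h.A3
  T1 := by linear_combination h.T1
  T2 := by linear_combination h.T2
  T3 := by linear_combination h.T3

theorem D_lt_one (h : Sys3 a1 a2 a3 b1 b2 b3 s1 s2 s3 D) : D < 1 := by
  have h1 := h.hs1
  have h2 := h.hs2
  have h3 := h.hs3
  by_contra hD
  push Not at hD
  have e1 : (s1 - 1) * (s2 - 1) < s1 * s2 := by nlinarith
  have e2 : (s1 - 1) * (s2 - 1) * (s3 - 1) < s1 * s2 * s3 := by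
    have := mul_lt_mul'' e1 (by linarith : s3 - 1 < s3) (by nlinarith) (by linarith)
    exact this
  have e3 : s1 * s2 * s3 ≤ D ^ 2 * (s1 * s2 * s3) := by
    have e4 : 0 < s1 * s2 * s3 := by positivity
    have e5 : 1 ≤ D ^ 2 := one_le_pow₀ hD
    have := mul_le_mul_of_nonneg_right e5 e4.le
    linarith
  rw [h.hDD] at e3
  linarith

/-- `a_1 > D b_1`. -/
theorem a_gt (h : Sys3 a1 a2 a3 b1 b2 b3 s1 s2 s3 D) : D * b1 < a1 := by
  have h1 := h.A1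
  have h2 := h.ha1
  have h3 := h.ha2
  have h4 := h.ha3
  have h5 := h.hs1
  have e1 : 0 < (s1 * a1) * (a1 - D * b1) := by
    have : 2 ≤ a1 * (a2 + a3) := by nlinarith
    nlinarith
  have e2 := pos_of_mul_pos_right e1 (by positivity)
  linarith

end Sys3

end Pool.H36.SF
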